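import Pool.Agent.Work.MP_947296_co.Stmts

/-! Bundle of small proof modules (one section per former module). -/

section

set_option autoImplicit false

/-! Item F1: a tournament all whose blocks separate, by counting. -/

namespace Pool.Agent.Work.MP_947296_co

open Finset

namespace ItemF1

variable {k w t : ℕ}

/-- the tournament of a sign matrix -/
def tb (τ : Fin k → Fin k → Bool) (i j : Fin k) : Bool :=
  if i < j then τ i j else if j < i then !(τ j i) else false

theorem tb_tour (τ : Fin k → Fin k → Bool) : IsTour (fun i j => tb τ i j = true) := by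
  refine ⟨fun i => by simp [tb], fun i j hij => ?_⟩
  rcases lt_or_gt_of_ne hij with h | h
  · have h' : ¬ j < i := not_lt.2 h.le
    simp [tb, h, h']
  · have h' : ¬ i < j := not_lt.2 h.le
    simp [tb, h, h']

/-- change the signs of the pairs `{g j, u}` with `s j = true` -/
def fl (g : Fin w → Fin k) (u : Fin k) (s : Fin w → Bool) (τ : Fin k → Fin k → Bool) :
    Fin k → Fin k → Bool := fun a b =>
  xor (τ a b) (decide (∃ j, s j = true ∧ ((a = g j ∧ b = u) ∨ (a = u ∧ b = g j))))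

theorem fl_fl (g : Fin w → Fin k) (u : Fin k) (s : Fin w → Bool) (τ : Fin k → Fin k → Bool) :
    fl g u s (fl g u s τ) = τ := by
  funext a b
  simp [fl]

theorem tb_fl_u (g : Fin w → Fin k) (hg : Function.Injective g) (u : Fin k)
    (hu : ∀ j, g j ≠ u) (s : Fin w → Bool) (τ : Fin k → Fin k → Bool) (j : Fin w) :
    tb (fl g u s τ) (g j) u = xor (tb τ (g j) u) (s j) := by
  have h1 : (∃ j', s j' = true ∧ ((g j = g j' ∧ u = u) ∨ (g j = u ∧ u = g j'))) ↔ s j = true := by
    constructor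
    · rintro ⟨j', h1, (⟨h2, -⟩ | ⟨h2, -⟩)⟩
      · rw [hg h2]; exact h1
      · exact absurd h2 (hu j)
    · intro h; exact ⟨j, h, Or.inl ⟨rfl, rfl⟩⟩
  have h2 : (∃ j', s j' = true ∧ ((u = g j' ∧ g j = u) ∨ (u = u ∧ g j = g j'))) ↔ s j = true := by
    constructor
    · rintro ⟨j', h1, (⟨-, h2⟩ | ⟨-, h2⟩)⟩
      · exact absurd h2 (hu j)
      · rw [hg h2]; exact h1
    · intro h; exact ⟨j, h, Or.inr ⟨rfl, rfl⟩⟩
  have e1 : decide (∃ j', s j' = true ∧ ((g j = g j' ∧ u = u) ∨ (g j = u ∧ u = g j'))) = s j :=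
    Bool.eq_iff_iff.2 (by rw [decide_eq_true_iff]; exact h1)
  have e2 : decide (∃ j', s j' = true ∧ ((u = g j' ∧ g j = u) ∨ (u = u ∧ g j = g j'))) = s j :=
    Bool.eq_iff_iff.2 (by rw [decide_eq_true_iff]; exact h2)
  rcases lt_or_gt_of_ne (hu j) with h | h
  · unfold tb
    rw [if_pos h, if_pos h]
    unfold fl
    rw [e1]
  · have h' : ¬ g j < u := not_lt.2 h.le
    unfold tb
    rw [if_neg h', if_neg h', if_pos h, if_pos h]
    unfold fl
    rw [e2]
    cases τ u (g j) <;> cases s j <;> rfl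

theorem tb_fl_v (g : Fin w → Fin k) (u v : Fin k) (huv : u ≠ v)
    (hu : ∀ j, g j ≠ u) (s : Fin w → Bool) (τ : Fin k → Fin k → Bool)
    (j : Fin w) : tb (fl g u s τ) (g j) v = tb τ (g j) v := by
  have h1 : ¬ (∃ j', s j' = true ∧ ((g j = g j' ∧ v = u) ∨ (g j = u ∧ v = g j'))) := by
    rintro ⟨j', -, (⟨-, h2⟩ | ⟨h2, -⟩)⟩
    · exact huv h2.symm
    · exact hu j h2
  have h2 : ¬ (∃ j', s j' = true ∧ ((v = g j' ∧ g j = u) ∨ (v = u ∧ g j = g j'))) := by
    rintro ⟨j', -, (⟨-, h2⟩ | ⟨h2, -⟩)⟩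
    · exact hu j h2
    · exact huv h2.symm
  unfold tb fl
  simp only [h1, h2, decide_false, Bool.xor_false]

/-- the sign matrices for which `g` does not separate `u` and `v` -/
def bad (g : Fin w → Fin k) (u v : Fin k) : Finset (Fin k → Fin k → Bool) :=
  univ.filter (fun τ => ∀ j, tb τ (g j) u = tb τ (g j) v)

theorem card_bad (g : Fin w → Fin k) (hg : Function.Injective g) (u v : Fin k) (huv : u ≠ v)
    (hu : ∀ j, g j ≠ u) :
    (bad g u v).card * 2 ^ w ≤ Fintype.card (Fin k → Fin k → Bool) := by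
  have h1 : (bad g u v).card * 2 ^ w =
      ((bad g u v) ×ˢ (univ : Finset (Fin w → Bool))).card := by
    rw [card_product]
    simp
  rw [h1, ← card_univ (α := Fin k → Fin k → Bool)]
  apply card_le_card_of_injOn (fun q => fl g u q.2 q.1) (fun _ _ => mem_coe.2 (mem_univ _))
  rintro ⟨τ, s⟩ hq ⟨τ', s'⟩ hq' he
  simp only [coe_product, Set.mem_prod, mem_coe, bad, mem_filter, mem_univ, true_and, coe_univ,
    Set.mem_univ, and_true] at hq hq'
  simp only at he
  have hs : s = s' := by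
    funext j
    have e1 := tb_fl_u g hg u hu s τ j
    have e2 := tb_fl_u g hg u hu s' τ' j
    have e3 := tb_fl_v g u v huv hu s τ j
    have e4 := tb_fl_v g u v huv hu s' τ' j
    rw [he, hq j] at e1
    rw [hq' j] at e2
    rw [he] at e3
    have e5 : tb τ (g j) v = tb τ' (g j) v := e3.symm.trans e4
    rw [e1, e5] at e2
    revert e2
    cases tb τ' (g j) v <;> cases s j <;> cases s' j <;> simp
  subst hs
  have : fl g u s (fl g u s τ) = fl g u s (fl g u s τ') := by rw [he]
  rw [fl_fl, fl_fl] at this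
  rw [this]

end ItemF1

open ItemF1 in
theorem tourExists : TourExists := by
  intro k w t hk ht h1
  have hlt : ∀ (i : Fin t) (j : Fin w), (i : ℕ) * w + j < k := by
    intro i j
    have h2 : (i : ℕ) * w + w ≤ t * w := by
      have := Nat.mul_le_mul_right w i.2
      rw [Nat.succ_mul] at this
      exact this
    have h3 : (j : ℕ) < w := j.2
    rw [Nat.mul_comm w t] at hk
    omega
  let bl : Fin t → Fin w → Fin k := fun i j => ⟨(i : ℕ) * w + j, hlt i j⟩
  have hinj : ∀ i j i' j', bl i j = bl i' j' → i = i' ∧ j = j' := by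
    intro i j i' j' h
    have h2 : (i : ℕ) * w + j = (i' : ℕ) * w + j' := congrArg Fin.val h
    have hw : 0 < w := lt_of_le_of_lt (Nat.zero_le _) j.2
    have h3 : ((i : ℕ) * w + j) / w = i := by
      rw [Nat.add_comm, Nat.add_mul_div_right _ _ hw, Nat.div_eq_of_lt j.2, Nat.zero_add]
    have h4 : ((i' : ℕ) * w + j') / w = i' := by
      rw [Nat.add_comm, Nat.add_mul_div_right _ _ hw, Nat.div_eq_of_lt j'.2, Nat.zero_add]
    have h5 : (i : ℕ) = i' := by rw [← h3, ← h4, h2]
    have h6 : i = i' := Fin.ext h5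
    subst h6
    exact ⟨rfl, Fin.ext (by omega)⟩
  have hg : ∀ i, Function.Injective (bl i) := fun i j j' h => (hinj i j i j' h).2
  classical
  let Q : Finset (Fin t × (Fin k × Fin k)) :=
    (univ ×ˢ (univ : Finset (Fin k)).offDiag).filter
      (fun q => (∀ j, bl q.1 j ≠ q.2.1) ∧ (∀ j, bl q.1 j ≠ q.2.2))
  have hQ : Q.card ≤ t * (k * k - k) := by
    refine (card_filter_le _ _).trans ?_
    rw [card_product, offDiag_card]
    simp
  have hex : ∃ τ : Fin k → Fin k → Bool, ∀ q ∈ Q, τ ∉ bad (bl q.1) q.2.1 q.2.2 := by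
    by_contra hno
    push Not at hno
    have hsub : (univ : Finset (Fin k → Fin k → Bool)) ⊆
        Q.biUnion (fun q => bad (bl q.1) q.2.1 q.2.2) := by
      intro τ _
      obtain ⟨q, h2, h3⟩ := hno τ
      exact mem_biUnion.2 ⟨q, h2, h3⟩
    have h2 := (card_le_card hsub).trans card_biUnion_le
    have h3 : Fintype.card (Fin k → Fin k → Bool) * 2 ^ w ≤
        Q.card * Fintype.card (Fin k → Fin k → Bool) := by
      rw [card_univ] at h2
      refine (Nat.mul_le_mul_right _ h2).trans ?_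
      rw [sum_mul]
      refine (sum_le_sum (g := fun _ => Fintype.card (Fin k → Fin k → Bool)) ?_).trans ?_
      · intro q hq
        simp only [Q, mem_filter, mem_product, mem_univ, true_and, mem_offDiag] at hq
        exact card_bad _ (hg _) _ _ hq.1 hq.2.1
      · simp
    have hpos : 0 < Fintype.card (Fin k → Fin k → Bool) := Fintype.card_pos
    have h4 : 2 ^ w ≤ Q.card := by
      rw [Nat.mul_comm] at h3
      exact Nat.le_of_mul_le_mul_right h3 hpos
    have h5 : 2 ^ w ≤ t * (k * k - k) := h4.trans hQ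
    have h6 : 0 < 2 ^ w := by positivity
    have ht0 : 0 < t := by
      rcases Nat.eq_zero_or_pos t with h | h
      · rw [h] at h5; omega
      · exact h
    have h7 : t * (k * k - k) < t * k ^ 2 := by
      apply Nat.mul_lt_mul_of_pos_left _ ht0
      rw [pow_two]
      have : 0 < k * k := Nat.mul_pos h1 h1
      omega
    omega
  obtain ⟨τ, hτ⟩ := hex
  refine ⟨fun i j => tb τ i j = true, bl, tb_tour τ, hinj, ?_⟩
  intro i u v hu hv h
  by_contra hne
  refine hτ (i, (u, v)) ?_ ?_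
  · simp only [Q, mem_filter, mem_product, mem_univ, true_and, mem_offDiag]
    exact ⟨hne, fun j hj => hu ⟨j, hj⟩, fun j hj => hv ⟨j, hj⟩⟩
  · simp only [bad, mem_filter, mem_univ, true_and]
    intro j
    exact Bool.eq_iff_iff.2 (h j)

end Pool.Agent.Work.MP_947296_co

end

section

set_option autoImplicit false

namespace Pool.Agent.Work.MP_947296_co

open Finset

namespace F2

open Classical in
theorem mem_arcs_step {n : ℕ} {H : Play (Fin n × Fin n)} {e f p : Fin n × Fin n} :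
    p ∈ arcs (.step H e f) ↔ p ∈ arcs H ∨
      (p = f ∧ s(f.1, f.2) ≠ s(e.1, e.2) ∧ s(f.1, f.2) ∉ (und H).cl) := by
  simp only [arcs]
  split_ifs with h
  · rw [mem_insert] at h
    constructor
    · exact Or.inl
    · rintro (h' | ⟨_, h1, h2⟩)
      · exact h'
      · rcases h with h | h
        · exact absurd h h1
        · exact absurd h h2
  · rw [mem_insert, not_or] at h
    rw [mem_insert]
    constructor
    · rintro (h' | h')
      · exact Or.inr ⟨h', h⟩
      · exact Or.inl h'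
    · rintro (h' | ⟨h', _⟩)
      · exact Or.inr h'
      · exact Or.inl h'

end F2

open F2 Play in
theorem arcsFacts : ArcsFacts := by
  intro n H
  induction H with
  | init f =>
    refine ⟨?_, ?_, ?_, ?_, ?_⟩
    · intro x y h
      simp only [arcs, mem_singleton] at h
      rw [← h]
      simp
    · intro x y h
      simp only [und_init, M_init, mem_singleton, Sym2.eq_iff] at h
      simp only [arcs, mem_singleton]
      rcases h with ⟨h1, h2⟩ | ⟨h1, h2⟩
      · exact Or.inl (Prod.ext h1 h2)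
      · exact Or.inr (Prod.ext h2 h1)
    · intro x y h h'
      simp only [arcs, mem_singleton] at h h'
      rw [← h'] at h
      exact (Prod.ext_iff.mp h).1
    · intro H' h
      rw [pre_init h]
    · intro H' h x y _ hxy
      rw [pre_init h]
      exact hxy
  | step H e f ih =>
    obtain ⟨i1, i2, i3, i4, i5⟩ := ih
    refine ⟨?_, ?_, ?_, ?_, ?_⟩
    · intro x y h
      rw [mem_arcs_step] at h
      rw [und_step, mem_M_step]
      rcases h with h | ⟨h, h1, h2⟩
      · exact Or.inl (i1 x y h)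
      · refine Or.inr ⟨by rw [← h], ?_⟩
        rw [mem_B_step]
        rintro (h3 | ⟨h3, _⟩)
        · exact h2 (mem_cl.mpr (Or.inr h3))
        · exact h1 h3
    · intro x y h
      rw [und_step, mem_M_step] at h
      rcases h with h | ⟨h, h1⟩
      · rcases i2 x y h with h2 | h2
        · exact Or.inl (mem_arcs_step.mpr (Or.inl h2))
        · exact Or.inr (mem_arcs_step.mpr (Or.inl h2))
      · rw [mem_B_step, not_or, not_and_or, not_not] at h1
        by_cases hM : s(x, y) ∈ (und H).M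
        · rcases i2 x y hM with h2 | h2
          · exact Or.inl (mem_arcs_step.mpr (Or.inl h2))
          · exact Or.inr (mem_arcs_step.mpr (Or.inl h2))
        · have hne : s(f.1, f.2) ≠ s(e.1, e.2) := by
            rcases h1.2 with h2 | h2
            · exact h2
            · intro h3
              rw [← h3, ← h] at h2
              exact hM h2
          have hcl : s(f.1, f.2) ∉ (und H).cl := by
            rw [mem_cl, not_or]
            exact ⟨by rw [← h]; exact hM, h1.1⟩
          rw [Sym2.eq_iff] at h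
          rcases h with ⟨h2, h3⟩ | ⟨h2, h3⟩
          · exact Or.inl (mem_arcs_step.mpr (Or.inr ⟨Prod.ext h2 h3, hne, hcl⟩))
          · exact Or.inr (mem_arcs_step.mpr (Or.inr ⟨Prod.ext h3 h2, hne, hcl⟩))
    · intro x y h h'
      rw [mem_arcs_step] at h h'
      rcases h with h | ⟨h, h1, h2⟩
      · rcases h' with h' | ⟨h', h1, h2⟩
        · exact i3 x y h h'
        · exfalso
          apply h2
          rw [← h']
          have := i1 x y h
          rw [Sym2.eq_swap] at this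
          exact mem_cl.mpr (Or.inl this)
      · rcases h' with h' | ⟨h', h1', h2'⟩
        · exfalso
          apply h2
          rw [← h]
          have := i1 y x h'
          rw [Sym2.eq_swap] at this
          exact mem_cl.mpr (Or.inl this)
        · rw [← h'] at h
          exact (Prod.ext_iff.mp h).1
    · intro H' h
      rcases pre_step h with h | h
      · rw [h]
      · intro p hp
        exact mem_arcs_step.mpr (Or.inl (i4 H' h hp))
    · intro H' h x y hxy hp
      rcases pre_step h with h | h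
      · rw [h]
        exact hp
      · rw [mem_arcs_step] at hp
        rcases hp with hp | ⟨hp, _, h2⟩
        · exact i5 H' h x y hxy hp
        · exfalso
          apply h2
          rw [← hp]
          exact (map_pre (fun m : Fin n × Fin n => s(m.1, m.2)) h).cl_sub hxy

end Pool.Agent.Work.MP_947296_co

end

section

set_option autoImplicit false

/-! MP_947296_co: item F3, some block of roles has few unclaimed edges. -/

namespace Pool.Agent.Work.MP_947296_co

open Finset Play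

namespace F3

/-- the number of bad vertices of a block is at most the number of edges of `Un` with an end in
the block -/
theorem card_z_le {n k w : ℕ} (bl : Fin w → Fin k) (f : Fin k → Fin n)
    (Un : Finset (Sym2 (Fin n))) :
    ((univ.image f \ univ.image (fun j => f (bl j))).filter
      (fun z => ∃ j, s(f (bl j), z) ∈ Un)).card ≤
    (Un.filter (fun e => ∃ x ∈ univ.image (fun j => f (bl j)), x ∈ e)).card := by
  classical
  apply card_le_card_of_injOn
    (fun z => if h : ∃ j, s(f (bl j), z) ∈ Un then s(f (bl h.choose), z) else s(z, z))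
  · intro z hz
    rw [mem_coe, mem_filter] at hz
    obtain ⟨-, hz⟩ := hz
    show (if h : ∃ j, s(f (bl j), z) ∈ Un then s(f (bl h.choose), z) else s(z, z)) ∈ _
    rw [dif_pos hz, mem_coe, mem_filter]
    refine ⟨hz.choose_spec, f (bl hz.choose), mem_image_of_mem _ (mem_univ _), ?_⟩
    exact Sym2.mem_mk_left _ _
  · intro z hz z' hz' heq
    rw [mem_coe, mem_filter, mem_sdiff] at hz hz'
    obtain ⟨⟨-, hz1⟩, hz2⟩ := hz
    obtain ⟨⟨-, hz1'⟩, hz2'⟩ := hz'
    change (if h : ∃ j, s(f (bl j), z) ∈ Un then s(f (bl h.choose), z) else s(z, z)) =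
      (if h : ∃ j, s(f (bl j), z') ∈ Un then s(f (bl h.choose), z') else s(z', z')) at heq
    rw [dif_pos hz2, dif_pos hz2', Sym2.eq_iff] at heq
    rcases heq with ⟨-, h⟩ | ⟨h, -⟩
    · exact h
    · exfalso
      apply hz1'
      rw [← h]
      exact mem_image_of_mem (fun j => f (bl j)) (mem_univ _)

theorem card_i_le {n k w t : ℕ} (bl : Fin t → Fin w → Fin k) (f : Fin k → Fin n)
    (hf : Function.Injective f) (hbl : ∀ i j i' j', bl i j = bl i' j' → i = i' ∧ j = j')
    (e : Sym2 (Fin n)) :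
    ((univ : Finset (Fin t)).filter
      (fun i => ∃ x ∈ univ.image (fun j => f (bl i j)), x ∈ e)).card ≤ 2 := by
  classical
  induction e using Sym2.ind with
  | _ p q =>
    have one : ∀ p : Fin n, ((univ : Finset (Fin t)).filter
        (fun i => p ∈ univ.image (fun j => f (bl i j)))).card ≤ 1 := by
      intro p
      rw [card_le_one]
      intro i hi i' hi'
      rw [mem_filter, mem_image] at hi hi'
      obtain ⟨-, j, -, hj⟩ := hi
      obtain ⟨-, j', -, hj'⟩ := hi'
      exact (hbl i j i' j' (hf (hj.trans hj'.symm))).1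
    have hsub : (univ : Finset (Fin t)).filter
        (fun i => ∃ x ∈ univ.image (fun j => f (bl i j)), x ∈ s(p, q)) ⊆
        (univ : Finset (Fin t)).filter (fun i => p ∈ univ.image (fun j => f (bl i j))) ∪
        (univ : Finset (Fin t)).filter (fun i => q ∈ univ.image (fun j => f (bl i j))) := by
      intro i hi
      rw [mem_filter] at hi
      obtain ⟨-, x, hx, hxe⟩ := hi
      rw [Sym2.mem_iff] at hxe
      rw [mem_union, mem_filter, mem_filter]
      rcases hxe with h | h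
      · left; exact ⟨mem_univ _, h ▸ hx⟩
      · right; exact ⟨mem_univ _, h ▸ hx⟩
    have h1 := card_le_card hsub
    have h2 := card_union_le
      ((univ : Finset (Fin t)).filter (fun i => p ∈ univ.image (fun j => f (bl i j))))
      ((univ : Finset (Fin t)).filter (fun i => q ∈ univ.image (fun j => f (bl i j))))
    have h3 := one p
    have h4 := one q
    omega

end F3

theorem blockFew : BlockFew := by
  classical
  intro n k w t b x0 bl f Un ht hb hf hbl hUn
  by_contra hcon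
  push Not at hcon
  have h1 : ∀ i : Fin t, x0 + 1 ≤
      (Un.filter (fun e => ∃ x ∈ univ.image (fun j => f (bl i j)), x ∈ e)).card := by
    intro i
    refine le_trans (Nat.succ_le_of_lt (hcon i)) ?_
    convert F3.card_z_le (bl i) f Un using 2
  have h2 : ∑ i : Fin t, (Un.filter (fun e => ∃ x ∈ univ.image (fun j => f (bl i j)), x ∈ e)).card
      = ∑ e ∈ Un, ((univ : Finset (Fin t)).filter
        (fun i => ∃ x ∈ univ.image (fun j => f (bl i j)), x ∈ e)).card := by
    have := sum_card_bipartiteAbove_eq_sum_card_bipartiteBelow (s := (univ : Finset (Fin t)))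
      (t := Un) (fun i e => ∃ x ∈ univ.image (fun j => f (bl i j)), x ∈ e)
    simpa only [bipartiteAbove, bipartiteBelow] using this
  have h3 : ∑ e ∈ Un, ((univ : Finset (Fin t)).filter
        (fun i => ∃ x ∈ univ.image (fun j => f (bl i j)), x ∈ e)).card ≤ Un.card * 2 := by
    rw [← smul_eq_mul]
    exact sum_le_card_nsmul _ _ _ (fun e _ => F3.card_i_le bl f hf hbl e)
  have h4 : t * (x0 + 1) ≤
      ∑ i : Fin t, (Un.filter (fun e => ∃ x ∈ univ.image (fun j => f (bl i j)), x ∈ e)).card := by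
    calc t * (x0 + 1) = ∑ _i : Fin t, (x0 + 1) := by simp
      _ ≤ _ := sum_le_sum (fun i _ => h1 i)
  have h5 : t * (x0 + 1) ≤ Un.card * 2 := h4.trans (h2.trans_le h3)
  have h6 : t * (x0 + 1) = x0 * t + t := by ring
  omega

end Pool.Agent.Work.MP_947296_co

end

section

set_option autoImplicit false

namespace Pool.Agent.Work.MP_947296_co

open Finset Play

namespace ItemF4

/-- a vertex with a witness `v` for its role has the role `v` -/
theorem role_eq {n k w t : ℕ} [NeZero k] {T : Fin k → Fin k → Prop} {bl : Fin t → Fin w → Fin k}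
    (hsep : Separating T bl) (i : Fin t) (A : Finset (Fin n × Fin n)) (g : Fin w → Fin n)
    (z : Fin n) (v : Fin k) (hv : v ∉ Set.range (bl i))
    (hw : ∀ j, ((g j, z) ∈ A ↔ T (bl i j) v)) : role T (bl i) A g z = v := by
  classical
  have h : ∃ v : Fin k, v ∉ Set.range (bl i) ∧ ∀ j, ((g j, z) ∈ A ↔ T (bl i j) v) := ⟨v, hv, hw⟩
  rw [role, dif_pos h]
  refine hsep.2 i _ _ h.choose_spec.1 hv ?_
  intro j
  rw [← h.choose_spec.2 j]
  exact hw j

end ItemF4

theorem frame (f2 : ArcsFacts) (f3 : BlockFew) : Frame := by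
  classical
  intro n k w t b x0 _ T bl H hT hsep ht hb S hS
  rw [QT, mem_filter] at hS
  obtain ⟨_, H', hpre, ⟨⟨hdis, hcard⟩, _⟩, f, hf, hfS, hcons⟩ := hS
  obtain ⟨i, hi⟩ := f3 n k w t b x0 bl f (Ed S \ (und H').cl) ht hb hf hsep.1 hcard
  obtain ⟨a1, a2, a3, a4, a5⟩ := f2 n H'
  obtain ⟨b1, b2, b3, b4, b5⟩ := f2 n H
  have hginj : Function.Injective (fun j => f (bl i j)) := by
    intro j j' h
    exact (hsep.1 i j i j' (hf h)).2
  refine ⟨i, fun j => f (bl i j), hginj, ?_⟩
  have hRS : univ.image (fun j => f (bl i j)) ⊆ S := by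
    intro z hz
    rw [mem_image] at hz
    obtain ⟨j, _, rfl⟩ := hz
    rw [← hfS]
    exact mem_image_of_mem _ (mem_univ _)
  rw [QC, mem_filter, MS, mem_filter, mem_powersetCard]
  refine ⟨⟨⟨subset_univ _, ?_⟩, hRS, und H', map_pre _ hpre, hdis, hcard⟩, ?_⟩
  · rw [← hfS, card_image_of_injective _ hf, card_univ, Fintype.card_fin]
  · refine ⟨(univ.image f \ univ.image (fun j => f (bl i j))).filter
        (fun z => ∃ j, s(f (bl i j), z) ∈ Ed S \ (und H').cl), ?_, hi, ?_⟩
    · intro z hz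
      rw [mem_filter, hfS] at hz
      exact hz.1
    · have key : ∀ z ∈ (S \ univ.image (fun j => f (bl i j))) \
          ((univ.image f \ univ.image (fun j => f (bl i j))).filter
            (fun z => ∃ j, s(f (bl i j), z) ∈ Ed S \ (und H').cl)),
          ∃ v, f v = z ∧ role T (bl i) (arcs H) (fun j => f (bl i j)) z = v := by
        intro z hz
        rw [mem_sdiff, mem_filter] at hz
        obtain ⟨hz1, hz2⟩ := hz
        rw [hfS] at hz2
        have hz3 : ∀ j, s(f (bl i j), z) ∉ Ed S \ (und H').cl := by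
          intro j hj
          exact hz2 ⟨hz1, j, hj⟩
        rw [mem_sdiff] at hz1
        obtain ⟨hzS, hzR⟩ := hz1
        have hzS' := hzS
        rw [← hfS, mem_image] at hzS'
        obtain ⟨v, _, rfl⟩ := hzS'
        refine ⟨v, rfl, ?_⟩
        have hvr : ∀ j, bl i j ≠ v := by
          intro j hj
          apply hzR
          rw [← hj]
          exact mem_image_of_mem (fun j => f (bl i j)) (mem_univ j)
        apply ItemF4.role_eq hsep i _ _ _ v
        · rintro ⟨j, hj⟩
          exact hvr j hj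
        · intro j
          have hjS : f (bl i j) ∈ S := hRS (mem_image_of_mem (fun j => f (bl i j)) (mem_univ j))
          have hne : f (bl i j) ≠ f v := fun h => hvr j (hf h)
          have hE : s(f (bl i j), f v) ∈ Ed S := mem_Ed.2 ⟨hjS, hzS, hne⟩
          have hcl : s(f (bl i j), f v) ∈ (und H').cl := by
            by_contra hc
            exact hz3 j (mem_sdiff.2 ⟨hE, hc⟩)
          have hM : s(f (bl i j), f v) ∈ (und H').M := by
            rcases mem_cl.1 hcl with h | h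
            · exact h
            · exact absurd hE (Finset.disjoint_left.1 hdis h)
          constructor
          · intro hA
            by_contra hTn
            have hT' : T v (bl i j) := by
              rw [hT.2 v (bl i j) (hvr j).symm]
              exact hTn
            exact hcons _ _ hT' (b5 H' hpre _ _ hcl hA)
          · intro hTT
            rcases a2 _ _ hM with h | h
            · exact b4 H' hpre h
            · exact absurd h (hcons _ _ hTT)
      intro z hz z' hz' heq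
      obtain ⟨v, hv, hr⟩ := key z (mem_coe.1 hz)
      obtain ⟨v', hv', hr'⟩ := key z' (mem_coe.1 hz')
      have hvv : v = v' := hr.symm.trans (heq.trans hr')
      rw [← hv, ← hv', hvv]

end Pool.Agent.Work.MP_947296_co

end

section

set_option autoImplicit false

/-! MP_947296_co, item F5: the number of sets of `QT`. -/

namespace Pool.Agent.Work.MP_947296_co

open Finset Play

theorem frameCount (f4 : Frame) : FrameCount := by
  classical
  intro n k w t b x0 _ T bl H thr hT hS ht hb hthr hQ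
  set Inj : Finset (Fin w → Fin n) := univ.filter (fun g => Function.Injective g) with hInj
  have hsub : QT T b H ⊆ (univ ×ˢ Inj : Finset (Fin t × (Fin w → Fin n))).biUnion
      (fun q => QC k b x0 (role T (bl q.1) (arcs H) q.2) (univ.image q.2) (und H)) := by
    intro S hSQ
    obtain ⟨i, g, hg, hmem⟩ := f4 n k w t b x0 T bl H hT hS ht hb S hSQ
    rw [Finset.mem_biUnion]
    refine ⟨(i, g), ?_, hmem⟩
    simp [hInj, hg]
  have h1 : ((QT T b H).card : ℝ) ≤ ∑ q ∈ (univ ×ˢ Inj : Finset (Fin t × (Fin w → Fin n))),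
      ((QC k b x0 (role T (bl q.1) (arcs H) q.2) (univ.image q.2) (und H)).card : ℝ) := by
    have := (card_le_card hsub).trans Finset.card_biUnion_le
    exact_mod_cast this
  have hpos : (0 : ℝ) ≤ (1 / 2 : ℝ) ^ b := by positivity
  calc ((QT T b H).card : ℝ) * (1 / 2 : ℝ) ^ b
      ≤ (∑ q ∈ (univ ×ˢ Inj : Finset (Fin t × (Fin w → Fin n))),
        ((QC k b x0 (role T (bl q.1) (arcs H) q.2) (univ.image q.2) (und H)).card : ℝ)) *
          (1 / 2 : ℝ) ^ b := mul_le_mul_of_nonneg_right h1 hpos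
    _ = ∑ q ∈ (univ ×ˢ Inj : Finset (Fin t × (Fin w → Fin n))),
        ((QC k b x0 (role T (bl q.1) (arcs H) q.2) (univ.image q.2) (und H)).card : ℝ) *
          (1 / 2 : ℝ) ^ b := by rw [Finset.sum_mul]
    _ ≤ ∑ q ∈ (univ ×ˢ Inj : Finset (Fin t × (Fin w → Fin n))), thr := by
        refine Finset.sum_le_sum fun q hq => ?_
        refine hQ _ _ ?_
        have hinj : Function.Injective q.2 := by
          have := (Finset.mem_product.1 hq).2
          rw [hInj, Finset.mem_filter] at this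
          exact this.2
        rw [Finset.card_image_of_injective _ hinj]
        simp
    _ = ((univ ×ˢ Inj : Finset (Fin t × (Fin w → Fin n))).card : ℝ) * thr := by
        rw [Finset.sum_const, nsmul_eq_mul]
    _ ≤ t * (n : ℝ) ^ w * thr := by
        refine mul_le_mul_of_nonneg_right ?_ hthr
        have h2 : (univ ×ˢ Inj : Finset (Fin t × (Fin w → Fin n))).card ≤ t * n ^ w := by
          rw [Finset.card_product]
          have h3 : Inj.card ≤ n ^ w := by
            refine (Finset.card_le_univ _).trans ?_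
            simp
          simpa using Nat.mul_le_mul_left t h3
        exact_mod_cast h2

end Pool.Agent.Work.MP_947296_co

end

section

set_option autoImplicit false

namespace Pool.Agent.Work.MP_947296_co

open Finset

namespace ItemM1

variable {E : Type} [DecidableEq E]

/-- indicator -/
noncomputable def ii (x : E) (I : Finset E) : ℝ := if x ∈ I then 1 else 0

theorem pv_nonneg (M B I : Finset E) : 0 ≤ pv M B I := by
  unfold pv; split_ifs <;> positivity

theorem pv_insert (M B I : Finset E) (x : E) (hx : x ∉ M) :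
    pv (insert x M) B I = pv M B I * (1 + ii x I) := by
  unfold pv ii
  by_cases hB : Disjoint B I
  · rw [if_pos hB, if_pos hB]
    by_cases hI : x ∈ I
    · rw [if_pos hI]
      have h1 : (I \ M) = insert x (I \ insert x M) := by
        ext z
        simp only [mem_sdiff, mem_insert]
        by_cases hz : z = x
        · subst hz; simp [hI, hx]
        · simp [hz]
      have h2 : x ∉ I \ insert x M := by simp
      rw [h1, card_insert_of_notMem h2, pow_succ]; ring
    · rw [if_neg hI]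
      have h1 : (I \ insert x M) = I \ M := by
        ext z
        simp only [mem_sdiff, mem_insert]
        constructor
        · rintro ⟨a, b⟩; exact ⟨a, fun h => b (Or.inr h)⟩
        · rintro ⟨a, b⟩; exact ⟨a, fun h => h.elim (fun h' => hI (h' ▸ a)) b⟩
      rw [h1]; ring
  · rw [if_neg hB, if_neg hB]; ring

theorem pv_insertB (M B I : Finset E) (y : E) :
    pv M (insert y B) I = pv M B I * (1 - ii y I) := by
  unfold pv ii
  by_cases hI : y ∈ I
  · rw [if_pos hI, if_neg (by rw [disjoint_insert_left]; exact fun h => h.1 hI)]; ring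
  · rw [if_neg hI]
    simp only [disjoint_insert_left, hI, not_false_iff, true_and]; ring

theorem pv_union (M B A A' : Finset E) (x y : E) (hx : x ∉ M) (hy : y ∉ M) (hxy : x ≠ y)
    (hxA : x ∈ A) (hyA : y ∈ A) (hxA' : x ∈ A') (hyA' : y ∈ A') :
    4 * (pv M B A * pv M B A') ≤ pv M B (A ∪ A') := by
  by_cases h1 : Disjoint B A
  · by_cases h2 : Disjoint B A'
    · have h3 : Disjoint B (A ∪ A') := disjoint_union_right.2 ⟨h1, h2⟩
      unfold pv
      rw [if_pos h1, if_pos h2, if_pos h3]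
      have h4 : ((A ∪ A') \ M).card + ((A ∩ A') \ M).card = (A \ M).card + (A' \ M).card := by
        have := card_union_add_card_inter (A \ M) (A' \ M)
        rw [← union_sdiff_distrib] at this
        have h5 : (A \ M) ∩ (A' \ M) = (A ∩ A') \ M := by
          ext z; simp only [mem_inter, mem_sdiff]; tauto
        rw [h5] at this
        exact this
      have h6 : 2 ≤ ((A ∩ A') \ M).card := by
        have h7 : ({x, y} : Finset E) ⊆ (A ∩ A') \ M := by
          intro z hz
          rcases mem_insert.1 hz with h | h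
          · subst h; simp [hxA, hxA', hx]
          · rw [mem_singleton] at h; subst h; simp [hyA, hyA', hy]
        have h8 := card_le_card h7
        rwa [card_pair hxy] at h8
      have h9 : ((A ∪ A') \ M).card + 2 ≤ (A \ M).card + (A' \ M).card := by omega
      calc 4 * ((1 / 2 : ℝ) ^ (A \ M).card * (1 / 2) ^ (A' \ M).card)
          = 4 * (1 / 2 : ℝ) ^ ((A \ M).card + (A' \ M).card) := by rw [pow_add]
        _ ≤ 4 * (1 / 2 : ℝ) ^ (((A ∪ A') \ M).card + 2) := by
            refine mul_le_mul_of_nonneg_left ?_ (by norm_num)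
            exact pow_le_pow_of_le_one (by norm_num) (by norm_num) h9
        _ = (1 / 2 : ℝ) ^ ((A ∪ A') \ M).card := by rw [pow_add]; ring
    · have : pv M B A' = 0 := by unfold pv; rw [if_neg h2]
      rw [this, mul_zero, mul_zero]; exact pv_nonneg _ _ _
  · have : pv M B A = 0 := by unfold pv; rw [if_neg h1]
    rw [this, zero_mul, mul_zero]; exact pv_nonneg _ _ _

theorem pv_le_quarter (M B A : Finset E) (x y : E) (hx : x ∉ M) (hy : y ∉ M) (hxy : x ≠ y)
    (hxA : x ∈ A) (hyA : y ∈ A) : pv M B A ≤ 1 / 4 := by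
  unfold pv
  split_ifs
  · have h7 : ({x, y} : Finset E) ⊆ A \ M := by
      intro z hz
      rcases mem_insert.1 hz with h | h
      · subst h; simp [hxA, hx]
      · rw [mem_singleton] at h; subst h; simp [hyA, hy]
    have h8 := card_le_card h7
    rw [card_pair hxy] at h8
    calc (1 / 2 : ℝ) ^ (A \ M).card ≤ (1 / 2 : ℝ) ^ 2 :=
          pow_le_pow_of_le_one (by norm_num) (by norm_num) h8
      _ = 1 / 4 := by norm_num
  · norm_num

theorem main (X : Type) [Fintype X] [DecidableEq X] (F : X → Finset E)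
    (Pr : Finset (X × X)) (M B : Finset E) (x y : E)
    (hPr : ∀ S S', S ≠ S' → 2 ≤ (F S ∩ F S').card → (S, S') ∈ Pr)
    (hx : x ∉ M) (hy : y ∉ M) (hxy : x ≠ y)
    (hL : Lf F Pr (insert y M) B ≤ Lf F Pr (insert x M) B) :
    Lf F Pr M B - 1 / 4 ≤ Lf F Pr (insert x M) (insert y B) := by
  unfold Lf at *
  simp only [pv_insertB] at *
  simp only [pv_insert _ _ _ _ hx, pv_insert _ _ _ _ hy] at *
  set p : X → ℝ := fun S => pv M B (F S) with hp
  set u : X × X → ℝ := fun q => pv M B (F q.1 ∪ F q.2) with hu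
  set σ : ℝ := ∑ S : X, p S * (ii x (F S) * ii y (F S)) with hσ
  set G : ℝ := ∑ q ∈ Pr, u q * (ii x (F q.1 ∪ F q.2) * ii y (F q.1 ∪ F q.2)) with hG
  have key : (∑ S : X, p S * (1 + ii x (F S)) * (1 - ii y (F S))
      - ∑ q ∈ Pr, u q * (1 + ii x (F q.1 ∪ F q.2)) * (1 - ii y (F q.1 ∪ F q.2)))
      - (∑ S : X, p S - ∑ q ∈ Pr, u q)
      = ((∑ S : X, p S * (1 + ii x (F S)) - ∑ q ∈ Pr, u q * (1 + ii x (F q.1 ∪ F q.2)))
        - (∑ S : X, p S * (1 + ii y (F S)) - ∑ q ∈ Pr, u q * (1 + ii y (F q.1 ∪ F q.2))))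
        - σ + G := by
    have e1 : ∑ S : X, p S * (1 + ii x (F S)) * (1 - ii y (F S)) =
        ∑ S : X, p S + (∑ S : X, p S * (1 + ii x (F S)) - ∑ S : X, p S * (1 + ii y (F S))) - σ := by
      rw [hσ, ← sum_sub_distrib, ← sum_add_distrib, ← sum_sub_distrib]
      refine sum_congr rfl fun S _ => ?_
      ring
    have e2 : ∑ q ∈ Pr, u q * (1 + ii x (F q.1 ∪ F q.2)) * (1 - ii y (F q.1 ∪ F q.2)) =
        ∑ q ∈ Pr, u q + (∑ q ∈ Pr, u q * (1 + ii x (F q.1 ∪ F q.2))
          - ∑ q ∈ Pr, u q * (1 + ii y (F q.1 ∪ F q.2))) - G := by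
      rw [hG, ← sum_sub_distrib, ← sum_add_distrib, ← sum_sub_distrib]
      refine sum_congr rfl fun S _ => ?_
      ring
    rw [e1, e2]; ring
  have ii0 : ∀ (z : E) (I : Finset E), 0 ≤ ii z I := fun z I => by
    unfold ii; split_ifs <;> norm_num
  have hp0 : ∀ S, 0 ≤ p S := fun S => pv_nonneg _ _ _
  have hu0 : ∀ q, 0 ≤ u q := fun q => pv_nonneg _ _ _
  -- w S = [x ∈ F S][y ∈ F S] p S
  set w : X → ℝ := fun S => p S * (ii x (F S) * ii y (F S)) with hw
  have hw0 : ∀ S, 0 ≤ w S := fun S => mul_nonneg (hp0 S) (mul_nonneg (ii0 _ _) (ii0 _ _))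
  have hσw : σ = ∑ S : X, w S := rfl
  have hdiag : ∀ S, 4 * (w S * w S) ≤ w S := by
    intro S
    by_cases h : x ∈ F S ∧ y ∈ F S
    · have h1 : w S ≤ 1 / 4 := by
        have : w S = pv M B (F S) := by
          simp [hw, hp, ii, h.1, h.2]
        rw [this]
        exact pv_le_quarter M B (F S) x y hx hy hxy h.1 h.2
      nlinarith [hw0 S]
    · have : w S = 0 := by
        simp only [hw, ii]
        by_cases h1 : x ∈ F S
        · have h2 : y ∉ F S := fun h2 => h ⟨h1, h2⟩
          simp [h2]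
        · simp [h1]
      rw [this]; norm_num
  have hoff : ∑ q ∈ (univ : Finset (X × X)).filter (fun q => q.1 ≠ q.2), 4 * (w q.1 * w q.2) ≤ G := by
    have h1 : ∑ q ∈ (univ : Finset (X × X)).filter (fun q => q.1 ≠ q.2), 4 * (w q.1 * w q.2)
        ≤ ∑ q ∈ (univ : Finset (X × X)).filter (fun q => q.1 ≠ q.2),
          (if q ∈ Pr then u q * (ii x (F q.1 ∪ F q.2) * ii y (F q.1 ∪ F q.2)) else 0) := by
      refine sum_le_sum fun q hq => ?_
      have hne : q.1 ≠ q.2 := (mem_filter.1 hq).2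
      by_cases h : (x ∈ F q.1 ∧ y ∈ F q.1) ∧ (x ∈ F q.2 ∧ y ∈ F q.2)
      · obtain ⟨⟨a, b⟩, c, d⟩ := h
        have hq2 : q ∈ Pr := by
          have h7 : ({x, y} : Finset E) ⊆ F q.1 ∩ F q.2 := by
            intro z hz
            rcases mem_insert.1 hz with h | h
            · subst h; simp [a, c]
            · rw [mem_singleton] at h; subst h; simp [b, d]
          have h8 := card_le_card h7
          rw [card_pair hxy] at h8
          exact hPr q.1 q.2 hne h8
        rw [if_pos hq2]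
        have e1 : w q.1 = pv M B (F q.1) := by simp [hw, hp, ii, a, b]
        have e2 : w q.2 = pv M B (F q.2) := by simp [hw, hp, ii, c, d]
        have e3 : ii x (F q.1 ∪ F q.2) = 1 := by simp [ii, a]
        have e4 : ii y (F q.1 ∪ F q.2) = 1 := by simp [ii, b]
        rw [e1, e2, e3, e4, mul_one, mul_one]
        exact pv_union M B _ _ x y hx hy hxy a b c d
      · have : w q.1 * w q.2 = 0 := by
          simp only [hw, ii]
          by_cases h1 : x ∈ F q.1
          · by_cases h2 : y ∈ F q.1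
            · by_cases h3 : x ∈ F q.2
              · have h4 : y ∉ F q.2 := fun h4 => h ⟨⟨h1, h2⟩, h3, h4⟩
                simp [h4]
              · simp [h3]
            · simp [h2]
          · simp [h1]
        rw [this, mul_zero]
        split_ifs
        · exact mul_nonneg (hu0 q) (mul_nonneg (ii0 _ _) (ii0 _ _))
        · exact le_refl _
    refine h1.trans ?_
    rw [← sum_filter, hG]
    refine sum_le_sum_of_subset_of_nonneg (fun q hq => (mem_filter.1 hq).2) ?_
    intro q _ _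
    exact mul_nonneg (hu0 q) (mul_nonneg (ii0 _ _) (ii0 _ _))
  have hsq : σ * σ = ∑ q ∈ (univ : Finset (X × X)).filter (fun q => q.1 ≠ q.2), w q.1 * w q.2
      + ∑ S : X, w S * w S := by
    rw [hσw, sum_mul_sum, ← sum_product', univ_product_univ,
      ← sum_filter_add_sum_filter_not (univ : Finset (X × X)) (fun q => q.1 ≠ q.2)]
    congr 1
    have : (univ : Finset (X × X)).filter (fun q => ¬ q.1 ≠ q.2) =
        (univ : Finset X).image (fun S => (S, S)) := by
      ext ⟨a, b⟩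
      simp only [mem_filter, mem_univ, true_and, not_not, mem_image, Prod.mk.injEq]
      constructor
      · intro h; exact ⟨a, rfl, h⟩
      · rintro ⟨c, h1, h2⟩; rw [← h1, ← h2]
    rw [this, sum_image]
    intro a _ b _ h
    exact (Prod.mk.inj h).1
  have hd : 4 * ∑ S : X, w S * w S ≤ σ := by
    rw [hσw, mul_sum]
    exact sum_le_sum fun S _ => hdiag S
  rw [← mul_sum] at hoff
  have hGσ : 4 * (σ * σ) - σ ≤ G := by
    rw [hsq]; linarith
  have hfin : -(1 / 4 : ℝ) ≤ G - σ := by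
    nlinarith [sq_nonneg (2 * σ - 1 / 2)]
  have hL' : ∑ S : X, p S * (1 + ii y (F S)) - ∑ q ∈ Pr, u q * (1 + ii y (F q.1 ∪ F q.2)) ≤
    ∑ S : X, p S * (1 + ii x (F S)) - ∑ q ∈ Pr, u q * (1 + ii x (F q.1 ∪ F q.2)) := hL
  have hgoal : ∑ S : X, p S - ∑ q ∈ Pr, u q - 1 / 4 ≤
      ∑ S : X, p S * (1 + ii x (F S)) * (1 - ii y (F S))
      - ∑ q ∈ Pr, u q * (1 + ii x (F q.1 ∪ F q.2)) * (1 - ii y (F q.1 ∪ F q.2)) := by
    linarith
  refine le_trans (le_of_eq rfl) (hgoal.trans (le_of_eq ?_))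
  congr 1

end ItemM1

theorem makerRound : MakerRound := by
  intro E X _ _ _ F Pr M B x y hPr _ hx hy hxy hL
  exact ItemM1.main X F Pr M B x y hPr (fun h => hx (mem_union_left _ h))
    (fun h => hy (mem_union_left _ h)) hxy hL

end Pool.Agent.Work.MP_947296_co

end

section

set_option autoImplicit false

/-! Item M2: Maker's strategy from the round inequality. -/

namespace Pool.Agent.Work.MP_947296_co

open Finset

namespace ItemM2

section

variable {E X : Type} [DecidableEq E] [Fintype E] [Nonempty E] [Fintype X]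

/-- unclaimed edges -/
def un (s : Finset E × Finset E) : Finset E := univ \ (s.1 ∪ s.2)

theorem mem_un {s : Finset E × Finset E} {x : E} : x ∈ un s ↔ x ∉ s.1 ∪ s.2 := by
  simp [un]

/-- best unclaimed edge -/
theorem exists_pick (F : X → Finset E) (Pr : Finset (X × X)) (s : Finset E × Finset E) :
    ∃ x : E, (un s).Nonempty → x ∈ un s ∧
      ∀ y ∈ un s, Lf F Pr (insert y s.1) s.2 ≤ Lf F Pr (insert x s.1) s.2 := by
  by_cases h : (un s).Nonempty
  · obtain ⟨x, hx, hm⟩ := exists_max_image (un s) (fun y => Lf F Pr (insert y s.1) s.2) h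
    exact ⟨x, fun _ => ⟨hx, hm⟩⟩
  · exact ⟨Classical.arbitrary E, fun h' => absurd h' h⟩

noncomputable def pick (F : X → Finset E) (Pr : Finset (X × X)) (s : Finset E × Finset E) : E :=
  (exists_pick F Pr s).choose

theorem pick_mem (F : X → Finset E) (Pr : Finset (X × X)) {s : Finset E × Finset E}
    (h : (un s).Nonempty) : pick F Pr s ∈ un s :=
  ((exists_pick F Pr s).choose_spec h).1

theorem pick_max (F : X → Finset E) (Pr : Finset (X × X)) {s : Finset E × Finset E}
    {y : E} (hy : y ∈ un s) :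
    Lf F Pr (insert y s.1) s.2 ≤ Lf F Pr (insert (pick F Pr s) s.1) s.2 :=
  ((exists_pick F Pr s).choose_spec ⟨y, hy⟩).2 y hy

/-- the answer of the virtual Breaker -/
theorem exists_ans (s : Finset E × Finset E) (x y0 : E) :
    ∃ y : Option E, (y0 ∈ un s → y0 ≠ x → y = some y0) ∧ (∀ z, y = some z → z ∈ un s ∧ z ≠ x) ∧
      (y = none → ∀ z ∈ un s, z = x) := by
  by_cases h : y0 ∈ un s ∧ y0 ≠ x
  · exact ⟨some y0, fun _ _ => rfl, fun z hz => by
      rw [← Option.some.inj hz]; exact h, fun h' => by simp at h'⟩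
  · by_cases h2 : ∃ z, z ∈ un s ∧ z ≠ x
    · obtain ⟨z, hz⟩ := h2
      exact ⟨some z, fun h1 h3 => absurd ⟨h1, h3⟩ h, fun w hw => by
        rw [← Option.some.inj hw]; exact hz, fun h' => by simp at h'⟩
    · refine ⟨none, fun h1 h3 => absurd ⟨h1, h3⟩ h, fun w hw => by simp at hw, fun _ z hz => ?_⟩
      by_contra hne
      exact h2 ⟨z, hz, hne⟩

noncomputable def ans (s : Finset E × Finset E) (x y0 : E) : Option E :=
  (exists_ans s x y0).choose

/-- the next state -/
noncomputable def upd (F : X → Finset E) (Pr : Finset (X × X)) (s : Finset E × Finset E)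
    (y0 : E) : Finset E × Finset E := by
  classical
  exact if (un s).Nonempty then
    (insert (pick F Pr s) s.1,
      match ans s (pick F Pr s) y0 with
      | none => s.2
      | some y => insert y s.2)
  else s

/-- the state after `t` rounds -/
noncomputable def stt (F : X → Finset E) (Pr : Finset (X × X)) :
    (t : ℕ) → (Fin t → E) → Finset E × Finset E
  | 0, _ => (∅, ∅)
  | t + 1, v => upd F Pr (stt F Pr t (fun i => v i.castSucc)) (v (Fin.last t))

/-- the state along a sequence -/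
noncomputable def Sq (F : X → Finset E) (Pr : Finset (X × X)) (b : ℕ → E) :
    ℕ → Finset E × Finset E
  | 0 => (∅, ∅)
  | t + 1 => upd F Pr (Sq F Pr b t) (b t)

theorem stt_eq (F : X → Finset E) (Pr : Finset (X × X)) (b : ℕ → E) (t : ℕ) :
    stt F Pr t (fun s : Fin t => b s.val) = Sq F Pr b t := by
  induction t with
  | zero => rfl
  | succ t ih =>
    simp only [stt, Sq]
    have h1 : (fun i : Fin t => b (i.castSucc : Fin (t + 1)).val) =
        (fun s : Fin t => b s.val) := rfl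
    rw [h1, ih]
    rfl

/-- a round with an answer -/
theorem upd_cases (F : X → Finset E) (Pr : Finset (X × X)) (s : Finset E × Finset E) (y0 : E)
    (h : (un s).Nonempty) :
    (∃ y, y ∈ un s ∧ y ≠ pick F Pr s ∧ upd F Pr s y0 = (insert (pick F Pr s) s.1, insert y s.2) ∧
      (y0 ∈ un s → y0 ≠ pick F Pr s → y = y0)) ∨
    ((∀ z ∈ un s, z = pick F Pr s) ∧ upd F Pr s y0 = (insert (pick F Pr s) s.1, s.2)) := by
  have hs := (exists_ans s (pick F Pr s) y0).choose_spec
  have he : ans s (pick F Pr s) y0 = (exists_ans s (pick F Pr s) y0).choose := rfl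
  rw [← he] at hs
  obtain ⟨h1, h2, h3⟩ := hs
  cases ha : ans s (pick F Pr s) y0 with
  | none =>
    right
    refine ⟨h3 ha, ?_⟩
    simp only [upd, if_pos h, ha]
  | some y =>
    left
    refine ⟨y, (h2 y ha).1, (h2 y ha).2, ?_, ?_⟩
    · simp only [upd, if_pos h, ha]
    · intro h4 h5
      have := h1 h4 h5
      rw [ha] at this
      exact Option.some.inj this

theorem upd_empty (F : X → Finset E) (Pr : Finset (X × X)) (s : Finset E × Finset E) (y0 : E)
    (h : ¬ (un s).Nonempty) : upd F Pr s y0 = s := by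
  simp only [upd, if_neg h]

/-- the invariants -/
theorem inv (F : X → Finset E) (Pr : Finset (X × X)) (b : ℕ → E) (t : ℕ) :
    Disjoint (Sq F Pr b t).1 (Sq F Pr b t).2 ∧
    (∀ r, r < t → b r ∈ (Sq F Pr b t).1 ∪ (Sq F Pr b t).2) ∧
    (∀ e ∈ (Sq F Pr b t).1, ∃ r, r < t ∧ pick F Pr (Sq F Pr b r) = e ∧ e ∈ un (Sq F Pr b r)) := by
  induction t with
  | zero =>
    refine ⟨by simp [Sq], fun r hr => absurd hr (by omega), fun e he => ?_⟩
    simp [Sq] at he
  | succ t ih =>
    obtain ⟨h1, h2, h3⟩ := ih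
    by_cases hn : (un (Sq F Pr b t)).Nonempty
    · have hx := pick_mem F Pr hn
      have hx' := mem_un.1 hx
      rw [mem_union, not_or] at hx'
      rcases upd_cases F Pr (Sq F Pr b t) (b t) hn with ⟨y, hy, hyx, hu, hyy⟩ | ⟨hz, hu⟩
      · have hy' := mem_un.1 hy
        rw [mem_union, not_or] at hy'
        have hS : Sq F Pr b (t + 1) = (insert (pick F Pr (Sq F Pr b t)) (Sq F Pr b t).1,
            insert y (Sq F Pr b t).2) := hu
        rw [hS]
        refine ⟨?_, ?_, ?_⟩
        · rw [disjoint_left]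
          intro z hz hz'
          simp only [mem_insert] at hz hz'
          rcases hz with rfl | hz
          · rcases hz' with hz' | hz'
            · exact hyx hz'.symm
            · exact hx'.2 hz'
          · rcases hz' with rfl | hz'
            · exact hy'.1 hz
            · exact disjoint_left.1 h1 hz hz'
        · intro r hr
          rcases Nat.lt_succ_iff_lt_or_eq.1 hr with hr | rfl
          · have := h2 r hr
            simp only [mem_union, mem_insert] at this ⊢
            tauto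
          · simp only [mem_union, mem_insert]
            by_cases hb : b r ∈ un (Sq F Pr b r)
            · by_cases hbx : b r = pick F Pr (Sq F Pr b r)
              · exact Or.inl (Or.inl hbx)
              · exact Or.inr (Or.inl (hyy hb hbx).symm)
            · rw [mem_un, not_not, mem_union] at hb
              tauto
        · intro e he
          rcases mem_insert.1 he with rfl | he
          · exact ⟨t, Nat.lt_succ_self t, rfl, hx⟩
          · obtain ⟨r, hr, h4⟩ := h3 e he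
            exact ⟨r, by omega, h4⟩
      · have hS : Sq F Pr b (t + 1) = (insert (pick F Pr (Sq F Pr b t)) (Sq F Pr b t).1,
            (Sq F Pr b t).2) := hu
        rw [hS]
        refine ⟨?_, ?_, ?_⟩
        · rw [disjoint_left]
          intro z hz' hz''
          simp only [mem_insert] at hz'
          rcases hz' with rfl | hz'
          · exact hx'.2 hz''
          · exact disjoint_left.1 h1 hz' hz''
        · intro r hr
          rcases Nat.lt_succ_iff_lt_or_eq.1 hr with hr | rfl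
          · have := h2 r hr
            simp only [mem_union, mem_insert] at this ⊢
            tauto
          · simp only [mem_union, mem_insert]
            by_cases hb : b r ∈ un (Sq F Pr b r)
            · exact Or.inl (Or.inl (hz _ hb))
            · rw [mem_un, not_not, mem_union] at hb
              tauto
        · intro e he
          rcases mem_insert.1 he with rfl | he
          · exact ⟨t, Nat.lt_succ_self t, rfl, hx⟩
          · obtain ⟨r, hr, h4⟩ := h3 e he
            exact ⟨r, by omega, h4⟩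
    · have hS : Sq F Pr b (t + 1) = Sq F Pr b t := upd_empty F Pr _ _ hn
      rw [hS]
      refine ⟨h1, ?_, ?_⟩
      · intro r _
        by_contra hr
        exact hn ⟨b r, mem_un.2 hr⟩
      · intro e he
        obtain ⟨r, hr, h4⟩ := h3 e he
        exact ⟨r, by omega, h4⟩

/-- a full round -/
theorem round (m1 : MakerRound) [DecidableEq X] (F : X → Finset E) (Pr : Finset (X × X))
    (hP : ∀ S S', S ≠ S' → 2 ≤ (F S ∩ F S').card → (S, S') ∈ Pr)
    (s : Finset E × Finset E) (hd : Disjoint s.1 s.2) (y0 : E) (h2 : 2 ≤ (un s).card) :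
    Lf F Pr s.1 s.2 - 1 / 4 ≤ Lf F Pr (upd F Pr s y0).1 (upd F Pr s y0).2 ∧
    (un (upd F Pr s y0)).card + 2 = (un s).card := by
  have hn : (un s).Nonempty := card_pos.1 (by omega)
  have hx := pick_mem F Pr hn
  rcases upd_cases F Pr s y0 hn with ⟨y, hy, hyx, hu, -⟩ | ⟨hz, -⟩
  · rw [hu]
    refine ⟨?_, ?_⟩
    · exact m1 E X F Pr s.1 s.2 (pick F Pr s) y hP hd (mem_un.1 hx) (mem_un.1 hy) (Ne.symm hyx)
        (pick_max F Pr hy)
    · have he : un (insert (pick F Pr s) s.1, insert y s.2) = ((un s).erase (pick F Pr s)).erase y := by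
        ext z
        simp only [mem_un, mem_erase, mem_union, mem_insert]
        tauto
      rw [he, card_erase_of_mem (mem_erase.2 ⟨hyx, hy⟩), card_erase_of_mem hx]
      omega
  · exfalso
    have : un s ⊆ {pick F Pr s} := fun z hz' => mem_singleton.2 (hz z hz')
    have := card_le_card this
    simp at this
    omega

theorem pv_nonneg (M B I : Finset E) : 0 ≤ pv M B I := by
  unfold pv
  split_ifs
  · positivity
  · exact le_rfl

end

end ItemM2

open ItemM2 in
theorem makerAbs (m1 : MakerRound) : MakerAbs := by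
  intro E X _ _ _ _ _ F Pr hP hL
  refine ⟨fun t v => pick F Pr (stt F Pr t v), fun b => ?_⟩
  -- some time with at most one unclaimed edge
  have hex : ∃ t, (un (Sq F Pr b t)).card ≤ 1 := by
    by_contra hno
    push Not at hno
    have hdec : ∀ t, (un (Sq F Pr b t)).card + t ≤ Fintype.card E := by
      intro t
      induction t with
      | zero => simpa using card_le_univ _
      | succ t ih =>
        have h := (round m1 F Pr hP (Sq F Pr b t) (inv F Pr b t).1 (b t) (hno t)).2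
        have hS : Sq F Pr b (t + 1) = upd F Pr (Sq F Pr b t) (b t) := rfl
        rw [hS]
        omega
    have := hdec (Fintype.card E + 1)
    omega
  classical
  set t0 := Nat.find hex with ht0
  have h1 : (un (Sq F Pr b t0)).card ≤ 1 := Nat.find_spec hex
  have hmin : ∀ r, r < t0 → 2 ≤ (un (Sq F Pr b r)).card := fun r hr => by
    have := Nat.find_min hex hr
    omega
  have hpot : ∀ t, t ≤ t0 → Lf F Pr ∅ ∅ - ((Fintype.card E : ℝ) - (un (Sq F Pr b t)).card) / 8 ≤
      Lf F Pr (Sq F Pr b t).1 (Sq F Pr b t).2 := by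
    intro t
    induction t with
    | zero =>
      intro _
      have : (un (Sq F Pr b 0)).card = Fintype.card E := by simp [un, Sq]
      rw [this]
      simp [Sq]
    | succ t ih =>
      intro ht
      have ih := ih (by omega)
      obtain ⟨h2, h3⟩ := round m1 F Pr hP (Sq F Pr b t) (inv F Pr b t).1 (b t) (hmin t (by omega))
      have hS : Sq F Pr b (t + 1) = upd F Pr (Sq F Pr b t) (b t) := rfl
      rw [hS]
      have h4 : ((un (upd F Pr (Sq F Pr b t) (b t))).card : ℝ) + 2 = (un (Sq F Pr b t)).card := by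
        exact_mod_cast h3
      linarith
  have hpos : 0 < Lf F Pr (Sq F Pr b t0).1 (Sq F Pr b t0).2 := by
    have := hpot t0 le_rfl
    have h5 : (0 : ℝ) ≤ (un (Sq F Pr b t0)).card := by positivity
    linarith
  obtain ⟨S, -, hS⟩ : ∃ S ∈ (univ : Finset X), 0 < pv (Sq F Pr b t0).1 (Sq F Pr b t0).2 (F S) := by
    apply exists_lt_of_sum_lt
    rw [sum_const_zero]
    have h6 : 0 ≤ ∑ q ∈ Pr, pv (Sq F Pr b t0).1 (Sq F Pr b t0).2 (F q.1 ∪ F q.2) :=
      sum_nonneg fun q _ => pv_nonneg _ _ _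
    unfold Lf at hpos
    linarith
  have hdis : Disjoint (Sq F Pr b t0).2 (F S) := by
    by_contra h
    unfold pv at hS
    rw [if_neg h] at hS
    exact lt_irrefl _ hS
  have key : ∀ t e, pick F Pr (Sq F Pr b t) = e → e ∈ un (Sq F Pr b t) →
      pick F Pr (stt F Pr t (fun s : Fin t => b s.val)) = e ∧ ∀ s, s < t → b s ≠ e := by
    intro t e h2 h3
    refine ⟨by rw [stt_eq]; exact h2, fun s hs he => ?_⟩
    have := (inv F Pr b t).2.1 s hs
    rw [he] at this
    exact mem_un.1 h3 this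
  refine ⟨S, fun e he => ?_⟩
  by_cases hM : e ∈ (Sq F Pr b t0).1
  · obtain ⟨r, -, h2, h3⟩ := (inv F Pr b t0).2.2 e hM
    exact ⟨r, key r e h2 h3⟩
  · have hB : e ∉ (Sq F Pr b t0).2 := fun h => disjoint_left.1 hdis h he
    have hu : e ∈ un (Sq F Pr b t0) := by
      rw [mem_un, mem_union]
      tauto
    have hx := pick_mem F Pr ⟨e, hu⟩
    have h7 : pick F Pr (Sq F Pr b t0) = e := card_le_one.1 h1 _ hx _ hu
    exact ⟨t0, key t0 e h7 hu⟩

end Pool.Agent.Work.MP_947296_co

end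

section

set_option autoImplicit false

/-! MP_947296_co, item M3: Maker's criterion for the clique game (helper90). -/

namespace Pool.Agent.Work.MP_947296_co

open Finset Play

namespace ItemM3

theorem out_mk {α : Type} (e : Sym2 α) : s(e.out.1, e.out.2) = e := by
  rw [Sym2.mk, e.out_eq]

theorem Ed_inter {n : ℕ} (S S' : Finset (Fin n)) : Ed S ∩ Ed S' = Ed (S ∩ S') := by
  ext e
  induction e using Sym2.ind with
  | _ x y =>
    rw [mem_inter, mem_Ed, mem_Ed, mem_Ed, mem_inter, mem_inter]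
    tauto

theorem card_inter_le {n k s : ℕ} (S : Finset (Fin n)) (hS : S.card = k) :
    ((powersetCard k (univ : Finset (Fin n))).filter (fun S' => (S ∩ S').card = s)).card ≤
      k.choose s * (n - k).choose (k - s) := by
  have h1 : (powersetCard s S ×ˢ powersetCard (k - s) (univ \ S)).card =
      k.choose s * (n - k).choose (k - s) := by
    rw [card_product, card_powersetCard, card_powersetCard, hS, card_univ_sdiff, hS,
      Fintype.card_fin]
  rw [← h1]
  refine card_le_card_of_injOn (fun S' => (S ∩ S', S' \ S)) ?_ ?_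
  · intro S' hS'
    rw [coe_filter, Set.mem_ofPred_eq, mem_powersetCard] at hS'
    rw [coe_product, Set.mem_prod, mem_coe, mem_coe, mem_powersetCard, mem_powersetCard]
    refine ⟨⟨inter_subset_left, hS'.2⟩, sdiff_subset_sdiff (subset_univ _) le_rfl, ?_⟩
    have h2 := card_sdiff_add_card_inter S' S
    rw [inter_comm S' S, hS'.2, hS'.1.2] at h2
    dsimp only
    omega
  · intro A _ B _ hAB
    simp only [Prod.mk.injEq] at hAB
    have hA : A = (S ∩ A) ∪ (A \ S) := by
      rw [inter_comm, union_comm, sdiff_union_inter]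
    have hB : B = (S ∩ B) ∪ (B \ S) := by
      rw [inter_comm, union_comm, sdiff_union_inter]
    rw [hA, hB, hAB.1, hAB.2]

theorem lf_bound (n k : ℕ) (hn : 1 ≤ n)
    (h1 : (n : ℝ) ^ 2 ≤ (n.choose k : ℝ) * (1 / 2 : ℝ) ^ (k.choose 2))
    (h2 : ∑ s ∈ Ico 3 k, ((k.choose s : ℝ) * ((n - k).choose (k - s)) *
      (1 / 2 : ℝ) ^ (k.choose 2 - s.choose 2)) ≤ 1 / 2)
    (Pr : Finset ({S : Finset (Fin n) // S.card = k} × {S : Finset (Fin n) // S.card = k}))
    (hPr : ∀ q, q ∈ Pr ↔ q.1 ≠ q.2 ∧ 2 ≤ (Ed q.1.1 ∩ Ed q.2.1).card) :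
    (Fintype.card (Sym2 (Fin n)) : ℝ) / 8 <
      Lf (fun S : {S : Finset (Fin n) // S.card = k} => Ed S.1) Pr ∅ ∅ := by
  classical
  have hpv : ∀ I : Finset (Sym2 (Fin n)), pv ∅ ∅ I = (1 / 2 : ℝ) ^ I.card := by
    intro I
    unfold pv
    rw [if_pos (disjoint_empty_left I), sdiff_empty]
  have hcX : Fintype.card {S : Finset (Fin n) // S.card = k} = n.choose k := by
    rw [Fintype.card_finset_len, Fintype.card_fin]
  have hfirst : ∑ S : {S : Finset (Fin n) // S.card = k}, pv ∅ ∅ (Ed S.1) =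
      (n.choose k : ℝ) * (1 / 2 : ℝ) ^ (k.choose 2) := by
    rw [sum_congr rfl (g := fun _ => (1 / 2 : ℝ) ^ (k.choose 2))
      (fun S _ => by rw [hpv, card_Ed, S.2]), sum_const, card_univ, hcX, nsmul_eq_mul]
  have hinner : ∀ S : {S : Finset (Fin n) // S.card = k},
      ∑ S' : {S : Finset (Fin n) // S.card = k}, (if (S, S') ∈ Pr then
        pv ∅ ∅ (Ed S.1 ∪ Ed S'.1) else 0) ≤ (1 / 2 : ℝ) ^ (k.choose 2) * (1 / 2) := by
    intro S
    have hval : ∀ S' : {S : Finset (Fin n) // S.card = k}, (if (S, S') ∈ Pr then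
        pv ∅ ∅ (Ed S.1 ∪ Ed S'.1) else 0) ≤ ∑ s ∈ Ico 3 k, (if (S.1 ∩ S'.1).card = s then
          (1 / 2 : ℝ) ^ (k.choose 2) * (1 / 2 : ℝ) ^ (k.choose 2 - s.choose 2) else 0) := by
      intro S'
      by_cases hq : (S, S') ∈ Pr
      · rw [if_pos hq]
        rw [hPr] at hq
        obtain ⟨hne, h2c⟩ := hq
        dsimp only at hne h2c
        rw [Ed_inter, card_Ed] at h2c
        have hs3 : 3 ≤ (S.1 ∩ S'.1).card := by
          by_contra hlt
          have : (S.1 ∩ S'.1).card ≤ 2 := by omega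
          have h3 := Nat.choose_le_choose 2 this
          simp at h3
          omega
        have hsk : (S.1 ∩ S'.1).card < k := by
          by_contra hge
          rw [not_lt] at hge
          have h3 : S.1 ∩ S'.1 = S.1 := eq_of_subset_of_card_le inter_subset_left (by rw [S.2]; exact hge)
          have h4 : S.1 ⊆ S'.1 := by rw [← h3]; exact inter_subset_right
          have h5 : S.1 = S'.1 := eq_of_subset_of_card_le h4 (by rw [S.2, S'.2])
          exact hne (Subtype.ext h5)
        rw [sum_ite_eq, if_pos (mem_Ico.2 ⟨hs3, hsk⟩), hpv, ← pow_add]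
        have h6 := card_union_add_card_inter (Ed S.1) (Ed S'.1)
        rw [Ed_inter, card_Ed, card_Ed, card_Ed, S.2, S'.2] at h6
        have h7 : (S.1 ∩ S'.1).card.choose 2 ≤ k.choose 2 := Nat.choose_le_choose 2 hsk.le
        refine le_of_eq ?_
        congr 1
        omega
      · rw [if_neg hq]
        refine sum_nonneg fun s _ => ?_
        split_ifs
        · positivity
        · exact le_rfl
    refine (sum_le_sum fun S' _ => hval S').trans ?_
    rw [sum_comm]
    have h3 : ∀ s ∈ Ico 3 k, ∑ S' : {S : Finset (Fin n) // S.card = k},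
        (if (S.1 ∩ S'.1).card = s then
          (1 / 2 : ℝ) ^ (k.choose 2) * (1 / 2 : ℝ) ^ (k.choose 2 - s.choose 2) else 0) ≤
        (1 / 2 : ℝ) ^ (k.choose 2) * ((k.choose s : ℝ) * ((n - k).choose (k - s)) *
          (1 / 2 : ℝ) ^ (k.choose 2 - s.choose 2)) := by
      intro s _
      rw [← sum_filter, sum_const, nsmul_eq_mul]
      have h4 : ((univ.filter fun S' : {S : Finset (Fin n) // S.card = k} =>
          (S.1 ∩ S'.1).card = s).card : ℝ) ≤ (k.choose s : ℝ) * ((n - k).choose (k - s)) := by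
        have h5 : (univ.filter fun S' : {S : Finset (Fin n) // S.card = k} =>
          (S.1 ∩ S'.1).card = s).card ≤ k.choose s * (n - k).choose (k - s) := by
          refine le_trans ?_ (card_inter_le S.1 S.2)
          refine card_le_card_of_injOn (fun S' => S'.1) ?_ ?_
          · intro S' hS'
            rw [coe_filter, Set.mem_ofPred_eq] at hS'
            rw [coe_filter, Set.mem_ofPred_eq, mem_powersetCard]
            exact ⟨⟨subset_univ _, S'.2⟩, hS'.2⟩
          · intro A _ B _ hAB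
            exact Subtype.ext hAB
        exact_mod_cast h5
      calc _ ≤ ((k.choose s : ℝ) * ((n - k).choose (k - s))) *
            ((1 / 2 : ℝ) ^ (k.choose 2) * (1 / 2 : ℝ) ^ (k.choose 2 - s.choose 2)) :=
            mul_le_mul_of_nonneg_right h4 (by positivity)
        _ = _ := by ring
    refine (sum_le_sum h3).trans ?_
    rw [← mul_sum]
    exact mul_le_mul_of_nonneg_left h2 (by positivity)
  have hsecond : ∑ q ∈ Pr, pv ∅ ∅ (Ed q.1.1 ∪ Ed q.2.1) ≤
      ((n.choose k : ℝ) * (1 / 2 : ℝ) ^ (k.choose 2)) * (1 / 2) := by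
    have h3 : ∑ q ∈ Pr, pv ∅ ∅ (Ed q.1.1 ∪ Ed q.2.1) =
        ∑ S : {S : Finset (Fin n) // S.card = k}, ∑ S' : {S : Finset (Fin n) // S.card = k},
          (if (S, S') ∈ Pr then pv ∅ ∅ (Ed S.1 ∪ Ed S'.1) else 0) := by
      rw [← Fintype.sum_prod_type', sum_ite_mem, univ_inter]
    rw [h3]
    refine (sum_le_sum fun S _ => hinner S).trans ?_
    rw [sum_const, card_univ, hcX, nsmul_eq_mul]
    exact le_of_eq (by ring)
  have hE : (Fintype.card (Sym2 (Fin n)) : ℝ) ≤ (n : ℝ) ^ 2 := by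
    rw [Sym2.card, Fintype.card_fin]
    have h3 : (n + 1).choose 2 ≤ n ^ 2 := by
      rw [Nat.choose_two_right, Nat.add_sub_cancel]
      have : (n + 1) * n ≤ n ^ 2 * 2 := by nlinarith
      omega
    exact_mod_cast h3
  have hn2 : (1 : ℝ) ≤ (n : ℝ) ^ 2 := by
    have : (1 : ℝ) ≤ n := by exact_mod_cast hn
    nlinarith
  unfold Lf
  rw [hfirst]
  linarith

end ItemM3

open ItemM3 in
theorem makerClique (m2 : MakerAbs) : MakerClique := by
  classical
  intro n k hn _ h1 h2
  let X := {S : Finset (Fin n) // S.card = k}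
  let Pr : Finset (X × X) := univ.filter fun q => q.1 ≠ q.2 ∧ 2 ≤ (Ed q.1.1 ∩ Ed q.2.1).card
  have hPr : ∀ q : X × X, q ∈ Pr ↔ q.1 ≠ q.2 ∧ 2 ≤ (Ed q.1.1 ∩ Ed q.2.1).card := fun q => by
    simp [Pr]
  have hne : Nonempty (Sym2 (Fin n)) := ⟨s(⟨0, by omega⟩, ⟨0, by omega⟩)⟩
  obtain ⟨σ, hσ⟩ := m2 (Sym2 (Fin n)) X (fun S => Ed S.1) Pr
    (fun S S' hS h => (hPr (S, S')).2 ⟨hS, h⟩) (lf_bound n k hn h1 h2 Pr hPr)
  refine ⟨fun t v => (σ t (fun s => s((v s).1, (v s).2))).out, fun b => ?_⟩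
  obtain ⟨S, hS⟩ := hσ (fun s => s((b s).1, (b s).2))
  refine ⟨S.1.orderEmbOfFin S.2, (S.1.orderEmbOfFin S.2).injective, fun i j hij => ?_⟩
  have hmem : s((S.1.orderEmbOfFin S.2 i), (S.1.orderEmbOfFin S.2 j)) ∈ Ed S.1 := by
    rw [mem_Ed]
    exact ⟨orderEmbOfFin_mem _ _ _, orderEmbOfFin_mem _ _ _,
      fun h => hij ((S.1.orderEmbOfFin S.2).injective h)⟩
  obtain ⟨t, ht, hlt⟩ := hS _ hmem
  refine ⟨t, ?_, ?_⟩
  · have h3 := out_mk (σ t (fun s : Fin t => s((b s.val).1, (b s.val).2)))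
    rw [ht] at h3
    dsimp only
    rw [ht]
    rw [Sym2.eq_iff] at h3
    rcases h3 with h3 | h3
    · exact Or.inl (Prod.ext h3.1 h3.2)
    · exact Or.inr (Prod.ext h3.1 h3.2)
  · intro s hs
    have h3 := hlt s hs
    constructor
    · intro h4
      apply h3
      rw [h4]
    · intro h4
      apply h3
      rw [h4]
      exact Sym2.eq_swap

end Pool.Agent.Work.MP_947296_co

end

section

set_option autoImplicit false

/-! MP_947296_co, item N0: easy facts about the parameters. -/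

namespace Pool.Agent.Work.MP_947296_co

open Finset Play

namespace ItemN0

theorem sq_le_two_pow {u : ℕ} (hu : 30 ≤ u) : u ^ 2 ≤ 2 ^ u := by
  induction u, hu using Nat.le_induction with
  | base => norm_num
  | succ u hu ih =>
    rw [pow_succ 2 u]
    nlinarith

theorem main {u : ℕ} (hu : 30 ≤ u) :
    30 ≤ u ∧ pw u + 6 + 10 * u + 2 ≤ pk u ∧ pb u + 1 < (pk u).choose 2 ∧ pk u ≤ pn u ∧
    1 ≤ pt u ∧ pw u * pt u ≤ pk u ∧ pt u * pk u ^ 2 ≤ 2 ^ pw u ∧ 2 * pb u ≤ px u * pt u ∧
    20 * 2 ^ u ≤ pk u ∧ pk u ≤ 40 * 2 ^ u := by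
  have hU : u ^ 2 ≤ 2 ^ u := sq_le_two_pow hu
  obtain ⟨U, hUd⟩ : ∃ U, U = 2 ^ u := ⟨_, rfl⟩
  have hu2 : 30 * u ≤ u ^ 2 := by nlinarith
  have hk : pk u + 2 * u + 9 = 40 * U := by
    unfold pk
    omega
  have hw : pw u = 3 * u + 18 := rfl
  have hkU : 39 * U ≤ pk u := by omega
  have hk64 : pk u ≤ 2 ^ (u + 6) := by
    rw [pow_add, ← hUd]
    omega
  have hpw : pw u ≤ pk u := by omega
  have ht1 : 1 ≤ pt u := (Nat.one_le_div_iff (by omega)).2 hpw
  have ht2 : pw u * pt u ≤ pk u := Nat.mul_div_le _ _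
  have ht3 : pk u < pw u * pt u + pw u := by
    have h1 := Nat.div_add_mod (pk u) (pw u)
    have h2 := Nat.mod_lt (pk u) (show 0 < pw u by omega)
    unfold pt
    omega
  refine ⟨hu, by omega, ?_, ?_, ht1, ht2, ?_, ?_, by omega, by omega⟩
  · have h1 : (pk u).choose 2 * 2 = pk u * (pk u - 1) := by
      rw [Nat.choose_two_right]
      exact Nat.div_mul_cancel (Nat.even_mul_pred_self _).two_dvd
    have h2 : 38 * U ≤ pk u - 1 := by omega
    have h3 : (39 * U) * (38 * U) ≤ pk u * (pk u - 1) := Nat.mul_le_mul hkU h2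
    have h4 : pb u = 400 * u * U := by unfold pb; rw [hUd]
    rw [h4]
    have h5 : 400 * u * U ≤ 14 * U * U := Nat.mul_le_mul_right U (by omega)
    nlinarith
  · refine hk64.trans ?_
    unfold pn
    exact Nat.pow_le_pow_right (by norm_num) (by omega)
  · have h1 : pt u ≤ pk u := by
      have : 1 * pt u ≤ pw u * pt u := Nat.mul_le_mul_right _ (by omega)
      omega
    have h2 : 2 ^ pw u = 2 ^ (u + 6) * (2 ^ (u + 6)) ^ 2 := by
      rw [hw, ← pow_mul, ← pow_add]
      congr 1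
      ring
    rw [h2]
    exact Nat.mul_le_mul (h1.trans hk64) (Nat.pow_le_pow_left hk64 2)
  · have h1 : 10 * U ≤ pw u * pt u := by omega
    have h4 : pb u = 400 * u * U := by unfold pb; rw [hUd]
    rw [h4]
    unfold px
    calc 2 * (400 * u * U) = 80 * u * (10 * U) := by ring
      _ ≤ 80 * u * (pw u * pt u) := Nat.mul_le_mul_left _ h1
      _ = _ := by ring

end ItemN0

theorem numBasic : NumBasic := by
  unfold NumBasic
  filter_upwards [Filter.eventually_ge_atTop 30] with u hu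
  exact ItemN0.main hu

end Pool.Agent.Work.MP_947296_co

end

section

set_option autoImplicit false

namespace Pool.Agent.Work.MP_947296_co

open Finset

namespace NA

theorem pow_bound (u : ℕ) (hu : 3 ≤ u) :
    (3 * u + 22) * (20 * 2 ^ u) + 7 ≤ 2 ^ (20 * 2 ^ u - 3 * u - 38) := by
  have h1 : u + 1 ≤ 2 ^ u := Nat.lt_two_pow_self
  have h8 : 8 ≤ 2 ^ u := by
    calc 8 = 2 ^ 3 := by norm_num
      _ ≤ 2 ^ u := Nat.pow_le_pow_right (by norm_num) hu
  set U := 2 ^ u with hU
  have h2 : 10 * U ≤ 20 * U - 3 * u - 38 := by omega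
  have h3 : 2 ^ (10 * U) ≤ 2 ^ (20 * U - 3 * u - 38) := Nat.pow_le_pow_right (by norm_num) h2
  refine le_trans ?_ h3
  have h4 : U ≤ 2 ^ U := Nat.lt_two_pow_self.le
  have h5 : U ^ 10 ≤ 2 ^ (10 * U) := by
    rw [mul_comm, pow_mul]
    exact Nat.pow_le_pow_left h4 10
  refine le_trans ?_ h5
  have h6 : 8 ^ 8 * U ^ 2 ≤ U ^ 10 := by
    calc 8 ^ 8 * U ^ 2 ≤ U ^ 8 * U ^ 2 := Nat.mul_le_mul_right _ (Nat.pow_le_pow_left h8 8)
      _ = U ^ 10 := by ring
  refine le_trans ?_ h6
  nlinarith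

theorem kappa (x : ℝ) (hx : 0 ≤ x) :
    x / 128 + x / 32896 ≤ Real.log (1 + 1 / 128) * ((1 + 1 / 128) * x) := by
  have h1 : 2 * (1 / 128 : ℝ) / ((1 / 128 : ℝ) + 2) ≤ Real.log (1 + 1 / 128) :=
    Real.le_log_one_add_of_nonneg (by norm_num)
  have h2 : (2 * (1 / 128 : ℝ) / ((1 / 128 : ℝ) + 2)) * ((1 + 1 / 128) * x)
      ≤ Real.log (1 + 1 / 128) * ((1 + 1 / 128) * x) := by
    apply mul_le_mul_of_nonneg_right h1
    positivity
  refine le_trans (le_of_eq ?_) h2
  ring

end NA

theorem numA : NumA := by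
  unfold NumA
  filter_upwards [Filter.eventually_ge_atTop 3] with u hu r hr
  have hr' : r ≤ 3 * u + 22 := by unfold pw at hr; omega
  set U := 2 ^ u with hU
  have hU1 : u + 1 ≤ U := Nat.lt_two_pow_self
  have hb := NA.pow_bound u hu
  rw [← hU] at hb
  set x : ℝ := (pn u : ℝ) * (1 / 2 : ℝ) ^ r with hx
  have hx0 : 0 ≤ x := by positivity
  have hcap : pcap u r = (1 + 1 / 128) * x := by
    rw [pcap, hx]; ring
  have hU8 : 8 ≤ U := by
    calc 8 = 2 ^ 3 := by norm_num
      _ ≤ 2 ^ u := Nat.pow_le_pow_right (by norm_num) hu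
  have hxl : (20 * r * U + 7 : ℝ) ≤ x / 32896 := by
    have h1 : ((3 * u + 22) * (20 * U) + 7 : ℝ) ≤ 2 ^ (20 * U - 3 * u - 38) := by
      exact_mod_cast hb
    have h2 : (2 : ℝ) ^ (20 * U - 3 * u - 38) * 2 ^ 16 ≤ x := by
      have h3 : (2 : ℝ) ^ (20 * U - 3 * u - 38) * 2 ^ 16 = 2 ^ (20 * U - (3 * u + 22)) := by
        rw [← pow_add]
        congr 1
        omega
      rw [h3, hx, pn, ← hU]
      have h4 : (2 : ℝ) ^ (20 * U) = 2 ^ (20 * U - (3 * u + 22)) * 2 ^ (3 * u + 22) := by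
        rw [← pow_add]
        congr 1
        omega
      push_cast
      rw [h4, mul_assoc]
      have h5 : (1 : ℝ) ≤ 2 ^ (3 * u + 22) * (1 / 2) ^ r := by
        calc (1 : ℝ) = 2 ^ (3 * u + 22) * (1 / 2) ^ (3 * u + 22) := by
              rw [← mul_pow]; norm_num
          _ ≤ 2 ^ (3 * u + 22) * (1 / 2) ^ r := by
              apply mul_le_mul_of_nonneg_left _ (by positivity)
              exact pow_le_pow_of_le_one (by norm_num) (by norm_num) hr'
      exact le_mul_of_one_le_right (by positivity) h5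
    have h6 : (20 * r * U + 7 : ℝ) ≤ (3 * u + 22) * (20 * U) + 7 := by
      have : (r : ℝ) ≤ 3 * u + 22 := by exact_mod_cast hr'
      nlinarith [(by positivity : (0 : ℝ) ≤ (U : ℝ))]
    have h7 : (0 : ℝ) ≤ 2 ^ (20 * U - 3 * u - 38) := by positivity
    rw [le_div_iff₀ (by norm_num)]
    calc (20 * r * U + 7 : ℝ) * 32896 ≤ 2 ^ (20 * U - 3 * u - 38) * 32896 := by
          apply mul_le_mul_of_nonneg_right (h6.trans h1) (by norm_num)
      _ ≤ 2 ^ (20 * U - 3 * u - 38) * 2 ^ 16 := by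
          apply mul_le_mul_of_nonneg_left _ h7
          norm_num
      _ ≤ x := h2
  have hlog2 : Real.log 2 ≤ 1 := by
    have := Real.log_two_lt_d9; linarith
  have hlog2' : 0 ≤ Real.log 2 := Real.log_nonneg (by norm_num)
  have hchoose : ((pn u).choose r : ℝ) ≤ Real.exp (20 * r * U) := by
    calc ((pn u).choose r : ℝ) ≤ ((pn u) ^ r : ℕ) := by
          exact_mod_cast Nat.choose_le_pow (pn u) r
      _ = Real.exp ((20 * U * r : ℕ) * Real.log 2) := by
          rw [pn, ← hU, ← pow_mul]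
          rw [Real.exp_nat_mul, Real.exp_log (by norm_num)]
          push_cast
          rfl
      _ ≤ Real.exp (20 * r * U) := by
          apply Real.exp_le_exp.mpr
          push_cast
          nlinarith [(by positivity : (0 : ℝ) ≤ 20 * (U : ℝ) * r)]
  have h2e : (2 : ℝ) ≤ Real.exp 1 := by
    have := Real.exp_one_gt_d9; linarith
  have h64 : Real.exp (-6) ≤ 1 / 64 := by
    have h1 : (2 : ℝ) ^ 6 ≤ Real.exp 1 ^ 6 := by gcongr
    rw [← Real.exp_nat_mul] at h1
    have h2 : (64 : ℝ) ≤ Real.exp 6 := by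
      norm_num at h1 ⊢
      exact h1
    rw [Real.exp_neg, ← one_div]
    exact one_div_le_one_div_of_le (by norm_num) h2
  have hpow : (1 + 1 / 128 : ℝ) ^ (pcap u r)
      = Real.exp (Real.log (1 + 1 / 128) * ((1 + 1 / 128) * x)) := by
    rw [Real.rpow_def_of_pos (by norm_num), hcap]
  rw [hpow]
  have hexpx : Real.exp (1 / 128 * pn u * (1 / 2 : ℝ) ^ r) = Real.exp (x / 128) := by
    congr 1
    rw [hx]; ring
  rw [hexpx]
  calc ((pn u).choose r : ℝ) * (2 * Real.exp (x / 128))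
      ≤ Real.exp (20 * r * U) * (Real.exp 1 * Real.exp (x / 128)) := by
        gcongr
    _ = Real.exp (20 * r * U + 1 + x / 128) := by
        rw [← Real.exp_add, ← Real.exp_add]
        congr 1; ring
    _ ≤ Real.exp (-6 + (x / 128 + x / 32896)) := by
        apply Real.exp_le_exp.mpr
        linarith
    _ = Real.exp (-6) * Real.exp (x / 128 + x / 32896) := Real.exp_add _ _
    _ ≤ 1 / 64 * Real.exp (Real.log (1 + 1 / 128) * ((1 + 1 / 128) * x)) := by
        apply mul_le_mul h64 _ (Real.exp_pos _).le (by norm_num)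
        exact Real.exp_le_exp.mpr (NA.kappa x hx0)

end Pool.Agent.Work.MP_947296_co

end

section

set_option autoImplicit false

/-! MP_947296_co, item NB2. -/

namespace Pool.Agent.Work.MP_947296_co

open Finset Play

namespace ItemNB2

theorem nat {u : ℕ} (hu : 25 ≤ u) :
    (100 * pk u) ^ 2 * ((pk u).choose 2) ≤ (50 * pk u * 2 ^ u) * 2 ^ (3 * u) := by
  have hk : pk u ≤ 40 * 2 ^ u := by unfold pk; omega
  have h1 : (pk u).choose 2 * 2 ≤ pk u * pk u := by
    have : (pk u).choose 2 * 2 = pk u * (pk u - 1) := by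
      rw [Nat.choose_two_right]
      exact Nat.div_mul_cancel (Nat.even_mul_pred_self _).two_dvd
    rw [this]
    exact Nat.mul_le_mul_left _ (Nat.sub_le _ _)
  have h2 : 2 ^ 25 ≤ 2 ^ u := Nat.pow_le_pow_right (by norm_num) hu
  obtain ⟨U, hU⟩ : ∃ U, U = 2 ^ u := ⟨_, rfl⟩
  have h3 : 2 ^ (3 * u) = U ^ 3 := by rw [hU, ← pow_mul, mul_comm]
  rw [h3, ← hU]
  rw [← hU] at hk h2
  generalize pk u = k at *
  have h4 : k ^ 3 ≤ (40 * U) ^ 3 := Nat.pow_le_pow_left hk 3
  have h5 : 100 * (40 * U) ^ 3 ≤ U ^ 4 := by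
    calc 100 * (40 * U) ^ 3 = 6400000 * U ^ 3 := by ring
      _ ≤ U * U ^ 3 := Nat.mul_le_mul_right _ (by omega)
      _ = U ^ 4 := by ring
  have h6 : 100 * k ^ 3 ≤ U ^ 4 := (Nat.mul_le_mul_left 100 h4).trans h5
  have h7 : 2 * ((100 * k) ^ 2 * k.choose 2) ≤ 2 * ((50 * k * U) * U ^ 3) := by
    calc 2 * ((100 * k) ^ 2 * k.choose 2) = (100 * k) ^ 2 * (k.choose 2 * 2) := by ring
      _ ≤ (100 * k) ^ 2 * (k * k) := Nat.mul_le_mul_left _ h1
      _ = 100 * k * (100 * k ^ 3) := by ring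
      _ ≤ 100 * k * U ^ 4 := Nat.mul_le_mul_left _ h6
      _ = _ := by ring
  omega

end ItemNB2

theorem numB2 : NumB2 := by
  unfold NumB2
  filter_upwards [Filter.eventually_ge_atTop 25] with u hu
  exact_mod_cast ItemNB2.nat hu

end Pool.Agent.Work.MP_947296_co

end

section

set_option autoImplicit false

/-! MP_947296_co, item NC1: the static bound (helper90). -/

namespace Pool.Agent.Work.MP_947296_co

open Finset Play

namespace ItemNC1

theorem pk_pos (u : ℕ) : 0 < pk u := by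
  have h : u < 2 ^ u := Nat.lt_two_pow_self
  unfold pk
  omega

theorem pn_pos (u : ℕ) : 0 < pn u := by
  unfold pn
  positivity

/-- The total exponent. -/
def Ex (u : ℕ) : ℕ :=
  (2 * u + 9) + (80 * u * (3 * u + 18) + 1) + 2 +
    (u + 6) * ((3 * u + 22) + 2 * (80 * u * (3 * u + 18))) + (2 * (3 * u + 22) + 2 * (u + 6) + 1)

theorem Ex_le (v : ℕ) : Ex (v + 30) ≤ 2 ^ (v + 29) := by
  induction v with
  | zero =>
    unfold Ex
    norm_num
  | succ v ih =>
    have h : Ex (v + 1 + 30) ≤ 2 * Ex (v + 30) := by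
      unfold Ex
      nlinarith [Nat.zero_le (v ^ 3), Nat.zero_le (v ^ 2), Nat.zero_le v]
    calc Ex (v + 1 + 30) ≤ 2 * Ex (v + 30) := h
      _ ≤ 2 * 2 ^ (v + 29) := Nat.mul_le_mul_left _ ih
      _ = 2 ^ (v + 1 + 29) := by rw [← pow_succ', show v + 29 + 1 = v + 1 + 29 by ring]

theorem pow_80 : (129 / 128 : ℝ) ^ 80 ≤ 2 := by norm_num

theorem stat_eq (u r : ℕ) :
    stat (pn u) (pk u) (pb u) (px u) r (pcap u r) =
      (((pb u : ℝ) + 1) * ((px u : ℝ) + 1) * 3 * (pk u : ℝ) ^ (r + 2 * px u) *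
        (129 / 128 : ℝ) ^ (pk u - r) * (1 + 128 / 129 * (r * (pk u : ℝ) ^ 2 * 2 ^ r))) *
          Cc u r := by
  have h1 : (0 : ℝ) < pk u := by exact_mod_cast pk_pos u
  have h2 : (0 : ℝ) < pn u := by exact_mod_cast pn_pos u
  have h3 : (pcap u r) / (pk u : ℝ) = (129 / 128 : ℝ) * ((pn u : ℝ) * (1 / 2 : ℝ) ^ r / pk u) := by
    unfold pcap
    ring
  have h4 : (r : ℝ) * pn u * (pk u : ℝ) ^ 2 / pcap u r =
      128 / 129 * (r * (pk u : ℝ) ^ 2 * 2 ^ r) := by
    have h5 : (1 / 2 : ℝ) ^ r = (2 ^ r)⁻¹ := by rw [one_div, inv_pow]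
    unfold pcap
    rw [h5]
    field_simp
    ring
  unfold stat Cc
  rw [h3, h4, mul_pow]
  ring

end ItemNC1

open ItemNC1 in
theorem numC1 : NumC1 := by
  refine Filter.eventually_atTop.2 ⟨30, fun u hu r hr => ?_⟩
  have hkpos : (0 : ℝ) < pk u := by exact_mod_cast pk_pos u
  have hnpos : (0 : ℝ) < pn u := by exact_mod_cast pn_pos u
  have hC : 0 ≤ Cc u r := by
    unfold Cc
    positivity
  have hU : u + 1 ≤ 2 ^ u := Nat.lt_two_pow_self
  have hr2 : r ≤ 3 * u + 22 := by unfold pw at hr; omega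
  have hk40 : pk u ≤ 40 * 2 ^ u := by unfold pk; omega
  have hk6 : pk u ≤ 2 ^ (u + 6) := by
    refine hk40.trans ?_
    rw [pow_add]
    omega
  have f1 : (pb u : ℝ) + 1 ≤ 2 ^ (2 * u + 9) := by
    have h : pb u + 1 ≤ 2 ^ (2 * u + 9) := by
      unfold pb
      rw [pow_add, two_mul, pow_add]
      generalize 2 ^ u = U at *
      nlinarith
    exact_mod_cast h
  have f2 : (px u : ℝ) + 1 ≤ 2 ^ (px u + 1) := by
    have h : px u + 1 ≤ 2 ^ (px u + 1) := Nat.lt_two_pow_self.le
    exact_mod_cast h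
  have f3 : (3 : ℝ) ≤ 2 ^ 2 := by norm_num
  have f4 : (pk u : ℝ) ^ (r + 2 * px u) ≤ 2 ^ ((u + 6) * (r + 2 * px u)) := by
    rw [pow_mul]
    exact pow_le_pow_left₀ hkpos.le (by exact_mod_cast hk6) _
  have f5 : (129 / 128 : ℝ) ^ (pk u - r) ≤ 2 ^ (2 ^ (u - 1)) := by
    have h : pk u - r ≤ 80 * 2 ^ (u - 1) := by
      have h2 : 2 ^ u = 2 * 2 ^ (u - 1) := by
        rw [← pow_succ', Nat.sub_add_cancel (by omega)]
      omega
    calc (129 / 128 : ℝ) ^ (pk u - r) ≤ (129 / 128 : ℝ) ^ (80 * 2 ^ (u - 1)) :=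
          pow_le_pow_right₀ (by norm_num) h
      _ = ((129 / 128 : ℝ) ^ 80) ^ (2 ^ (u - 1)) := by rw [pow_mul]
      _ ≤ 2 ^ (2 ^ (u - 1)) := pow_le_pow_left₀ (by positivity) pow_80 _
  have f6 : 1 + 128 / 129 * ((r : ℝ) * (pk u : ℝ) ^ 2 * 2 ^ r) ≤
      2 ^ (2 * r + 2 * (u + 6) + 1) := by
    have h1 : (r : ℝ) ≤ 2 ^ r := by exact_mod_cast Nat.lt_two_pow_self.le
    have h2 : (pk u : ℝ) ≤ 2 ^ (u + 6) := by exact_mod_cast hk6
    have h3 : (r : ℝ) * (pk u : ℝ) ^ 2 * 2 ^ r ≤ 2 ^ r * (2 ^ (u + 6)) ^ 2 * 2 ^ r := by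
      gcongr
    have h4 : (2 : ℝ) ^ r * (2 ^ (u + 6)) ^ 2 * 2 ^ r = 2 ^ (2 * r + 2 * (u + 6)) := by
      rw [← pow_mul, ← pow_add, ← pow_add]
      congr 1
      ring
    have h5 : (1 : ℝ) ≤ 2 ^ (2 * r + 2 * (u + 6)) := one_le_pow₀ (by norm_num)
    have h6 : (0 : ℝ) ≤ (r : ℝ) * (pk u : ℝ) ^ 2 * 2 ^ r := by positivity
    rw [h4] at h3
    rw [pow_succ (2 : ℝ) (2 * r + 2 * (u + 6))]
    linarith
  rw [stat_eq]
  refine mul_le_mul_of_nonneg_right ?_ hC
  calc ((pb u : ℝ) + 1) * ((px u : ℝ) + 1) * 3 * (pk u : ℝ) ^ (r + 2 * px u) *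
        (129 / 128 : ℝ) ^ (pk u - r) * (1 + 128 / 129 * (r * (pk u : ℝ) ^ 2 * 2 ^ r)) ≤
      2 ^ (2 * u + 9) * 2 ^ (px u + 1) * 2 ^ 2 * 2 ^ ((u + 6) * (r + 2 * px u)) *
        2 ^ (2 ^ (u - 1)) * 2 ^ (2 * r + 2 * (u + 6) + 1) := by gcongr
    _ = 2 ^ ((2 * u + 9) + (px u + 1) + 2 + (u + 6) * (r + 2 * px u) + 2 ^ (u - 1) +
          (2 * r + 2 * (u + 6) + 1)) := by
        rw [← pow_add, ← pow_add, ← pow_add, ← pow_add, ← pow_add]
    _ ≤ 2 ^ (2 ^ u) := by
        refine pow_le_pow_right₀ (by norm_num) ?_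
        have hE : Ex u ≤ 2 ^ (u - 1) := by
          have h := Ex_le (u - 30)
          rwa [show u - 30 + 30 = u by omega, show u - 30 + 29 = u - 1 by omega] at h
        have h2 : 2 ^ u = 2 * 2 ^ (u - 1) := by
          rw [← pow_succ', Nat.sub_add_cancel (by omega)]
        have h3 : (2 * u + 9) + (px u + 1) + 2 + (u + 6) * (r + 2 * px u) +
            (2 * r + 2 * (u + 6) + 1) ≤ Ex u := by
          unfold Ex px pw
          have h4 : (u + 6) * (r + 2 * (80 * u * (3 * u + 18))) ≤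
              (u + 6) * ((3 * u + 22) + 2 * (80 * u * (3 * u + 18))) :=
            Nat.mul_le_mul_left _ (by omega)
          omega
        omega

end Pool.Agent.Work.MP_947296_co

end

section

set_option autoImplicit false

/-! MP_947296_co, item NC2: the number of role maps and root histories (helper90). -/

namespace Pool.Agent.Work.MP_947296_co

open Finset Play

namespace ItemNC2

theorem pk_pos (u : ℕ) : 0 < pk u := by
  have h : u < 2 ^ u := Nat.lt_two_pow_self
  unfold pk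
  omega

theorem pn_pos (u : ℕ) : 0 < pn u := by
  unfold pn
  positivity

theorem Cc_pos (u r : ℕ) : 0 < Cc u r := by
  have h1 : (0 : ℝ) < pk u := by exact_mod_cast pk_pos u
  have h2 : (0 : ℝ) < pn u := by exact_mod_cast pn_pos u
  unfold Cc
  positivity

theorem factor_eq (u r l : ℕ) (hl : 3 ≤ l) :
    (2 * (2 * 2 ^ ((l - 3) * 2 ^ u * pp u) * (2 ^ (2 ^ u) * Cc u r) ^ pp u) /
        thrC u r l ^ pp u : ℝ) = 4 / 2 ^ (2 * 2 ^ u * pp u) := by
  have hC := Cc_pos u r
  have hp : (2 : ℝ) ^ (l * 2 ^ u * pp u) = 2 ^ ((l - 3) * 2 ^ u * pp u) * 2 ^ (2 ^ u * pp u) *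
      2 ^ (2 * 2 ^ u * pp u) := by
    rw [← pow_add, ← pow_add]
    congr 1
    obtain ⟨m, rfl⟩ := Nat.exists_eq_add_of_le hl
    rw [Nat.add_sub_cancel_left]
    ring
  unfold thrC
  rw [mul_pow, mul_pow, ← pow_mul, ← pow_mul, div_eq_div_iff (by positivity) (by positivity), hp]
  ring

theorem nat_bound (u r : ℕ) (hu : 10 ≤ u) (hr : r ≤ 3 * u + 22) (X : ℕ)
    (hX : X ≤ pn u ^ 3) :
    (pn u).choose r * (pk u ^ pn u * X ^ (r * pn u)) * 256 ≤ 2 ^ (2 * 2 ^ u * pp u) := by
  have hU : u + 1 ≤ 2 ^ u := Nat.lt_two_pow_self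
  have hU2 : 1024 ≤ 2 ^ u := by
    calc 1024 = 2 ^ 10 := by norm_num
      _ ≤ 2 ^ u := Nat.pow_le_pow_right (by norm_num) hu
  have hn1 : 1 ≤ pn u := pn_pos u
  have h1 : (pn u).choose r ≤ 2 ^ (20 * 2 ^ u * r) := by
    refine (Nat.choose_le_pow _ _).trans ?_
    unfold pn
    rw [← pow_mul]
  have h2 : pk u ≤ 2 ^ (u + 6) := by
    have : pk u ≤ 40 * 2 ^ u := by unfold pk; omega
    refine this.trans ?_
    rw [pow_add]
    omega
  have h3 : pk u ^ pn u ≤ 2 ^ ((u + 6) * pn u) := by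
    rw [pow_mul]
    exact Nat.pow_le_pow_left h2 _
  have h4 : X ^ (r * pn u) ≤ 2 ^ (60 * 2 ^ u * (r * pn u)) := by
    refine (Nat.pow_le_pow_left hX _).trans ?_
    have : pn u ^ 3 = 2 ^ (60 * 2 ^ u) := by
      unfold pn
      rw [← pow_mul]
      congr 1
      ring
    rw [this, ← pow_mul]
  have h5 : (pn u).choose r * (pk u ^ pn u * X ^ (r * pn u)) * 256 ≤
      2 ^ (20 * 2 ^ u * r) * (2 ^ ((u + 6) * pn u) * 2 ^ (60 * 2 ^ u * (r * pn u))) * 2 ^ 8 :=
    Nat.mul_le_mul (Nat.mul_le_mul h1 (Nat.mul_le_mul h3 h4)) (by norm_num)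
  refine h5.trans ?_
  rw [← pow_add, ← pow_add, ← pow_add]
  refine Nat.pow_le_pow_right (by norm_num) ?_
  have hpp : pp u = pn u * (2 ^ u * 2 ^ u) := by
    unfold pp
    rw [← pow_add, ← two_mul, pow_mul]
    norm_num
  rw [hpp]
  generalize pn u = n at *
  generalize 2 ^ u = U at *
  have h6 : 20 * U * r ≤ 20 * U * r * n := Nat.le_mul_of_pos_right _ hn1
  have h7 : 8 ≤ 8 * n := Nat.le_mul_of_pos_right _ hn1
  have h8 : 20 * U * r + (u + 6) + 60 * U * r + 8 ≤ 2 * U * (U * U) := by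
    have e1 : U * r ≤ U * (3 * u + 22) := Nat.mul_le_mul_left _ hr
    have e2 : 1024 * U ≤ U * U := Nat.mul_le_mul_right _ hU2
    have e3 : U * (1024 * U) ≤ U * (U * U) := Nat.mul_le_mul_left _ e2
    have e4 : U * (u + 1) ≤ U * U := Nat.mul_le_mul_left _ hU
    nlinarith
  calc 20 * U * r + ((u + 6) * n + 60 * U * (r * n)) + 8 ≤
      20 * U * r * n + ((u + 6) * n + 60 * U * (r * n)) + 8 * n := by omega
    _ = (20 * U * r + (u + 6) + 60 * U * r + 8) * n := by ring
    _ ≤ (2 * U * (U * U)) * n := Nat.mul_le_mul_right _ h8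
    _ = 2 * U * (n * (U * U)) := by ring

end ItemNC2

open ItemNC2 in
theorem numC2 : NumC2 := by
  refine Filter.eventually_atTop.2 ⟨10, fun u hu r hr l hl => ?_⟩
  have hn20 : 2 ^ 20 ≤ pn u := by
    unfold pn
    exact Nat.pow_le_pow_right (by norm_num) (by
      have : 1 ≤ 2 ^ u := Nat.one_le_two_pow
      omega)
  have hX : 2 * (Fintype.card (Sym2 (Fin (pn u))) + 1) + 1 ≤ pn u ^ 3 := by
    rw [Sym2.card, Fintype.card_fin, Nat.choose_two_right, Nat.add_sub_cancel]
    generalize pn u = n at *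
    have h1 : (n + 1) * n / 2 * 2 ≤ (n + 1) * n := Nat.div_mul_le_self _ _
    have h2 : (n + 1) * n + 3 ≤ n ^ 3 := by
      have h3 : 4 ≤ n := le_trans (by norm_num) hn20
      nlinarith [Nat.mul_le_mul h3 h3]
    omega
  have hb := nat_bound u r hu (by unfold pw at hr; omega) _ hX
  have hb' : ((pn u).choose r : ℝ) * ((pk u : ℝ) ^ pn u *
      (2 * (Fintype.card (Sym2 (Fin (pn u))) + 1) + 1 : ℝ) ^ (r * pn u)) * 256 ≤
      2 ^ (2 * 2 ^ u * pp u) := by exact_mod_cast hb
  rw [factor_eq u r l hl, ← mul_div_assoc, div_le_iff₀ (by positivity)]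
  linarith

end Pool.Agent.Work.MP_947296_co

end

section

set_option autoImplicit false

/-! MP_947296_co, item NC3: the steps of the chain C. -/

namespace Pool.Agent.Work.MP_947296_co

open Finset

namespace NC3

theorem choose_add_two (a : ℕ) : (a + 2).choose 2 = a.choose 2 + 2 * a + 1 := by
  have h1 : (a + 2).choose 2 = (a + 1).choose 1 + (a + 1).choose 2 := Nat.choose_succ_succ' _ _
  have h2 : (a + 1).choose 2 = a.choose 1 + a.choose 2 := Nat.choose_succ_succ' _ _
  rw [h1, h2, Nat.choose_one_right, Nat.choose_one_right]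
  omega

/-- two consecutive static sizes -/
theorem Cc_ratio (u r : ℕ) (h : r + 2 ≤ pk u) :
    ((pn u : ℝ) * (1 / 2 : ℝ) ^ r / pk u) ^ 2 * Cc u (r + 2) = 2 * Cc u r := by
  obtain ⟨K, hK⟩ : ∃ K, pk u = K + (r + 2) := ⟨pk u - (r + 2), by omega⟩
  have h1 : pk u - (r + 2) = K := by omega
  have h2 : pk u - r = K + 2 := by omega
  unfold Cc
  rw [h1, h2, choose_add_two]
  generalize (pk u : ℝ) = k
  generalize (pn u : ℝ) = n
  have h3 : n * (1 / 2 : ℝ) ^ (r + 2) / k = (n * (1 / 2 : ℝ) ^ r / k) * (1 / 2 : ℝ) ^ 2 := by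
    rw [pow_add]; ring
  rw [h3]
  generalize n * (1 / 2 : ℝ) ^ r / k = x
  rw [mul_pow, ← pow_mul, pow_add x K 2, pow_add, pow_add]
  ring

theorem Cc_nonneg (u r : ℕ) : 0 ≤ Cc u r := by
  unfold Cc; positivity

theorem pk_le (u : ℕ) : pk u ≤ 2 ^ (u + 6) := by
  unfold pk
  have : 2 ^ (u + 6) = 64 * 2 ^ u := by rw [pow_add]; ring
  omega

theorem lin_le (u : ℕ) (hu : 7 ≤ u) : 12 * u + 68 ≤ 2 * 2 ^ u := by
  induction u, hu using Nat.le_induction with
  | base => norm_num
  | succ u hu ih => rw [pow_succ]; omega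

theorem pk_ge (u : ℕ) (hu : 7 ≤ u) : 3 * u + 24 ≤ pk u := by
  have := lin_le u hu
  unfold pk
  omega

/-- the numerical inequality -/
theorem num (u r : ℕ) (hu : 7 ≤ u) (hr : r ≤ pw u + 4) :
    4 ^ u * pk u ^ 4 * 4 ^ r * 2 ^ (18 * 2 ^ u) ≤ 2 ^ (20 * 2 ^ u) := by
  have h1 : pk u ^ 4 ≤ (2 ^ (u + 6)) ^ 4 := Nat.pow_le_pow_left (pk_le u) 4
  have h2 : (4 : ℕ) ^ r ≤ 4 ^ (pw u + 4) := Nat.pow_le_pow_right (by norm_num) hr
  have h3 := lin_le u hu
  calc 4 ^ u * pk u ^ 4 * 4 ^ r * 2 ^ (18 * 2 ^ u)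
      ≤ 4 ^ u * (2 ^ (u + 6)) ^ 4 * 4 ^ (pw u + 4) * 2 ^ (18 * 2 ^ u) := by gcongr
    _ = 2 ^ (12 * u + 68 + 18 * 2 ^ u) := by
        unfold pw
        rw [show (4 : ℕ) = 2 ^ 2 by norm_num, ← pow_mul, ← pow_mul, ← pow_mul, ← pow_add,
          ← pow_add, ← pow_add]
        congr 1
        ring
    _ ≤ 2 ^ (20 * 2 ^ u) := Nat.pow_le_pow_right (by norm_num) (by omega)

/-- one step of the chain -/
theorem step (u r l : ℕ) (hu : 7 ≤ u) (hr : r ≤ pw u + 4) (hl : 5 ≤ l) :
    (pp u : ℝ) ^ 2 * ((pk u).choose 2) * thrC u (r + 2) (l + 18) ≤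
      (((l - 3) * 2 ^ u * pp u : ℕ) : ℝ) * thrC u r l := by
  have hk : r + 2 ≤ pk u := by
    have := pk_ge u hu
    unfold pw at hr
    omega
  have hk0 : (0 : ℝ) < pk u := by exact_mod_cast (by omega : 0 < pk u)
  have hn0 : (0 : ℝ) < pn u := by unfold pn; positivity
  have h1 := Cc_ratio u r hk
  have h2 : (4 : ℝ) ^ u * (pk u : ℝ) ^ 4 * 4 ^ r * 2 ^ (18 * 2 ^ u) ≤ pn u := by
    unfold pn
    exact_mod_cast num u r hu hr
  have h3 : 2 * ((pk u).choose 2 : ℝ) ≤ (pk u : ℝ) ^ 2 := by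
    have : 2 * (pk u).choose 2 ≤ pk u ^ 2 := by
      rw [Nat.choose_two_right]
      have := Nat.mul_div_le (pk u * (pk u - 1)) 2
      calc _ ≤ _ := this
        _ ≤ pk u * pk u := Nat.mul_le_mul_left _ (Nat.sub_le _ _)
        _ = _ := by ring
    exact_mod_cast this
  have hC := Cc_nonneg u (r + 2)
  have hl' : (2 : ℝ) ≤ ((l - 3 : ℕ) : ℝ) := by exact_mod_cast (by omega : 2 ≤ l - 3)
  have hU : (1 : ℝ) ≤ 2 ^ u := one_le_pow₀ (by norm_num)
  unfold thrC
  have e1 : ((((l - 3) * 2 ^ u * pp u : ℕ)) : ℝ) = ((l - 3 : ℕ) : ℝ) * 2 ^ u * pp u := by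
    push_cast; ring
  have e2 : (pp u : ℝ) = pn u * 4 ^ u := by unfold pp; push_cast; ring
  have e3 : (2 : ℝ) ^ ((l + 18) * 2 ^ u) = 2 ^ (l * 2 ^ u) * 2 ^ (18 * 2 ^ u) := by
    rw [← pow_add]; congr 1; ring
  have e4 : Cc u r = ((pn u : ℝ) * (1 / 2 : ℝ) ^ r / pk u) ^ 2 / 2 * Cc u (r + 2) := by
    linarith
  rw [e1, e2, e3, e4]
  -- the core inequality
  have hcore : (pn u * 4 ^ u : ℝ) * ((pk u).choose 2) * 2 ^ (18 * 2 ^ u) ≤
      ((l - 3 : ℕ) : ℝ) * 2 ^ u * (((pn u : ℝ) * (1 / 2 : ℝ) ^ r / pk u) ^ 2 / 2) := by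
    have h4 : ((pn u : ℝ) * (1 / 2 : ℝ) ^ r / pk u) ^ 2 / 2 =
        (pn u : ℝ) ^ 2 / (2 * (pk u : ℝ) ^ 2 * 4 ^ r) := by
      rw [div_pow, mul_pow, ← pow_mul, mul_comm r 2, pow_mul, one_div, inv_pow]
      rw [show ((2 : ℝ) ^ 2)⁻¹ ^ r = (4 ^ r)⁻¹ by rw [inv_pow]; norm_num]
      field_simp
    rw [h4, ← mul_div_assoc, le_div_iff₀ (by positivity)]
    calc (pn u * 4 ^ u : ℝ) * ((pk u).choose 2) * 2 ^ (18 * 2 ^ u) *
          (2 * (pk u : ℝ) ^ 2 * 4 ^ r)
        = (2 * ((pk u).choose 2 : ℝ)) * (pn u * 4 ^ u * 2 ^ (18 * 2 ^ u) *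
            ((pk u : ℝ) ^ 2 * 4 ^ r)) := by ring
      _ ≤ (pk u : ℝ) ^ 2 * (pn u * 4 ^ u * 2 ^ (18 * 2 ^ u) * ((pk u : ℝ) ^ 2 * 4 ^ r)) := by
          gcongr
      _ = pn u * (4 ^ u * (pk u : ℝ) ^ 4 * 4 ^ r * 2 ^ (18 * 2 ^ u)) := by ring
      _ ≤ pn u * pn u := by gcongr
      _ = 1 * (pn u : ℝ) ^ 2 := by ring
      _ ≤ (((l - 3 : ℕ) : ℝ) * 2 ^ u) * (pn u : ℝ) ^ 2 := by
          gcongr
          nlinarith
  calc (pn u * 4 ^ u : ℝ) ^ 2 * ((pk u).choose 2) *
        (2 ^ (l * 2 ^ u) * 2 ^ (18 * 2 ^ u) * Cc u (r + 2))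
      = ((pn u * 4 ^ u : ℝ) * ((pk u).choose 2) * 2 ^ (18 * 2 ^ u)) *
          ((pn u * 4 ^ u : ℝ) * 2 ^ (l * 2 ^ u) * Cc u (r + 2)) := by ring
    _ ≤ (((l - 3 : ℕ) : ℝ) * 2 ^ u * (((pn u : ℝ) * (1 / 2 : ℝ) ^ r / pk u) ^ 2 / 2)) *
          ((pn u * 4 ^ u : ℝ) * 2 ^ (l * 2 ^ u) * Cc u (r + 2)) := by gcongr
    _ = _ := by ring

end NC3

theorem numC3 : NumC3 := by
  unfold NumC3
  filter_upwards [Filter.eventually_ge_atTop 7] with u hu r hr l hl
  exact NC3.step u r l hu (by omega) hl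

end Pool.Agent.Work.MP_947296_co

end

section

set_option autoImplicit false

namespace Pool.Agent.Work.MP_947296_co

open Finset

namespace ItemNF

lemma pow_big (u : ℕ) (hu : 30 ≤ u) : 15 * u ^ 2 + 176 * u + 600 ≤ 2 ^ u := by
  induction u, hu using Nat.le_induction with
  | base => norm_num
  | succ u hu ih =>
    have h1 : 2 ^ (u + 1) = 2 * 2 ^ u := by ring
    have h2 : 15 * (u + 1) ^ 2 + 176 * (u + 1) + 600 ≤ 2 * (15 * u ^ 2 + 176 * u + 600) := by
      nlinarith
    omega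

/-- lower bound of the power of `k` -/
lemma kpow (k a m : ℕ) (hk : 2 ^ a ≤ k) (hk4 : 2 ^ (4 * a + 1) ≤ k ^ 4) :
    2 ^ (a * m + m / 4) ≤ k ^ m := by
  have h1 : a * m + m / 4 = (4 * a + 1) * (m / 4) + a * (m % 4) := by
    have h := Nat.div_add_mod m 4
    calc a * m + m / 4 = a * (4 * (m / 4) + m % 4) + m / 4 := by rw [h]
      _ = _ := by ring
  have h2 : m = 4 * (m / 4) + m % 4 := (Nat.div_add_mod m 4).symm
  calc 2 ^ (a * m + m / 4) = (2 ^ (4 * a + 1)) ^ (m / 4) * (2 ^ a) ^ (m % 4) := by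
        rw [h1, pow_add, pow_mul, pow_mul]
    _ ≤ (k ^ 4) ^ (m / 4) * k ^ (m % 4) :=
        Nat.mul_le_mul (Nat.pow_le_pow_left hk4 _) (Nat.pow_le_pow_left hk _)
    _ = k ^ (4 * (m / 4) + m % 4) := by rw [pow_add, pow_mul]
    _ = k ^ m := by rw [← h2]

lemma expo (u U k w m c : ℕ) (hk : k + 2 * u + 9 = 40 * U) (hw : w = 3 * u + 18)
    (hm : k = m + w) (hc : 2 * c + m = m * m) (hU : 15 * u ^ 2 + 176 * u + 600 ≤ U) :
    u + 8 + 20 * U * k + 5 * U ≤ (u + 5) * m + m / 4 + w * m + c := by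
  have h4 : m ≤ 4 * (m / 4) + 3 := by omega
  have key : (20 * U * k) * 2 = (k + 2 * u + 9) * k := by rw [hk]; ring
  have e1 : (k + 2 * u + 9) * k = m * m + 2 * (m * w) + w * w + (2 * u + 9) * m
      + (2 * u + 9) * w := by rw [hm]; ring
  have e2 : w * w + (2 * u + 9) * w = 15 * u ^ 2 + 171 * u + 486 := by rw [hw]; ring
  have e3 : ((u + 5) * m + m / 4 + w * m + c) * 2
      = (2 * u + 9) * m + m + 2 * (m / 4) + 2 * (m * w) + 2 * c := by ring
  have e4 : (u + 8 + 20 * U * k + 5 * U) * 2 = 2 * u + 16 + (20 * U * k) * 2 + 10 * U := by ring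
  generalize 20 * U * k = A at *
  generalize (2 * u + 9) * m = B at *
  generalize m * w = C at *
  generalize m * m = D at *
  generalize (k + 2 * u + 9) * k = F at *
  generalize (2 * u + 9) * w = G at *
  generalize w * w = I at *
  generalize u ^ 2 = J at *
  omega

end ItemNF

theorem numF : NumF := by
  unfold NumF
  filter_upwards [Filter.eventually_ge_atTop 30] with u hu
  have hU := ItemNF.pow_big u hu
  obtain ⟨U, hUdef⟩ : ∃ U, U = 2 ^ u := ⟨_, rfl⟩
  have hk : pk u + 2 * u + 9 = 40 * U := by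
    unfold pk
    rw [← hUdef] at hU ⊢
    have : u ^ 2 ≥ 0 := Nat.zero_le _
    omega
  have hw : pw u = 3 * u + 18 := rfl
  rw [← hUdef] at hU
  have hwk : pw u ≤ pk u := by
    rw [hw]
    omega
  obtain ⟨m, hm⟩ : ∃ m, pk u = m + pw u := ⟨pk u - pw u, by omega⟩
  have hmk : pk u - pw u = m := by omega
  have hc : 2 * (m.choose 2) + m = m * m := by
    rw [Nat.choose_two_right]
    have h := Nat.div_mul_cancel (Nat.even_mul_pred_self m).two_dvd
    rcases Nat.eq_zero_or_pos m with h0 | h0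
    · simp [h0]
    · obtain ⟨q, rfl⟩ : ∃ q, m = q + 1 := ⟨m - 1, by omega⟩
      simp only [Nat.add_sub_cancel] at h ⊢
      have : (q + 1) * (q + 1) = (q + 1) * q + (q + 1) := by ring
      omega
  have hexp := ItemNF.expo u U (pk u) (pw u) m (m.choose 2) hk hw hm hc hU
  -- bounds of k
  have hk39 : 39 * U ≤ pk u := by
    have : u ^ 2 ≥ 0 := Nat.zero_le _
    omega
  have hk64 : pk u ≤ 2 ^ (u + 6) := by
    have : 2 ^ (u + 6) = 64 * 2 ^ u := by ring
    omega
  have hka : 2 ^ (u + 5) ≤ pk u := by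
    have : 2 ^ (u + 5) = 32 * 2 ^ u := by ring
    omega
  have hk4 : 2 ^ (4 * (u + 5) + 1) ≤ pk u ^ 4 := by
    have h1 : 2 ^ (4 * (u + 5) + 1) = 2097152 * U ^ 4 := by
      rw [hUdef]; ring
    have h2 : (39 * U) ^ 4 ≤ pk u ^ 4 := Nat.pow_le_pow_left hk39 _
    have h3 : (39 * U) ^ 4 = 2313441 * U ^ 4 := by ring
    rw [h1]
    refine le_trans ?_ h2
    rw [h3]
    exact Nat.mul_le_mul_right _ (by norm_num)
  have hkm := ItemNF.kpow (pk u) (u + 5) m hka hk4
  have ht : pt u ≤ 2 ^ (u + 6) := (Nat.div_le_self _ _).trans hk64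
  have hkpos : 0 < pk u := lt_of_lt_of_le (by positivity) hka
  -- the natural number inequality
  have hnat : 4 * (pt u * (pn u ^ (pk u) * 2 ^ (5 * U))) ≤
      pk u ^ m * 2 ^ (pw u * m + m.choose 2) := by
    have hn : pn u ^ (pk u) = 2 ^ (20 * U * pk u) := by
      unfold pn
      rw [← hUdef, ← pow_mul]
    calc 4 * (pt u * (pn u ^ (pk u) * 2 ^ (5 * U)))
        ≤ 4 * (2 ^ (u + 6) * (pn u ^ (pk u) * 2 ^ (5 * U))) := by
          exact Nat.mul_le_mul_left _ (Nat.mul_le_mul_right _ ht)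
      _ = 2 ^ (u + 8 + 20 * U * pk u + 5 * U) := by
          rw [hn, show (4 : ℕ) = 2 ^ 2 by norm_num, ← pow_add, ← pow_add, ← pow_add]
          congr 1
          ring
      _ ≤ 2 ^ ((u + 5) * m + m / 4 + pw u * m + m.choose 2) :=
          Nat.pow_le_pow_right (by norm_num) hexp
      _ = 2 ^ ((u + 5) * m + m / 4) * 2 ^ (pw u * m + m.choose 2) := by
          rw [← pow_add]
          congr 1
          ring
      _ ≤ _ := Nat.mul_le_mul_right _ hkm
  have hreal : 4 * ((pt u : ℝ) * ((pn u : ℝ) ^ (pk u) * 2 ^ (5 * U))) ≤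
      (pk u : ℝ) ^ m * 2 ^ (pw u * m + m.choose 2) := by exact_mod_cast hnat
  have hkR : (0 : ℝ) < pk u := by exact_mod_cast hkpos
  unfold thrC Cc
  rw [hmk, ← hUdef]
  have hne : ((2 : ℝ) ^ (pw u * m + m.choose 2)) ≠ 0 := by positivity
  have hkne : ((pk u : ℝ) ^ m) ≠ 0 := by positivity
  have e : (pt u : ℝ) * (pn u : ℝ) ^ pw u * (2 ^ (5 * U) *
      (((pn u : ℝ) * (1 / 2 : ℝ) ^ pw u / pk u) ^ m * (1 / 2 : ℝ) ^ (m.choose 2)))
      = ((pt u : ℝ) * ((pn u : ℝ) ^ (pk u) * 2 ^ (5 * U))) /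
        ((pk u : ℝ) ^ m * 2 ^ (pw u * m + m.choose 2)) := by
    rw [div_pow, mul_pow, ← pow_mul, one_div, inv_pow, inv_pow, pow_add 2 (pw u * m)]
    have : (pn u : ℝ) ^ (pk u) = (pn u : ℝ) ^ pw u * (pn u : ℝ) ^ m := by
      rw [hm, pow_add, mul_comm]
    rw [this]
    field_simp
  rw [e, div_le_iff₀ (by positivity)]
  linarith

end Pool.Agent.Work.MP_947296_co

end

section

/-!
# ItemNM1: many cliques
-/

set_option autoImplicit false

namespace Pool.Agent.Work.MP_947296_co

open Finset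

namespace NM1

theorem pow_big {u : ℕ} (hu : 30 ≤ u) : u * 1000000 ≤ 2 ^ u := by
  induction u, hu using Nat.le_induction with
  | base => norm_num
  | succ n hn ih =>
    calc (n + 1) * 1000000 ≤ (n * 2) * 1000000 := Nat.mul_le_mul_right _ (by linarith)
      _ = (n * 1000000) * 2 := by ring
      _ ≤ 2 ^ n * 2 := Nat.mul_le_mul_right _ ih
      _ = 2 ^ (n + 1) := (pow_succ 2 n).symm

/-- the basic relations between `k` and `U = 2 ^ u`. -/
theorem pk_eq {u : ℕ} (hu : 30 ≤ u) : pk u + (2 * u + 9) = 40 * 2 ^ u ∧ 20 * 2 ^ u ≤ pk u ∧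
    pk u ≤ 40 * 2 ^ u ∧ 1 ≤ pk u := by
  have := pow_big hu
  unfold pk
  omega

/-- `n ^ k (1/2) ^ C(k,2) = (32 U) ^ k`. -/
theorem pn_pow {u : ℕ} (hu : 30 ≤ u) :
    (pn u : ℝ) ^ pk u * (1 / 2 : ℝ) ^ ((pk u).choose 2) = (32 * (2 : ℝ) ^ u) ^ pk u := by
  obtain ⟨h1, -, -, h4⟩ := pk_eq hu
  set k := pk u with hk
  have h5 : k * (k - 1) = 2 * k.choose 2 := by
    rw [Nat.choose_two_right]
    exact (Nat.mul_div_cancel' (Nat.even_mul_pred_self k).two_dvd).symm
  have e1 : (pn u : ℝ) = (2 : ℝ) ^ (20 * 2 ^ u) := by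
    unfold pn
    push_cast
    rfl
  have e2 : (32 * (2 : ℝ) ^ u) ^ k = (2 : ℝ) ^ ((u + 5) * k) := by
    rw [show (32 : ℝ) * 2 ^ u = 2 ^ (u + 5) by rw [pow_add]; norm_num; ring, ← pow_mul]
  have e3 : (u + 5) * k + k.choose 2 = 20 * 2 ^ u * k := by
    obtain ⟨m, hm⟩ : ∃ m, k = m + 1 := ⟨k - 1, by omega⟩
    rw [hm, Nat.add_sub_cancel] at h5
    rw [hm] at h1
    rw [hm]
    have h6 : 2 * ((u + 5) * (m + 1) + (m + 1).choose 2) = 2 * (20 * 2 ^ u * (m + 1)) := by
      calc 2 * ((u + 5) * (m + 1) + (m + 1).choose 2)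
          = (m + 1) * (2 * (u + 5)) + 2 * (m + 1).choose 2 := by ring
        _ = (m + 1) * (2 * (u + 5)) + (m + 1) * m := by rw [← h5]
        _ = (m + 1) * (m + 1 + (2 * u + 9)) := by ring
        _ = 2 * (20 * 2 ^ u * (m + 1)) := by rw [h1]; ring
    omega
  rw [e1, e2, ← pow_mul, ← e3, pow_add, mul_assoc, ← mul_pow]
  norm_num

/-- `m! ≤ 3 m (m / 2.7) ^ m`. -/
theorem factorial_bound {m : ℕ} (hm : 1 ≤ m) :
    (m.factorial : ℝ) ≤ 3 * m * ((m : ℝ) / 2.7) ^ m := by
  obtain ⟨j, rfl⟩ : ∃ j, m = j + 1 := ⟨m - 1, by omega⟩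
  have h1 : Stirling.stirlingSeq (j + 1) ≤ Stirling.stirlingSeq 1 :=
    Stirling.stirlingSeq'_antitone (Nat.zero_le j)
  set m := j + 1 with hmj
  have hm0 : (0 : ℝ) < m := by exact_mod_cast (by omega : 0 < m)
  have hm1 : (1 : ℝ) ≤ m := by exact_mod_cast (by omega : 1 ≤ m)
  rw [Stirling.stirlingSeq_one, Stirling.stirlingSeq, div_le_iff₀ (by positivity)] at h1
  have h2 : Real.sqrt (2 * m) = Real.sqrt 2 * Real.sqrt m := Real.sqrt_mul (by norm_num) _
  have h3 : Real.sqrt m ≤ m := by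
    rw [Real.sqrt_le_left hm0.le]
    nlinarith
  have h4 : Real.exp 1 ≤ 3 := by
    have := Real.exp_one_lt_d9
    linarith
  have h5 : (2.7 : ℝ) ≤ Real.exp 1 := by
    have := Real.exp_one_gt_d9
    linarith
  have h6 : ((m : ℝ) / Real.exp 1) ^ m ≤ ((m : ℝ) / 2.7) ^ m := by
    refine pow_le_pow_left₀ (by positivity) ?_ m
    exact div_le_div_of_nonneg_left hm0.le (by norm_num) h5
  have hs2 : 0 < Real.sqrt 2 := by positivity
  calc (m.factorial : ℝ) ≤ Real.exp 1 / Real.sqrt 2 *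
        (Real.sqrt (2 * m) * ((m : ℝ) / Real.exp 1) ^ m) := h1
    _ = Real.exp 1 * Real.sqrt m * ((m : ℝ) / Real.exp 1) ^ m := by
        rw [h2]
        field_simp
    _ ≤ 3 * m * ((m : ℝ) / 2.7) ^ m := by
        refine mul_le_mul (mul_le_mul h4 h3 (by positivity) (by norm_num)) h6 (by positivity)
          (by positivity)

end NM1

open NM1 in
theorem numM1 : NumM1 := by
  filter_upwards [Filter.eventually_ge_atTop 30] with u hu
  obtain ⟨h1, h2, h3, h4⟩ := pk_eq hu
  have hpow := pn_pow hu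
  have hbig := pow_big hu
  set k := pk u with hk
  set n := pn u with hn
  set U : ℝ := (2 : ℝ) ^ u with hU
  have hU0 : 0 < U := by positivity
  have hkU : (k : ℝ) ≤ 40 * U := by
    have : ((k : ℕ) : ℝ) ≤ ((40 * 2 ^ u : ℕ) : ℝ) := by exact_mod_cast h3
    push_cast at this
    exact this
  have hk1 : (1 : ℝ) ≤ k := by exact_mod_cast h4
  have hk0 : (0 : ℝ) < k := by linarith
  -- `2 k ^ 2 ≤ n`
  have hkn : 2 * k ^ 2 ≤ n := by
    have e1 : k ^ 2 ≤ (40 * 2 ^ u) ^ 2 := Nat.pow_le_pow_left h3 2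
    have e2 : 2 * (40 * 2 ^ u) ^ 2 ≤ 2 ^ (12 + 2 * u) := by
      have : 2 * (40 * 2 ^ u) ^ 2 = 3200 * 2 ^ (2 * u) := by
        rw [mul_pow, ← pow_mul, mul_comm u 2]
        ring
      rw [this, pow_add]
      exact Nat.mul_le_mul_right _ (by norm_num)
    have e3 : 2 ^ (12 + 2 * u) ≤ n := by
      rw [hn, pn]
      exact Nat.pow_le_pow_right (by norm_num) (by omega)
    omega
  have hn0 : (0 : ℝ) < n := by
    have : 0 < n := by
      have : 0 < k ^ 2 := by positivity
      omega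
    exact_mod_cast this
  have hkn' : 2 * (k : ℝ) ^ 2 ≤ n := by exact_mod_cast hkn
  have hklen : k ≤ n := by nlinarith
  -- `C(n,k) ≥ n ^ k / (2 k!)`
  have hfac : (0 : ℝ) < (k.factorial : ℝ) := by exact_mod_cast Nat.factorial_pos k
  have hch : (n : ℝ) ^ k / 2 ≤ (n.choose k : ℝ) * k.factorial := by
    have c1 : (((n + 1 - k : ℕ) : ℝ) ^ k) / (k.factorial : ℝ) ≤ (n.choose k : ℝ) := by
      have := Nat.pow_le_choose (α := ℝ) k n
      exact_mod_cast this
    rw [div_le_iff₀ hfac] at c1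
    refine le_trans ?_ c1
    have c2 : (n : ℝ) * (1 - k / n) ≤ ((n + 1 - k : ℕ) : ℝ) := by
      rw [Nat.cast_sub (by omega)]
      push_cast
      field_simp
      linarith
    have c3 : (0 : ℝ) ≤ 1 - k / n := by
      rw [sub_nonneg, div_le_one hn0]
      exact_mod_cast hklen
    have c4 : 1 + (k : ℝ) * (-(k / n)) ≤ (1 + -((k : ℝ) / n)) ^ k :=
      one_add_mul_le_pow (by
        have : (k : ℝ) / n ≤ 1 := by linarith
        linarith) k
    have c5 : (k : ℝ) * (k / n) ≤ 1 / 2 := by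
      rw [← mul_div_assoc, div_le_iff₀ hn0]
      nlinarith
    calc (n : ℝ) ^ k / 2 = (n : ℝ) ^ k * (1 / 2) := by ring
      _ ≤ (n : ℝ) ^ k * (1 - k / n) ^ k := by
          refine mul_le_mul_of_nonneg_left ?_ (by positivity)
          have c6 : (1 : ℝ) - k / n = 1 + -((k : ℝ) / n) := by ring
          rw [c6]
          linarith
      _ = ((n : ℝ) * (1 - k / n)) ^ k := by rw [mul_pow]
      _ ≤ ((n + 1 - k : ℕ) : ℝ) ^ k := pow_le_pow_left₀ (by positivity) c2 k
  -- `n ^ 2 = 2 ^ (k + 2 u + 9)`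
  have hn2 : (n : ℝ) ^ 2 = (2 : ℝ) ^ k * (2 : ℝ) ^ (2 * u + 9) := by
    rw [← pow_add, h1, hn, pn]
    push_cast
    rw [← pow_mul]
    congr 1
    ring
  -- the final numerical inequality
  have hfin : 6 * (k : ℝ) * (2 : ℝ) ^ (2 * u + 9) ≤ (1.08 : ℝ) ^ k := by
    have f1 : 6 * (k : ℝ) * (2 : ℝ) ^ (2 * u + 9) ≤ (2 : ℝ) ^ (3 * u + 17) := by
      calc 6 * (k : ℝ) * (2 : ℝ) ^ (2 * u + 9) ≤ 6 * (40 * U) * (2 : ℝ) ^ (2 * u + 9) := by
            gcongr
        _ = 240 * (2 : ℝ) ^ (3 * u + 9) := by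
            rw [hU, show 3 * u + 9 = u + (2 * u + 9) by ring, pow_add 2 u]
            ring
        _ ≤ 2 ^ 8 * (2 : ℝ) ^ (3 * u + 9) := by
            refine mul_le_mul_of_nonneg_right (by norm_num) (by positivity)
        _ = (2 : ℝ) ^ (3 * u + 17) := by rw [← pow_add]; congr 1; ring
    have f2 : (2 : ℝ) ^ (3 * u + 17) ≤ (2 : ℝ) ^ (2 * 2 ^ u) := by
      refine pow_le_pow_right₀ (by norm_num) ?_
      omega
    have f3 : (2 : ℝ) ^ (2 * 2 ^ u) ≤ (1.08 : ℝ) ^ (20 * 2 ^ u) := by
      rw [pow_mul, pow_mul]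
      exact pow_le_pow_left₀ (by norm_num) (by norm_num) _
    have f4 : (1.08 : ℝ) ^ (20 * 2 ^ u) ≤ (1.08 : ℝ) ^ k := pow_le_pow_right₀ (by norm_num) h2
    linarith
  have hfb := factorial_bound h4
  -- `(2 k/2.7)^k * 1.08^k ≤ (32 U)^k`
  have hbase : ((k : ℝ) / 2.7) ^ k * (2 : ℝ) ^ k * (1.08 : ℝ) ^ k ≤ (32 * U) ^ k := by
    rw [← mul_pow, ← mul_pow]
    refine pow_le_pow_left₀ (by positivity) ?_ k
    rw [div_mul_eq_mul_div, div_mul_eq_mul_div, div_le_iff₀ (by norm_num)]
    linarith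
  -- conclusion
  have hgoal : (n : ℝ) ^ 2 * (2 * k.factorial) ≤ (32 * U) ^ k := by
    calc (n : ℝ) ^ 2 * (2 * k.factorial)
        ≤ ((2 : ℝ) ^ k * (2 : ℝ) ^ (2 * u + 9)) * (2 * (3 * k * ((k : ℝ) / 2.7) ^ k)) := by
          rw [hn2]
          gcongr
      _ = (6 * (k : ℝ) * (2 : ℝ) ^ (2 * u + 9)) * (((k : ℝ) / 2.7) ^ k * (2 : ℝ) ^ k) := by ring
      _ ≤ (1.08 : ℝ) ^ k * (((k : ℝ) / 2.7) ^ k * (2 : ℝ) ^ k) :=
          mul_le_mul_of_nonneg_right hfin (by positivity)
      _ = ((k : ℝ) / 2.7) ^ k * (2 : ℝ) ^ k * (1.08 : ℝ) ^ k := by ring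
      _ ≤ (32 * U) ^ k := hbase
  have hhalf : (0 : ℝ) < (1 / 2 : ℝ) ^ (k.choose 2) := by positivity
  have h9 : (n : ℝ) ^ 2 * (2 * k.factorial) ≤
      (n.choose k : ℝ) * (1 / 2 : ℝ) ^ (k.choose 2) * (2 * k.factorial) := by
    calc (n : ℝ) ^ 2 * (2 * k.factorial) ≤ (32 * U) ^ k := hgoal
      _ = (n : ℝ) ^ k * (1 / 2 : ℝ) ^ (k.choose 2) := hpow.symm
      _ = 2 * ((n : ℝ) ^ k / 2) * (1 / 2 : ℝ) ^ (k.choose 2) := by ring
      _ ≤ 2 * ((n.choose k : ℝ) * k.factorial) * (1 / 2 : ℝ) ^ (k.choose 2) := by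
          gcongr
      _ = (n.choose k : ℝ) * (1 / 2 : ℝ) ^ (k.choose 2) * (2 * k.factorial) := by ring
  exact le_of_mul_le_mul_right h9 (by positivity)

end Pool.Agent.Work.MP_947296_co

end
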