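import Pool.Agent.Work.MP_947296_co.Stmts
import Pool.Agent.Work.MP_947296_co.PotOps

/-! Bundle of small proof modules (one section per former module). -/

section

set_option autoImplicit false

namespace Pool.Agent.Work.MP_947296_co

open Finset Play

namespace CoreAsm

theorem pn_pos (u : ℕ) : 0 < pn u := by unfold pn; positivity

theorem Cc_pos {u r : ℕ} (hk : 0 < pk u) : 0 < Cc u r := by
  unfold Cc
  have h1 : (0 : ℝ) < pn u := by exact_mod_cast pn_pos u
  have h2 : (0 : ℝ) < pk u := by exact_mod_cast hk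
  positivity

theorem thrC_pos {u r l : ℕ} (hk : 0 < pk u) : 0 < thrC u r l := by
  unfold thrC
  have := Cc_pos (u := u) (r := r) hk
  positivity

theorem thrB_pos (u j : ℕ) : 0 < thrB u j := by
  unfold thrB
  have h1 : (0 : ℝ) < pn u := by exact_mod_cast pn_pos u
  have h2 : (0 : ℝ) < ((pk u - (pw u + 6)).factorial : ℝ) := by
    exact_mod_cast Nat.factorial_pos _
  positivity

theorem thrB_succ {u j : ℕ} (hj : pw u + 6 ≤ j) :
    thrB u (j + 1) * 2 ^ (3 * u) ≤ thrB u j := by
  unfold thrB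
  have h1 : j + 1 - (pw u + 6) = (j - (pw u + 6)) + 1 := by omega
  rw [h1, Nat.mul_add, mul_one, pow_add]
  have h2 : ((1 / 2 : ℝ) ^ (3 * u)) * 2 ^ (3 * u) = 1 := by
    rw [← mul_pow]; norm_num
  rw [← mul_assoc, mul_assoc _ ((1 / 2 : ℝ) ^ (3 * u)) _, h2, mul_one]

theorem insert2_card {n : ℕ} {R : Finset (Fin n)} {x y : Fin n} (hx : x ∉ R) (hy : y ∉ R)
    (hxy : x ≠ y) : (insert x (insert y R)).card = R.card + 2 := by
  rw [card_insert_of_notMem, card_insert_of_notMem hy]
  simp [hx, hxy]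

theorem QC_sub_MS {n k b x0 : ℕ} {c : Fin n → Fin k} {R : Finset (Fin n)}
    {H : Play (Sym2 (Fin n))} {x y : Fin n} {S : Finset (Fin n)}
    (hS : S ∈ QC k b x0 c R H) (hx : x ∈ S) (hy : y ∈ S) :
    S ∈ MS k b H (insert x (insert y R)) := by
  simp only [QC, MS, mem_filter] at hS ⊢
  refine ⟨hS.1.1, ?_, hS.1.2.2⟩
  intro z hz
  rw [mem_insert, mem_insert] at hz
  rcases hz with rfl | rfl | hz
  · exact hx
  · exact hy
  · exact hS.1.2.1 hz

theorem QC_sub_QC {n k b x0 : ℕ} {c : Fin n → Fin k} {R : Finset (Fin n)}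
    {H : Play (Sym2 (Fin n))} {x y : Fin n} {S : Finset (Fin n)}
    (hS : S ∈ QC k b x0 c R H) (hx : x ∈ S) (hy : y ∈ S) :
    S ∈ QC k b x0 c (insert x (insert y R)) H := by
  have h1 := QC_sub_MS hS hx hy
  simp only [QC, mem_filter] at hS ⊢
  refine ⟨h1, ?_⟩
  obtain ⟨X, hX1, hX2, hX3⟩ := hS.2
  refine ⟨X ∩ (S \ insert x (insert y R)), inter_subset_right,
    (card_le_card inter_subset_left).trans hX2, ?_⟩
  refine hX3.mono ?_
  intro z hz
  have hz' := Finset.mem_coe.1 hz
  rw [mem_sdiff, mem_inter, mem_sdiff] at hz'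
  obtain ⟨⟨h3, h4⟩, h5⟩ := hz'
  refine Finset.mem_coe.2 (mem_sdiff.2 ⟨mem_sdiff.2 ⟨h3, fun h => h4 ?_⟩, fun h => h5 ⟨h, h3, h4⟩⟩)
  exact mem_insert_of_mem (mem_insert_of_mem h)

end CoreAsm

open CoreAsm

attribute [local irreducible] pn pk pw pp pb px thrB thrC Cc pcap pt stat

theorem core (ha : CapPot) (hb : ChainB) (hc : LevelC) (n0 : NumBasic) (nA : NumA)
    (nB1 : NumB1) (nB2 : NumB2) (nB4 : NumB4) (nC1 : NumC1) (nC2 : NumC2) (nC3 : NumC3)
    (nC4 : NumC4) : Core := by
  filter_upwards [n0, nA, nB1, nB2, nB4, nC1, nC2, nC3, nC4] with u h0 hA hB1 hB2 hB4 hC1 hC2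
    hC3 hC4
  obtain ⟨hu, hwk, hbm, hkn, ht, hwt, htk, hbx, hk1, hk2⟩ := h0
  have hkpos : 0 < pk u := by omega
  have hn : (0 : ℝ) < pn u := by exact_mod_cast pn_pos u
  have hcap : ∀ r, 0 < pcap u r := fun r => by unfold pcap; positivity
  have hcap2 : ∀ r, (pn u : ℝ) * (1 / 2 : ℝ) ^ r ≤ pcap u r := fun r => by
    unfold pcap
    have : 0 ≤ (pn u : ℝ) * (1 / 2 : ℝ) ^ r := by positivity
    nlinarith
  have hpp : 1 ≤ pp u := by
    unfold pp
    have := pn_pos u
    exact Nat.mul_pos this (by positivity)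
  -- families A
  have fA : ∀ r ≤ pw u + 4, ∃ Ψ : Pot (Sym2 (Fin (pn u))), (∀ f, Ψ.val (.init f) ≤ 1 / 64) ∧
      ∀ H, Ψ.val H ≤ 1 → ∀ R : Finset (Fin (pn u)), R.card = r → W R H ≤ pcap u r :=
    fun r hr => ha (pn u) r (1 / 128) (pcap u r) (1 / 64) (by norm_num) (hA r hr)
  obtain ⟨A0, hA0i, hA0⟩ := fA (pw u) (by omega)
  obtain ⟨A2, hA2i, hA2⟩ := fA (pw u + 2) (by omega)
  obtain ⟨A4, hA4i, hA4⟩ := fA (pw u + 4) (by omega)
  -- family B
  obtain ⟨Bp, hBi, hB⟩ := hb (pn u) (pk u) (pb u) (pw u + 6) (pk u - 10 * u) (100 * pk u)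
    (50 * pk u * 2 ^ u) (2 ^ (3 * u)) (1 / 64) (thrB u) (by omega) (by omega) (by omega)
    (fun j => thrB_pos u j) (fun j hj _ => thrB_succ hj)
    (by
      have : pk u - (pk u - 10 * u) = 10 * u := by omega
      rw [this]; exact hB1)
    hB2 (by positivity) hB4
  -- families C
  have fC : ∀ r ≤ pw u + 4, ∀ l : ℕ, 3 ≤ l → _ := fun r hr l hl =>
    hc (pn u) (pk u) (pb u) (px u) r (pp u) ((l - 3) * 2 ^ u * pp u) (pcap u r) (thrC u r l)
      (1 / 64) (2 ^ (2 ^ u) * Cc u r) hpp (by omega) (hcap r) (thrC_pos hkpos) (hcap2 r)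
      (hC1 r hr) (hC2 r hr l hl)
  obtain ⟨C0, hC0i, hC0⟩ := fC (pw u) (by omega) 5 (by norm_num)
  obtain ⟨C2, hC2i, hC2'⟩ := fC (pw u + 2) (by omega) 23 (by norm_num)
  obtain ⟨C4, hC4i, hC4'⟩ := fC (pw u + 4) (by omega) 41 (by norm_num)
  refine ⟨Pot.add (Pot.add (Pot.add A0 A2) (Pot.add A4 Bp)) (Pot.add C0 (Pot.add C2 C4)), ?_, ?_⟩
  · intro f
    simp only [Pot.add_val]
    linarith [hA0i f, hA2i f, hA4i f, hBi f, hC0i f, hC2i f, hC4i f]
  · intro H hH c
    simp only [Pot.add_val] at hH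
    have nn : ∀ (P : Pot (Sym2 (Fin (pn u)))) K, 0 ≤ P.val K := fun P K => P.val_nonneg K
    have cA0 : ∀ H', Pre H' H → ∀ R : Finset (Fin (pn u)), R.card = pw u →
        W R H' ≤ pcap u (pw u) := fun H' hp => hA0 H' (by
      linarith [hH H' hp, nn A2 H', nn A4 H', nn Bp H', nn C0 H', nn C2 H', nn C4 H'])
    have cA2 : ∀ H', Pre H' H → ∀ R : Finset (Fin (pn u)), R.card = pw u + 2 →
        W R H' ≤ pcap u (pw u + 2) := fun H' hp => hA2 H' (by
      linarith [hH H' hp, nn A0 H', nn A4 H', nn Bp H', nn C0 H', nn C2 H', nn C4 H'])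
    have cA4 : ∀ H', Pre H' H → ∀ R : Finset (Fin (pn u)), R.card = pw u + 4 →
        W R H' ≤ pcap u (pw u + 4) := fun H' hp => hA4 H' (by
      linarith [hH H' hp, nn A2 H', nn A0 H', nn Bp H', nn C0 H', nn C2 H', nn C4 H'])
    have hHH := hH H (.refl H)
    have bB := hB H (by linarith [nn A0 H, nn A2 H, nn A4 H, nn C0 H, nn C2 H, nn C4 H])
    have vC0 : C0.val H ≤ 1 := by
      linarith [nn A0 H, nn A2 H, nn A4 H, nn Bp H, nn C2 H, nn C4 H]
    have vC2 : C2.val H ≤ 1 := by
      linarith [nn A0 H, nn A2 H, nn A4 H, nn Bp H, nn C0 H, nn C4 H]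
    have vC4 : C4.val H ≤ 1 := by
      linarith [nn A0 H, nn A2 H, nn A4 H, nn Bp H, nn C2 H, nn C0 H]
    have hhalf : (0 : ℝ) ≤ (1 / 2 : ℝ) ^ pb u := by positivity
    -- level w + 4
    have L4 : ∀ R : Finset (Fin (pn u)), R.card = pw u + 4 →
        ((QC (pk u) (pb u) (px u) c R H).card : ℝ) * (1 / 2 : ℝ) ^ (pb u) ≤
          thrC u (pw u + 4) 41 := by
      intro R hR
      refine hC4' H cA4 vC4 c R hR (thrB u (pw u + 6)) ?_ hC4
      intro x y hx hy hxy
      refine le_trans (mul_le_mul_of_nonneg_right ?_ hhalf)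
        (bB (insert x (insert y R)) (by rw [insert2_card hx hy hxy, hR]))
      refine Nat.cast_le.2 (card_le_card ?_)
      intro S hS
      rw [mem_filter] at hS
      exact QC_sub_MS hS.1 hS.2.1 hS.2.2
    have L2 : ∀ R : Finset (Fin (pn u)), R.card = pw u + 2 →
        ((QC (pk u) (pb u) (px u) c R H).card : ℝ) * (1 / 2 : ℝ) ^ (pb u) ≤
          thrC u (pw u + 2) 23 := by
      intro R hR
      refine hC2' H cA2 vC2 c R hR (thrC u (pw u + 4) 41) ?_
        (hC3 (pw u + 2) le_rfl 23 (by norm_num))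
      intro x y hx hy hxy
      refine le_trans (mul_le_mul_of_nonneg_right ?_ hhalf)
        (L4 (insert x (insert y R)) (by rw [insert2_card hx hy hxy, hR]))
      refine Nat.cast_le.2 (card_le_card ?_)
      intro S hS
      rw [mem_filter] at hS
      exact QC_sub_QC hS.1 hS.2.1 hS.2.2
    intro R hR
    refine hC0 H cA0 vC0 c R hR (thrC u (pw u + 2) 23) ?_
      (hC3 (pw u) (by omega) 5 (by norm_num))
    intro x y hx hy hxy
    refine le_trans (mul_le_mul_of_nonneg_right ?_ hhalf)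
      (L2 (insert x (insert y R)) (by rw [insert2_card hx hy hxy, hR]))
    refine Nat.cast_le.2 (card_le_card ?_)
    intro S hS
    rw [mem_filter] at hS
    exact QC_sub_QC hS.1 hS.2.1 hS.2.2

end Pool.Agent.Work.MP_947296_co

end

section

set_option autoImplicit false

namespace Pool.Agent.Work.MP_947296_co

open Finset Play

section
attribute [local irreducible] pn pk pw pp pb px thrB thrC Cc pcap pt stat

/-- Breaker's side -/
theorem breaker (hcore : Core) (f1 : TourExists) (f5 : FrameCount) (e1 : ESStage) (e2 : Unroll)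
    (e3 : EnterQT) (e4 : CopyQT) (n0 : NumBasic) (nf : NumF) :
    ∀ᶠ u : ℕ in Filter.atTop,
      ∃ T : Fin (pk u) → Fin (pk u) → Prop, (∀ i, ¬ T i i) ∧
        (∀ i j, i ≠ j → (T i j ↔ ¬ T j i)) ∧
      ¬ ∃ σ : (t : ℕ) → (Fin t → Fin (pn u) × Fin (pn u)) → Fin (pn u) × Fin (pn u),
        ∀ b : ℕ → Fin (pn u) × Fin (pn u),
        ∃ f : Fin (pk u) → Fin (pn u), Function.Injective f ∧ ∀ i j : Fin (pk u), T i j →
          ∃ t : ℕ, σ t (fun s : Fin t => b s.val) = (f i, f j) ∧
            ∀ s : ℕ, s < t →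
              (b s ≠ (f i, f j) ∧ b s ≠ (f j, f i) ∧
                σ s (fun r : Fin s => b r.val) ≠ (f i, f j) ∧
                σ s (fun r : Fin s => b r.val) ≠ (f j, f i)) := by
  filter_upwards [hcore, n0, nf] with u hC h0 hF
  obtain ⟨hu, hwk, hbm, hkn, ht, hwt, htk, hbx, hk1, hk2⟩ := h0
  have hkpos : 0 < pk u := by omega
  have hnpos : 0 < pn u := by omega
  haveI : NeZero (pk u) := ⟨hkpos.ne'⟩
  haveI : NeZero (pn u) := ⟨hnpos.ne'⟩
  haveI : Nonempty (Fin (pn u)) := ⟨0⟩
  obtain ⟨T, bl, hT, hsep⟩ := f1 (pk u) (pw u) (pt u) hwt htk hkpos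
  obtain ⟨Ψ, hΨi, hΨ⟩ := hC
  obtain ⟨q1, q2, q3⟩ := e3 (pn u) (pk u) (pb u) T hbm
  classical
  obtain ⟨br, hbr⟩ := e1 (Fin (pn u) × Fin (pn u)) (Sym2 (Fin (pn u))) (Finset (Fin (pn u)))
    (fun m => s(m.1, m.2)) (fun S => Ed S) (fun H => QT T (pb u) H) (pb u)
    (Pot.pull (fun m : Fin (pn u) × Fin (pn u) => s(m.1, m.2)) Ψ)
    (fun f => hΨi _) q1 q2 q3 (by
      intro H hH
      have h1 := f5 (pn u) (pk u) (pw u) (pt u) (pb u) (px u) T bl H (thrC u (pw u) 5) hT hsep
        ht hbx ?_ ?_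
      · exact h1.trans hF
      · by_contra hneg
        push Not at hneg
        have h2 := hΨ (und H) ?_ (fun _ => 0)
        · obtain ⟨R, hR⟩ : ∃ R : Finset (Fin (pn u)), R.card = pw u := by
            obtain ⟨R, _, hR⟩ := Finset.exists_subset_card_eq
              (s := (univ : Finset (Fin (pn u)))) (n := pw u) (by
                rw [card_univ, Fintype.card_fin]; omega)
            exact ⟨R, hR⟩
          have h3 := h2 R hR
          have h4 : (0 : ℝ) ≤ ((QC (pk u) (pb u) (px u) (fun _ => 0) R (und H)).card : ℝ) *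
            (1 / 2 : ℝ) ^ (pb u) := by positivity
          linarith
        · intro H' hH'
          obtain ⟨K, hK1, hK2⟩ := exists_pre_of_map _ hH'
          rw [← hK2]
          exact hH K hK1
      · refine hΨ (und H) ?_
        intro H' hH'
        obtain ⟨K, hK1, hK2⟩ := exists_pre_of_map _ hH'
        rw [← hK2]
        exact hH K hK1)
  refine ⟨T, hT.1, hT.2, ?_⟩
  rintro ⟨σ, hσ⟩
  obtain ⟨b, Hs, hs0, hs⟩ := e2 (Fin (pn u) × Fin (pn u)) σ br
  obtain ⟨f, hf, hfT⟩ := hσ b
  obtain ⟨t, ht1, ht2⟩ := e4 (pn u) (pk u) (pb u) T σ b Hs f hT hs0 (fun t => (hs t).1) hf hfT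
  have hfol : ∀ t, Follow br (Hs t) := by
    intro t
    induction t with
    | zero => rw [hs0]; exact trivial
    | succ t ih => rw [(hs t).1]; exact ⟨ih, (hs t).2⟩
  exact hbr (Hs t) (hfol t) _ ht1 ht2

/-- Maker's side -/
theorem maker (m3 : MakerClique) (n0 : NumBasic) (nm1 : NumM1) (nm2 : NumM2) :
    ∀ᶠ u : ℕ in Filter.atTop,
    ∃ σ : (t : ℕ) → (Fin t → Fin (pn u) × Fin (pn u)) → Fin (pn u) × Fin (pn u),
      ∀ b : ℕ → Fin (pn u) × Fin (pn u),
      ∃ f : Fin (pk u) → Fin (pn u), Function.Injective f ∧ ∀ i j : Fin (pk u), i ≠ j →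
        ∃ t : ℕ,
          (σ t (fun s : Fin t => b s.val) = (f i, f j) ∨
            σ t (fun s : Fin t => b s.val) = (f j, f i)) ∧
          ∀ s : ℕ, s < t → (b s ≠ (f i, f j) ∧ b s ≠ (f j, f i)) := by
  filter_upwards [n0, nm1, nm2] with u h0 h1 h2
  obtain ⟨hu, hwk, hbm, hkn, ht, hwt, htk, hbx, hk1, hk2⟩ := h0
  exact m3 (pn u) (pk u) (by omega) hkn h1 h2

end

theorem pn_tendsto : Filter.Tendsto pn Filter.atTop Filter.atTop := by
  refine Filter.tendsto_atTop_mono (f := fun u => u) (fun u => ?_) Filter.tendsto_id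
  unfold pn
  have h1 : u < 2 ^ u := Nat.lt_two_pow_self
  have h2 : 20 * 2 ^ u < 2 ^ (20 * 2 ^ u) := Nat.lt_two_pow_self
  omega

/-- the frozen statement from the items -/
theorem frozen (hcore : Core) (f1 : TourExists) (f5 : FrameCount) (e1 : ESStage) (e2 : Unroll)
    (e3 : EnterQT) (e4 : CopyQT) (n0 : NumBasic) (nf : NumF) (m3 : MakerClique) (nm1 : NumM1)
    (nm2 : NumM2) :
  ∀ N : ℕ, ∃ n : ℕ, N ≤ n ∧ ∃ k : ℕ,
    (∃ σ : (t : ℕ) → (Fin t → Fin n × Fin n) → Fin n × Fin n,
      ∀ b : ℕ → Fin n × Fin n,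
      ∃ f : Fin k → Fin n, Function.Injective f ∧ ∀ i j : Fin k, i ≠ j →
        ∃ t : ℕ,
          (σ t (fun s : Fin t => b s.val) = (f i, f j) ∨
            σ t (fun s : Fin t => b s.val) = (f j, f i)) ∧
          ∀ s : ℕ, s < t → (b s ≠ (f i, f j) ∧ b s ≠ (f j, f i))) ∧
    ∃ T : Fin k → Fin k → Prop, (∀ i, ¬ T i i) ∧ (∀ i j, i ≠ j → (T i j ↔ ¬ T j i)) ∧
      ¬ ∃ σ : (t : ℕ) → (Fin t → Fin n × Fin n) → Fin n × Fin n,
        ∀ b : ℕ → Fin n × Fin n,
        ∃ f : Fin k → Fin n, Function.Injective f ∧ ∀ i j : Fin k, T i j →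
          ∃ t : ℕ, σ t (fun s : Fin t => b s.val) = (f i, f j) ∧
            ∀ s : ℕ, s < t →
              (b s ≠ (f i, f j) ∧ b s ≠ (f j, f i) ∧
                σ s (fun r : Fin s => b r.val) ≠ (f i, f j) ∧
                σ s (fun r : Fin s => b r.val) ≠ (f j, f i)) := by
  intro N
  have h1 := breaker hcore f1 f5 e1 e2 e3 e4 n0 nf
  have h2 := maker m3 n0 nm1 nm2
  obtain ⟨u, hu1, hu2, hu3⟩ :=
    (h1.and (h2.and (pn_tendsto.eventually (Filter.eventually_ge_atTop N)))).exists
  exact ⟨pn u, hu3, pk u, hu2, hu1⟩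

end Pool.Agent.Work.MP_947296_co

end

section

set_option autoImplicit false

namespace Pool.Agent.Work.MP_947296_co

open Finset Play

namespace ItemA1

lemma bv_nonneg {E : Type} [DecidableEq E] (I : Finset E) (H : Play E) : 0 ≤ bv I H := by
  unfold bv
  split_ifs
  · positivity
  · exact le_rfl

end ItemA1

open ItemA1 in
theorem bvStep : BvStep := by
  intro E _ I H e f
  classical
  have h0 := bv_nonneg I H
  by_cases hB : Disjoint H.B I
  · have hv : bv I H = (1 / 2 : ℝ) ^ (I \ H.M).card := by unfold bv; rw [if_pos hB]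
    by_cases he : e ∈ I \ H.cl
    · rw [if_pos he]
      rw [mem_sdiff, mem_cl, not_or] at he
      have h1 : ¬ Disjoint (Play.step H e f).B I := by
        rw [Finset.not_disjoint_iff]
        exact ⟨e, mem_B_step.2 (Or.inr ⟨rfl, he.2.1⟩), he.1⟩
      have h2 : bv I (.step H e f) = 0 := by unfold bv; rw [if_neg h1]
      rw [h2]
      split_ifs <;> linarith
    · rw [if_neg he, sub_zero]
      rw [mem_sdiff, mem_cl] at he
      have h1 : Disjoint (Play.step H e f).B I := by
        rw [Finset.disjoint_left] at hB ⊢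
        intro x hx hxI
        rcases mem_B_step.1 hx with hx | ⟨rfl, hx⟩
        · exact hB hx hxI
        · exact he ⟨hxI, fun h => h.elim hx fun h' => hB h' hxI⟩
      have h2 : bv I (.step H e f) = (1 / 2 : ℝ) ^ (I \ (Play.step H e f).M).card := by
        unfold bv; rw [if_pos h1]
      rw [h2, hv]
      by_cases hf : f ∈ I \ H.cl
      · rw [if_pos hf]
        have h6 : (I \ H.M).card ≤ (I \ (Play.step H e f).M).card + 1 := by
          have h7 : I \ H.M ⊆ insert f (I \ (Play.step H e f).M) := by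
            intro x hx
            rw [mem_sdiff] at hx
            rw [mem_insert, mem_sdiff, mem_M_step]
            by_cases hxf : x = f
            · exact Or.inl hxf
            · exact Or.inr ⟨hx.1, fun h => h.elim hx.2 fun h' => hxf h'.1⟩
          exact le_trans (card_le_card h7) (card_insert_le _ _)
        have h8 : (1 / 2 : ℝ) ^ ((I \ (Play.step H e f).M).card + 1) ≤
            (1 / 2 : ℝ) ^ (I \ H.M).card :=
          pow_le_pow_of_le_one (by norm_num) (by norm_num) h6
        rw [pow_succ] at h8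
        linarith
      · rw [if_neg hf, add_zero]
        have h5 : I \ (Play.step H e f).M = I \ H.M := by
          ext x
          rw [mem_sdiff, mem_sdiff, mem_M_step]
          constructor
          · rintro ⟨h1, h2⟩
            exact ⟨h1, fun h => h2 (Or.inl h)⟩
          · rintro ⟨h1', h2'⟩
            refine ⟨h1', ?_⟩
            rintro (h | ⟨rfl, h⟩)
            · exact h2' h
            · apply hf
              rw [mem_sdiff, mem_cl, not_or]
              exact ⟨h1', h2', fun h' => h (mem_B_step.2 (Or.inl h'))⟩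
        rw [h5]
  · have hv : bv I H = 0 := by unfold bv; rw [if_neg hB]
    have h1 : ¬ Disjoint (Play.step H e f).B I := by
      intro h
      exact hB (Finset.disjoint_of_subset_left (B_sub_step H e f) h)
    have h2 : bv I (.step H e f) = 0 := by unfold bv; rw [if_neg h1]
    rw [hv, h2]
    simp

end Pool.Agent.Work.MP_947296_co

end

section

set_option autoImplicit false

/-! MP_947296_co, item A2: the generating function potential of a root. -/

namespace Pool.Agent.Work.MP_947296_co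

open Finset Play

namespace ItemA2

section gen

variable {E : Type} [DecidableEq E]

theorem bv_nonneg (I : Finset E) (H : Play E) : 0 ≤ bv I H := by
  unfold bv
  split_ifs
  · positivity
  · exact le_rfl

theorem bv_le_one (I : Finset E) (H : Play E) : bv I H ≤ 1 := by
  unfold bv
  split_ifs
  · exact pow_le_one₀ (by norm_num) (by norm_num)
  · exact zero_le_one

/-- the basic token as a potential -/
noncomputable def bvPot (a1 : BvStep) (I : Finset E) : Pot E where
  val H := bv I H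
  loss H x := if x ∈ I \ H.cl then bv I H else 0
  val_nonneg H := bv_nonneg I H
  loss_nonneg H x := by
    split_ifs
    · exact bv_nonneg I H
    · exact le_rfl
  loss_le H x := by
    split_ifs
    · exact le_rfl
    · exact bv_nonneg I H
  step H e f := a1 E I H e f

theorem bv_union {A B : Finset E} (hAB : Disjoint A B) (H : Play E) :
    bv (A ∪ B) H = bv A H * bv B H := by
  unfold bv
  by_cases h1 : Disjoint H.B A
  · by_cases h2 : Disjoint H.B B
    · have h3 : Disjoint H.B (A ∪ B) := by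
        rw [Finset.disjoint_union_right]
        exact ⟨h1, h2⟩
      rw [if_pos h1, if_pos h2, if_pos h3, ← pow_add]
      congr 1
      rw [Finset.union_sdiff_distrib, Finset.card_union_of_disjoint]
      exact hAB.mono Finset.sdiff_subset Finset.sdiff_subset
    · have h3 : ¬ Disjoint H.B (A ∪ B) := by
        rw [Finset.disjoint_union_right]
        exact fun h => h2 h.2
      rw [if_neg h2, if_neg h3, mul_zero]
  · have h3 : ¬ Disjoint H.B (A ∪ B) := by
      rw [Finset.disjoint_union_right]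
      exact fun h => h1 h.1
    rw [if_neg h1, if_neg h3, zero_mul]

theorem bv_empty (H : Play E) : bv (∅ : Finset E) H = 1 := by
  unfold bv
  rw [if_pos (Finset.disjoint_empty_right _)]
  simp

theorem bv_init (I : Finset E) (f : E) : bv I (.init f) ≤ 2 * (1 / 2 : ℝ) ^ I.card := by
  unfold bv
  rw [B_init, if_pos (Finset.disjoint_empty_left _), M_init]
  have h1 : I.card ≤ (I \ {f}).card + 1 := by
    have := Finset.card_le_card_sdiff_add_card (s := I) (t := {f})
    simpa using this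
  have h2 : (1 / 2 : ℝ) ^ ((I \ {f}).card + 1) ≤ (1 / 2 : ℝ) ^ I.card :=
    pow_le_pow_of_le_one (by norm_num) (by norm_num) h1
  rw [pow_succ] at h2
  linarith

end gen

variable {n : ℕ}

theorem star_disj {R : Finset (Fin n)} {z w : Fin n} (hz : z ∉ R) (hzw : z ≠ w) :
    Disjoint (star R z) (star R w) := by
  rw [Finset.disjoint_left]
  intro e he he'
  rw [mem_star] at he he'
  obtain ⟨x, hx, rfl⟩ := he
  obtain ⟨y, hy, hxy⟩ := he'
  rw [Sym2.eq_iff] at hxy
  rcases hxy with ⟨_, h⟩ | ⟨h, _⟩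
  · exact hzw h.symm
  · exact hz (h ▸ hy)

theorem star_card {R : Finset (Fin n)} {z : Fin n} : (star R z).card = R.card := by
  unfold star
  refine Finset.card_image_of_injective _ ?_
  intro x y hxy
  have h : s(x, z) = s(y, z) := hxy
  rw [Sym2.eq_iff] at h
  rcases h with ⟨h, _⟩ | ⟨h1, h2⟩
  · exact h
  · rw [h1, ← h2]

theorem disj_biUnion {R Z : Finset (Fin n)} {z : Fin n} (hz : z ∉ R) (hzZ : z ∉ Z) :
    Disjoint (star R z) (Z.biUnion (star R)) := by
  rw [Finset.disjoint_biUnion_right]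
  intro w hw
  exact star_disj hz (fun h => hzZ (h ▸ hw))

theorem bv_biUnion {R : Finset (Fin n)} (H : Play (Sym2 (Fin n))) (Z : Finset (Fin n))
    (hZ : ∀ z ∈ Z, z ∉ R) :
    bv (Z.biUnion (star R)) H = ∏ z ∈ Z, bv (star R z) H := by
  induction Z using Finset.induction_on with
  | empty => simp [bv_empty]
  | insert z Z hz ih =>
    rw [Finset.biUnion_insert, bv_union (disj_biUnion (hZ z (mem_insert_self _ _)) hz),
      Finset.prod_insert hz, ih (fun w hw => hZ w (mem_insert_of_mem hw))]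

theorem card_biUnion' {R : Finset (Fin n)} (Z : Finset (Fin n)) (hZ : ∀ z ∈ Z, z ∉ R) :
    (Z.biUnion (star R)).card = R.card * Z.card := by
  induction Z using Finset.induction_on with
  | empty => simp
  | insert z Z hz ih =>
    rw [Finset.biUnion_insert, Finset.card_union_of_disjoint
      (disj_biUnion (hZ z (mem_insert_self _ _)) hz), star_card,
      ih (fun w hw => hZ w (mem_insert_of_mem hw)), Finset.card_insert_of_notMem hz]
    ring

end ItemA2

open ItemA2

theorem rootPot (a1 : BvStep) : RootPot := by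
  intro n r R lam hlam hR
  have hc : ∀ Z : ↥((univ \ R).powerset), 0 ≤ lam ^ (Z : Finset (Fin n)).card :=
    fun Z => pow_nonneg hlam _
  have hZR : ∀ Z ∈ (univ \ R).powerset, ∀ z ∈ Z, z ∉ R := by
    intro Z hZ z hz
    exact (Finset.mem_sdiff.1 (Finset.mem_powerset.1 hZ hz)).2
  refine ⟨Pot.sum (fun Z : ↥((univ \ R).powerset) => lam ^ (Z : Finset (Fin n)).card) hc
    (fun Z => bvPot a1 ((Z : Finset (Fin n)).biUnion (star R))), ?_, ?_⟩
  · intro f
    rw [Pot.sum_val]
    have h1 : ∑ Z : ↥((univ \ R).powerset), lam ^ (Z : Finset (Fin n)).card *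
        (bvPot a1 ((Z : Finset (Fin n)).biUnion (star R))).val (.init f)
        ≤ ∑ Z : ↥((univ \ R).powerset), 2 * ∏ _z ∈ (Z : Finset (Fin n)), (lam * (1 / 2 : ℝ) ^ r) := by
      refine Finset.sum_le_sum fun Z _ => ?_
      have h2 : (bvPot a1 ((Z : Finset (Fin n)).biUnion (star R))).val (.init f)
          ≤ 2 * (1 / 2 : ℝ) ^ (r * (Z : Finset (Fin n)).card) := by
        have h3 := bv_init ((Z : Finset (Fin n)).biUnion (star R)) f
        rw [card_biUnion' _ (hZR Z Z.2), hR] at h3
        exact h3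
      calc lam ^ (Z : Finset (Fin n)).card *
            (bvPot a1 ((Z : Finset (Fin n)).biUnion (star R))).val (.init f)
          ≤ lam ^ (Z : Finset (Fin n)).card * (2 * (1 / 2 : ℝ) ^ (r * (Z : Finset (Fin n)).card)) :=
            mul_le_mul_of_nonneg_left h2 (hc Z)
        _ = _ := by
            rw [Finset.prod_const, mul_pow, pow_mul]
            ring
    refine h1.trans ?_
    rw [← Finset.mul_sum, Finset.sum_coe_sort ((univ \ R).powerset)
      (fun Z : Finset (Fin n) => ∏ _z ∈ Z, (lam * (1 / 2 : ℝ) ^ r)), ← Finset.prod_one_add,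
      Finset.prod_const]
    refine mul_le_mul_of_nonneg_left ?_ (by norm_num)
    have hq : 0 ≤ lam * (1 / 2 : ℝ) ^ r := by positivity
    have h4 : 1 + lam * (1 / 2 : ℝ) ^ r ≤ Real.exp (lam * (1 / 2 : ℝ) ^ r) := by
      rw [add_comm]
      exact Real.add_one_le_exp _
    have h5 : (univ \ R : Finset (Fin n)).card ≤ n := by
      calc (univ \ R : Finset (Fin n)).card ≤ (univ : Finset (Fin n)).card :=
            Finset.card_le_card Finset.sdiff_subset
        _ = n := by simp
    calc (1 + lam * (1 / 2 : ℝ) ^ r) ^ (univ \ R : Finset (Fin n)).card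
        ≤ (1 + lam * (1 / 2 : ℝ) ^ r) ^ n := pow_le_pow_right₀ (by linarith) h5
      _ ≤ (Real.exp (lam * (1 / 2 : ℝ) ^ r)) ^ n := pow_le_pow_left₀ (by linarith) h4 n
      _ = Real.exp (lam * n * (1 / 2 : ℝ) ^ r) := by
          rw [← Real.exp_nat_mul]
          congr 1
          ring
  · intro H
    rw [Pot.sum_val]
    have h1 : ∑ Z : ↥((univ \ R).powerset), lam ^ (Z : Finset (Fin n)).card *
        (bvPot a1 ((Z : Finset (Fin n)).biUnion (star R))).val H
        = ∏ z ∈ univ \ R, (1 + lam * bv (star R z) H) := by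
      rw [Finset.prod_one_add, ← Finset.sum_coe_sort ((univ \ R).powerset)
        (fun Z : Finset (Fin n) => ∏ z ∈ Z, (lam * bv (star R z) H))]
      refine Finset.sum_congr rfl fun Z _ => ?_
      rw [Finset.prod_mul_distrib, Finset.prod_const]
      congr 1
      exact bv_biUnion H _ (hZR Z Z.2)
    rw [h1]
    unfold W
    rw [Real.rpow_sum_of_pos (by linarith)]
    refine Finset.prod_le_prod (fun z _ => by positivity) fun z _ => ?_
    have h2 := rpow_one_add_le_one_add_mul_self (s := lam) (by linarith)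
      (bv_nonneg (star R z) H) (bv_le_one (star R z) H)
    rw [mul_comm] at h2
    exact h2

end Pool.Agent.Work.MP_947296_co

end

section

set_option autoImplicit false

/-! MP_947296_co, item A3: the caps at all roots of size r. -/

namespace Pool.Agent.Work.MP_947296_co

open Finset Play

theorem capPot (a2 : RootPot) : CapPot := by
  intro n r lam cap eps hlam hle
  have h1 : ∀ R : {R : Finset (Fin n) // R.card = r}, ∃ Φ : Pot (Sym2 (Fin n)),
      (∀ f, Φ.val (.init f) ≤ 2 * Real.exp (lam * n * (1 / 2 : ℝ) ^ r)) ∧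
      ∀ H, (1 + lam) ^ (W (R : Finset (Fin n)) H) ≤ Φ.val H :=
    fun R => a2 n r R lam hlam.le R.2
  choose Φ hΦ1 hΦ2 using h1
  have hpos : 0 < (1 + lam) ^ cap := Real.rpow_pos_of_pos (by linarith) _
  have hc : ∀ _R : {R : Finset (Fin n) // R.card = r}, 0 ≤ ((1 + lam) ^ cap)⁻¹ :=
    fun _ => (inv_pos.2 hpos).le
  refine ⟨Pot.sum (fun _ : {R : Finset (Fin n) // R.card = r} => ((1 + lam) ^ cap)⁻¹) hc Φ,
    ?_, ?_⟩
  · intro f
    rw [Pot.sum_val]
    have h2 : ∑ R : {R : Finset (Fin n) // R.card = r}, ((1 + lam) ^ cap)⁻¹ *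
        (Φ R).val (.init f) ≤ ∑ _R : {R : Finset (Fin n) // R.card = r},
          ((1 + lam) ^ cap)⁻¹ * (2 * Real.exp (lam * n * (1 / 2 : ℝ) ^ r)) :=
      Finset.sum_le_sum fun R _ => mul_le_mul_of_nonneg_left (hΦ1 R f) (hc R)
    refine h2.trans ?_
    rw [Finset.sum_const, Finset.card_univ, Fintype.card_finset_len, Fintype.card_fin,
      nsmul_eq_mul]
    have h3 : (n.choose r : ℝ) * (((1 + lam) ^ cap)⁻¹ * (2 * Real.exp (lam * n * (1 / 2 : ℝ) ^ r)))
        = ((n.choose r : ℝ) * (2 * Real.exp (lam * n * (1 / 2 : ℝ) ^ r))) / (1 + lam) ^ cap := by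
      rw [div_eq_mul_inv]
      ring
    rw [h3, div_le_iff₀ hpos]
    exact hle
  · intro H hH R hR
    rw [Pot.sum_val] at hH
    have h2 : ((1 + lam) ^ cap)⁻¹ * (Φ ⟨R, hR⟩).val H ≤ 1 := by
      refine le_trans ?_ hH
      exact Finset.single_le_sum (f := fun R : {R : Finset (Fin n) // R.card = r} =>
        ((1 + lam) ^ cap)⁻¹ * (Φ R).val H)
        (fun R _ => mul_nonneg (hc R) ((Φ R).val_nonneg H)) (Finset.mem_univ _)
    have h3 : (1 + lam) ^ (W R H) ≤ (1 + lam) ^ cap := by
      refine (hΦ2 ⟨R, hR⟩ H).trans ?_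
      rw [inv_mul_le_iff₀ hpos, mul_one] at h2
      exact h2
    exact (Real.rpow_le_rpow_left_iff (by linarith)).1 h3

end Pool.Agent.Work.MP_947296_co

end

section

set_option autoImplicit false

/-! MP_947296_co, item B1: one level of the unoriented chain. -/

namespace Pool.Agent.Work.MP_947296_co

open Finset Play

namespace B1

/-- The last step of the argument. -/
theorem fin_arg {p b : ℕ} {q thr v : ℝ} (hp : 1 ≤ p) (hq : 0 ≤ q) (ht : 0 < thr)
    (h1 : ((1 / 2 : ℝ) ^ b) ^ p * q ^ p / 2 ≤ v) (h2 : v ≤ thr ^ p / 2) :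
    q * (1 / 2 : ℝ) ^ b ≤ thr := by
  have h3 : (q * (1 / 2 : ℝ) ^ b) ^ p ≤ thr ^ p := by
    rw [mul_pow]
    nlinarith
  exact (pow_le_pow_iff_left₀ (by positivity) ht.le (by omega)).1 h3

/-- The value of the summand. -/
theorem le_half {thr v : ℝ} {p : ℕ} (ht : 0 < thr) (h : 2 / thr ^ p * v ≤ 1) :
    v ≤ thr ^ p / 2 := by
  have h1 : 0 < thr ^ p := pow_pos ht p
  rw [div_mul_eq_mul_div, div_le_one h1] at h
  linarith

/-- Estimate of the spread. -/
theorem spread {b : ℕ} {θ thr q a : ℝ} (ht : 0 < thr) (hq : thr < q * (1 / 2 : ℝ) ^ b)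
    (ha : a * (1 / 2 : ℝ) ^ b ≤ θ) : a ≤ max θ 0 / thr * q := by
  have h2 : (0 : ℝ) < (1 / 2 : ℝ) ^ b := by positivity
  have h3 : 0 ≤ max θ 0 := le_max_right _ _
  have h4 : θ ≤ max θ 0 := le_max_left _ _
  rw [div_mul_eq_mul_div, le_div_iff₀ ht]
  have h5 : a * thr * (1 / 2 : ℝ) ^ b ≤ max θ 0 * q * (1 / 2 : ℝ) ^ b := by
    calc a * thr * (1 / 2 : ℝ) ^ b = (a * (1 / 2 : ℝ) ^ b) * thr := by ring
      _ ≤ max θ 0 * thr := mul_le_mul_of_nonneg_right (ha.trans h4) ht.le
      _ ≤ max θ 0 * (q * (1 / 2 : ℝ) ^ b) := mul_le_mul_of_nonneg_left hq.le h3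
      _ = _ := by ring
  exact le_of_mul_le_mul_right h5 h2

theorem spread0 {θ thr q : ℝ} (ht : 0 < thr) (hq : 0 ≤ q) : 0 ≤ max θ 0 / thr * q :=
  mul_nonneg (div_nonneg (le_max_right _ _) ht.le) hq

theorem overlap {p m Lam : ℕ} {θ thr : ℝ} (ht : 0 < thr)
    (h : (p : ℝ) ^ 2 * m * θ ≤ Lam * thr) : (p : ℝ) ^ 2 * (max θ 0 / thr) * m ≤ Lam := by
  rw [mul_div_assoc', div_mul_eq_mul_div, div_le_iff₀ ht]
  rcases le_total θ 0 with h0 | h0
  · rw [max_eq_right h0]
    have : (0 : ℝ) ≤ Lam * thr := by positivity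
    simpa using this
  · rw [max_eq_left h0]
    linarith

variable {n : ℕ}

/-- The number of the sets containing `J`. -/
theorem count (k j : ℕ) (J : Finset (Fin n)) (hJ : J.card = j) :
    ((univ : Finset (Finset (Fin n))).filter (fun S => J ⊆ S ∧ S.card = k)).card ≤
      n.choose (k - j) := by
  have h1 : (powersetCard (k - j) (univ : Finset (Fin n))).card = n.choose (k - j) := by
    rw [card_powersetCard, card_univ, Fintype.card_fin]
  rw [← h1]
  refine card_le_card_of_injOn (fun S => S \ J) ?_ ?_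
  · intro S hS
    have hS' := (mem_filter.1 (mem_coe.1 hS)).2
    rw [mem_coe, mem_powersetCard]
    refine ⟨subset_univ _, ?_⟩
    rw [card_sdiff_of_subset hS'.1, hS'.2, hJ]
  · intro S hS T hT hST
    have hS' := (mem_filter.1 (mem_coe.1 hS)).2
    have hT' := (mem_filter.1 (mem_coe.1 hT)).2
    have hST' : S \ J = T \ J := hST
    rw [← sdiff_union_of_subset hS'.1, ← sdiff_union_of_subset hT'.1, hST']

open Classical in
/-- The weight of an item. -/
noncomputable def gB (k : ℕ) (J S : Finset (Fin n)) : ℝ := if J ⊆ S ∧ S.card = k then 1 else 0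

theorem gB_nonneg (k : ℕ) (J S : Finset (Fin n)) : 0 ≤ gB k J S := by
  rw [gB]
  split_ifs
  · exact zero_le_one
  · exact le_rfl

theorem static (k b j : ℕ) (J : Finset (Fin n)) (hJ : J.card = j) :
    ∑ S : Finset (Fin n), gB k J S * (1 / 2 : ℝ) ^ (Ed S \ Ed J).card ≤
      (b + 1) * (n.choose (k - j)) * (1 / 2 : ℝ) ^ (k.choose 2 - j.choose 2) := by
  have h1 : ∀ S : Finset (Fin n), gB k J S * (1 / 2 : ℝ) ^ (Ed S \ Ed J).card =
      if J ⊆ S ∧ S.card = k then (1 / 2 : ℝ) ^ (k.choose 2 - j.choose 2) else 0 := by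
    intro S
    rw [gB]
    by_cases h : J ⊆ S ∧ S.card = k
    · rw [if_pos h, if_pos h, one_mul, card_sdiff_of_subset (Ed_mono h.1), card_Ed, card_Ed, h.2, hJ]
    · rw [if_neg h, if_neg h, zero_mul]
  rw [sum_congr rfl fun S _ => h1 S, ← sum_filter, sum_const, nsmul_eq_mul]
  have h2 : (((univ : Finset (Finset (Fin n))).filter
      (fun S => J ⊆ S ∧ S.card = k)).card : ℝ) ≤ (b + 1) * (n.choose (k - j)) := by
    have h3 : (((univ : Finset (Finset (Fin n))).filter
      (fun S => J ⊆ S ∧ S.card = k)).card : ℝ) ≤ (n.choose (k - j)) := by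
      exact_mod_cast count k j J hJ
    have h4 : (0 : ℝ) ≤ (b : ℝ) * (n.choose (k - j)) := by positivity
    linarith
  exact mul_le_mul_of_nonneg_right h2 (by positivity)

end B1

open B1 in
theorem levelB (t6 : FamPot) : LevelB := by
  classical
  intro n k b j p Lam thr eps hp hjk ht hE
  have hfam : ∀ J : {J : Finset (Fin n) // J.card = j}, ∃ Φ : Pot (Sym2 (Fin n)),
      (∀ f, Φ.val (.init f) ≤ 2 * 2 ^ Lam *
        ((b + 1) * (n.choose (k - j)) * (1 / 2 : ℝ) ^ (k.choose 2 - j.choose 2)) ^ p) ∧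
      ∀ (H : Play (Sym2 (Fin n))) (Q : Finset (Finset (Fin n))) (γ σ : ℝ) (m : ℕ), 0 ≤ γ →
        (∀ d ∈ Q, Closed (Ed d \ Ed J.1) b H) →
        (∀ d ∈ Q, γ ≤ gB k J.1 d * (1 / 2 : ℝ) ^ b) →
        (∀ d ∈ Q, (Ed d \ Ed J.1).card ≤ m) →
        (∀ e, ((Q.filter (fun d => e ∈ Ed d \ Ed J.1)).card : ℝ) ≤ σ * Q.card) →
        (p : ℝ) ^ 2 * σ * m ≤ Lam →
        γ ^ p * (Q.card : ℝ) ^ p / 2 ≤ Φ.val H := by
    intro J
    obtain ⟨Φ, h1, h2⟩ := t6 (Sym2 (Fin n)) (Finset (Fin n)) (fun S => Ed S \ Ed J.1)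
      (fun _ => b) (gB k J.1) p Lam (gB_nonneg k J.1)
    refine ⟨Φ, fun f => (h1 f).trans ?_, ?_⟩
    · refine mul_le_mul_of_nonneg_left ?_ (by positivity)
      exact pow_le_pow_left₀ (sum_nonneg fun S _ => mul_nonneg (gB_nonneg _ _ _) (by positivity))
        (static k b j J.1 J.2) p
    · intro H Q γ σ m a1 a2 a3 a4 a5 a6
      refine h2 H Q γ σ m a1 a2 a3 a4 (fun e => ?_) a6
      convert a5 e
  choose Φ hΦ1 hΦ2 using hfam
  have hc : (0 : ℝ) ≤ 2 / thr ^ p := by positivity
  refine ⟨Pot.sum (fun _ : {J : Finset (Fin n) // J.card = j} => 2 / thr ^ p) (fun _ => hc) Φ,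
    fun f => ?_, ?_⟩
  · rw [Pot.sum_val]
    refine le_trans (sum_le_sum fun J _ => mul_le_mul_of_nonneg_left (hΦ1 J f) hc) ?_
    rw [sum_const, card_univ, Fintype.card_finset_len, Fintype.card_fin, nsmul_eq_mul]
    refine le_trans (le_of_eq ?_) hE
    ring
  · intro H hH J hJ θ hθ hLam
    rw [Pot.sum_val] at hH
    have h1 : 2 / thr ^ p * (Φ ⟨J, hJ⟩).val H ≤ 1 := by
      refine le_trans ?_ hH
      exact single_le_sum (f := fun d => 2 / thr ^ p * (Φ d).val H)
        (fun d _ => mul_nonneg hc ((Φ d).val_nonneg H)) (mem_univ (⟨J, hJ⟩ : {J // J.card = j}))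
    by_contra hcon
    rw [not_le] at hcon
    have hmem : ∀ S ∈ MS k b H J, S.card = k ∧ J ⊆ S ∧ Closed (Ed S) b H := by
      intro S hS
      rw [MS, mem_filter, mem_powersetCard] at hS
      exact ⟨hS.1.2, hS.2⟩
    have hsub : ∀ x, ((MS k b H J).filter (fun S => x ∈ S)) ⊆ MS k b H (insert x J) := by
      intro x S hS
      rw [mem_filter] at hS
      obtain ⟨h2, h3, h4⟩ := hmem S hS.1
      rw [MS, mem_filter, mem_powersetCard]
      exact ⟨⟨subset_univ _, h2⟩, insert_subset hS.2 h3, h4⟩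
    have hkey := hΦ2 ⟨J, hJ⟩ H (MS k b H J) ((1 / 2 : ℝ) ^ b) (max θ 0 / thr) (k.choose 2)
      (by positivity) ?_ ?_ ?_ ?_ (overlap ht hLam)
    · exact absurd (fin_arg hp (by positivity) ht hkey (le_half ht h1)) (not_le.2 hcon)
    · intro S hS
      obtain ⟨h2, h3, H', h4, h5, h6⟩ := hmem S hS
      refine ⟨H', h4, h5.mono_right sdiff_subset, le_trans (card_le_card ?_) h6⟩
      exact sdiff_subset_sdiff sdiff_subset (Subset.refl _)
    · intro S hS
      obtain ⟨h2, h3, h4⟩ := hmem S hS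
      rw [gB, if_pos ⟨h3, h2⟩, one_mul]
    · intro S hS
      obtain ⟨h2, h3, h4⟩ := hmem S hS
      refine (card_le_card sdiff_subset).trans ?_
      rw [card_Ed, h2]
    · intro e
      induction e using Sym2.ind with
      | _ x y =>
        by_cases hx : x ∈ J
        · by_cases hy : y ∈ J
          · have h2 : (MS k b H J).filter (fun d => s(x, y) ∈ Ed d \ Ed J) = ∅ := by
              rw [filter_eq_empty_iff]
              intro S _ h3
              rw [mem_sdiff, mem_Ed, mem_Ed] at h3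
              exact h3.2 ⟨hx, hy, h3.1.2.2⟩
            rw [h2, card_empty, Nat.cast_zero]
            exact spread0 ht (by positivity)
          · refine spread ht hcon (le_trans ?_ (hθ y hy))
            refine mul_le_mul_of_nonneg_right ?_ (by positivity)
            refine Nat.cast_le.2 (card_le_card (Subset.trans ?_ (hsub y)))
            intro S hS
            rw [mem_filter] at hS ⊢
            exact ⟨hS.1, (mem_Ed.1 (mem_sdiff.1 hS.2).1).2.1⟩
        · refine spread ht hcon (le_trans ?_ (hθ x hx))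
          refine mul_le_mul_of_nonneg_right ?_ (by positivity)
          refine Nat.cast_le.2 (card_le_card (Subset.trans ?_ (hsub x)))
          intro S hS
          rw [mem_filter] at hS ⊢
          exact ⟨hS.1, (mem_Ed.1 (mem_sdiff.1 hS.2).1).1⟩

end Pool.Agent.Work.MP_947296_co

end

section

set_option autoImplicit false

/-! [C1] AM-GM for the transversals of the colour classes. -/

namespace Pool.Agent.Work.MP_947296_co

open Finset

namespace ItemC1

open Classical in
/-- Sums over injective sets with colours in `C`. -/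
theorem tsum_le {n k : ℕ} (c : Fin n → Fin k) (a : Fin n → ℝ) (V : Finset (Fin n)) :
    ∀ C : Finset (Fin k),
      ∑ Y ∈ V.powerset, (if Set.InjOn c (Y : Set (Fin n)) ∧ ∀ y ∈ Y, c y ∈ C then
        ∏ z ∈ Y, a z else 0) = ∏ i ∈ C, (1 + ∑ z ∈ V.filter (fun z => c z = i), a z) := by
  induction V using Finset.induction_on with
  | empty => intro C; simp
  | insert z V hz ih =>
    intro C
    rw [Finset.sum_powerset_insert hz, ih C]
    by_cases hC : c z ∈ C
    · have h1 : ∑ t ∈ V.powerset, (if Set.InjOn c ((insert z t : Finset (Fin n)) : Set (Fin n)) ∧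
          ∀ y ∈ insert z t, c y ∈ C then ∏ z ∈ insert z t, a z else 0) =
          a z * ∏ i ∈ C.erase (c z), (1 + ∑ z ∈ V.filter (fun z => c z = i), a z) := by
        rw [← ih (C.erase (c z)), Finset.mul_sum]
        refine Finset.sum_congr rfl fun t ht => ?_
        have hzt : z ∉ t := fun h => hz (Finset.mem_powerset.1 ht h)
        rw [Finset.prod_insert hzt, mul_ite, mul_zero]
        congr 1
        rw [Finset.coe_insert, Set.injOn_insert (by simpa using hzt)]
        refine propext ⟨?_, ?_⟩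
        · rintro ⟨⟨h1, h2⟩, h3⟩
          refine ⟨h1, fun y hy => Finset.mem_erase.2 ⟨?_, h3 y (Finset.mem_insert_of_mem hy)⟩⟩
          intro h
          exact h2 ⟨y, hy, h⟩
        · rintro ⟨h1, h2⟩
          refine ⟨⟨h1, ?_⟩, ?_⟩
          · rintro ⟨y, hy, h⟩
            exact (Finset.mem_erase.1 (h2 y hy)).1 h
          · intro y hy
            rcases Finset.mem_insert.1 hy with h | h
            · rw [h]; exact hC
            · exact (Finset.mem_erase.1 (h2 y h)).2
      rw [h1, ← Finset.mul_prod_erase C _ hC, ← Finset.mul_prod_erase C _ hC]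
      have h2 : ∏ i ∈ C.erase (c z), (1 + ∑ x ∈ (insert z V).filter (fun x => c x = i), a x) =
          ∏ i ∈ C.erase (c z), (1 + ∑ x ∈ V.filter (fun x => c x = i), a x) := by
        refine Finset.prod_congr rfl fun i hi => ?_
        rw [Finset.filter_insert, if_neg (fun h => (Finset.mem_erase.1 hi).1 h.symm)]
      rw [h2, Finset.filter_insert, if_pos rfl, Finset.sum_insert (by simp [hz])]
      ring
    · have h1 : ∑ t ∈ V.powerset, (if Set.InjOn c ((insert z t : Finset (Fin n)) : Set (Fin n)) ∧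
          ∀ y ∈ insert z t, c y ∈ C then ∏ z ∈ insert z t, a z else 0) = 0 := by
        refine Finset.sum_eq_zero fun t ht => ?_
        rw [if_neg]
        rintro ⟨-, h⟩
        exact hC (h z (Finset.mem_insert_self z t))
      rw [h1, add_zero]
      refine Finset.prod_congr rfl fun i hi => ?_
      rw [Finset.filter_insert, if_neg (fun h => hC (by rw [h]; exact hi))]

theorem amgm {k : ℕ} (hk : 1 ≤ k) (x : Fin k → ℝ) (hx : ∀ i, 0 ≤ x i) :
    ∏ i, x i ≤ ((∑ i, x i) / k) ^ k := by
  have hk' : (0 : ℝ) < k := by exact_mod_cast hk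
  have h := Real.geom_mean_le_arith_mean (Finset.univ : Finset (Fin k)) (fun _ => (1 : ℝ)) x
    (fun _ _ => zero_le_one) (by simpa using hk') (fun i _ => hx i)
  simp only [Real.rpow_one, Finset.sum_const, Finset.card_univ, Fintype.card_fin, nsmul_eq_mul,
    mul_one, one_mul] at h
  have hP : 0 ≤ ∏ i, x i := Finset.prod_nonneg fun i _ => hx i
  calc ∏ i, x i = ((∏ i, x i) ^ ((k : ℝ)⁻¹)) ^ k := by
        rw [Real.rpow_inv_natCast_pow hP (by omega)]
    _ ≤ _ := pow_le_pow_left₀ (Real.rpow_nonneg hP _) h k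

open Classical in
/-- Bridge between a sum over sets obtained from finsets and a sum over finsets. -/
theorem bridge {n : ℕ} (F : Finset (Finset (Fin n))) (p : Set (Fin n) → Prop)
    (f : Finset (Fin n) → ℝ) :
    ∑ Y ∈ (do
        let a ← F
        pure (↑a : Set (Fin n))) with p Y, f Y.toFinset =
      ∑ Y ∈ F.filter (fun Y : Finset (Fin n) => p (Y : Set (Fin n))), f Y := by
  have h1 : (do
        let a ← F
        pure (↑a : Set (Fin n)) : Finset (Set (Fin n))) =
      F.image (fun a : Finset (Fin n) => (a : Set (Fin n))) := by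
    ext Y
    simp only [Finset.bind_def, Finset.pure_def, Finset.mem_sup, Finset.mem_singleton,
      Finset.mem_image]
    constructor
    · rintro ⟨a, ha, h⟩; exact ⟨a, ha, h.symm⟩
    · rintro ⟨a, ha, h⟩; exact ⟨a, ha, h.symm⟩
  rw [h1, Finset.filter_image, Finset.sum_image (fun a _ b _ h => Finset.coe_injective h)]
  refine Finset.sum_congr rfl fun Y _ => ?_
  congr 1
  ext z
  simp

theorem main {n k j : ℕ} (V : Finset (Fin n)) (c : Fin n → Fin k) (ω : Fin n → ℝ) (w : ℝ)
    (hj : j ≤ k) (hk : 1 ≤ k) (hω : ∀ z, 0 ≤ ω z) (hw : ∑ z ∈ V, ω z ≤ w) (hw0 : 0 < w)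
    (F : Finset (Finset (Fin n)))
    (hF : ∀ Y, Y ∈ F ↔ Y ∈ powersetCard j V ∧ Set.InjOn c (Y : Set (Fin n))) :
    ∑ Y ∈ F, ∏ z ∈ Y, ω z ≤ 3 * (k : ℝ) ^ (k - j) * (w / k) ^ j := by
  classical
  have hk' : (0 : ℝ) < k := by exact_mod_cast hk
  set t : ℝ := (k : ℝ) ^ 2 / w with ht
  have ht0 : 0 < t := by positivity
  have h1 := tsum_le c (fun z => t * ω z) V Finset.univ
  have h2 : ∏ i : Fin k, (1 + ∑ z ∈ V.filter (fun z => c z = i), t * ω z) ≤ (1 + (k : ℝ)) ^ k := by
    refine (amgm hk _ fun i => ?_).trans ?_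
    · have : 0 ≤ ∑ z ∈ V.filter (fun z => c z = i), t * ω z :=
        Finset.sum_nonneg fun z _ => mul_nonneg ht0.le (hω z)
      linarith
    · refine pow_le_pow_left₀ ?_ ?_ k
      · refine div_nonneg (Finset.sum_nonneg fun i _ => ?_) hk'.le
        have : 0 ≤ ∑ z ∈ V.filter (fun z => c z = i), t * ω z :=
          Finset.sum_nonneg fun z _ => mul_nonneg ht0.le (hω z)
        linarith
      · rw [Finset.sum_add_distrib, Finset.sum_fiberwise V c (fun z => t * ω z), ← Finset.mul_sum,
          div_le_iff₀ hk']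
        simp only [Finset.sum_const, Finset.card_univ, Fintype.card_fin, nsmul_eq_mul, mul_one]
        have h3 : t * ∑ z ∈ V, ω z ≤ t * w := mul_le_mul_of_nonneg_left hw ht0.le
        have h4 : t * w = (k : ℝ) ^ 2 := by rw [ht]; field_simp
        nlinarith
  have h3 : (∑ Y ∈ F, ∏ z ∈ Y, ω z) * t ^ j ≤ (1 + (k : ℝ)) ^ k := by
    refine le_trans ?_ (h1.le.trans h2)
    rw [Finset.sum_mul]
    have h4 : ∑ Y ∈ F, (∏ z ∈ Y, ω z) * t ^ j =
        ∑ Y ∈ F, (if Set.InjOn c (Y : Set (Fin n)) ∧ ∀ y ∈ Y, c y ∈ (Finset.univ : Finset (Fin k)) then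
            ∏ z ∈ Y, t * ω z else 0) := by
      refine Finset.sum_congr rfl fun Y hY => ?_
      obtain ⟨hY1, hY2⟩ := (hF Y).1 hY
      rw [if_pos ⟨hY2, fun y _ => Finset.mem_univ _⟩, Finset.prod_mul_distrib, Finset.prod_const,
        (Finset.mem_powersetCard.1 hY1).2]
      ring
    rw [h4]
    refine Finset.sum_le_sum_of_subset_of_nonneg ?_ ?_
    · intro Y hY
      obtain ⟨hY1, -⟩ := (hF Y).1 hY
      exact Finset.mem_powerset.2 (Finset.mem_powersetCard.1 hY1).1
    · intro Y _ _
      split_ifs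
      · exact Finset.prod_nonneg fun z _ => mul_nonneg ht0.le (hω z)
      · exact le_rfl
  have h5 : (1 + (k : ℝ)) ^ k ≤ 3 * (k : ℝ) ^ k := by
    have h6 : (1 + 1 / (k : ℝ)) ^ k ≤ 3 := by
      have h7 : (1 + 1 / (k : ℝ)) ^ k ≤ Real.exp (1 / (k : ℝ)) ^ k := by
        refine pow_le_pow_left₀ (by positivity) ?_ k
        rw [add_comm]
        exact Real.add_one_le_exp _
      rw [← Real.exp_nat_mul, mul_one_div_cancel hk'.ne'] at h7
      have := Real.exp_one_lt_d9
      linarith
    have h8 : (1 + (k : ℝ)) ^ k = (1 + 1 / (k : ℝ)) ^ k * (k : ℝ) ^ k := by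
      rw [← mul_pow]; congr 1; field_simp; ring
    rw [h8]
    exact mul_le_mul_of_nonneg_right h6 (by positivity)
  have h6 : 3 * (k : ℝ) ^ (k - j) * (w / k) ^ j * t ^ j = 3 * (k : ℝ) ^ k := by
    have h7 : (k : ℝ) ^ k = (k : ℝ) ^ (k - j) * (k : ℝ) ^ j := by
      rw [← pow_add]; congr 1; omega
    rw [h7, mul_assoc (3 * (k : ℝ) ^ (k - j)), ← mul_pow]
    have h8 : w / k * t = k := by rw [ht]; field_simp
    rw [h8]; ring
  have h7 := h3.trans (h5.trans h6.symm.le)
  exact le_of_mul_le_mul_right h7 (by positivity)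

end ItemC1

open ItemC1 in
theorem transversal : Transversal := by
  classical
  intro n k j V c ω w hj hk hω hw hw0
  refine le_trans (le_of_eq ?_) (main V c ω w hj hk hω hw hw0
    ((powersetCard j V).filter (fun Y : Finset (Fin n) => Set.InjOn c (Y : Set (Fin n))))
    (fun Y => Finset.mem_filter))
  convert bridge (powersetCard j V) (fun Y => Set.InjOn c Y) (fun Y => ∏ z ∈ Y, ω z) using 2
  ext Y
  simp only [Finset.mem_filter]

end Pool.Agent.Work.MP_947296_co

end

section

set_option autoImplicit false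

namespace Pool.Agent.Work.MP_947296_co

open Finset Play

namespace ItemC3

theorem sum_le_of_inj {α γ : Type} [DecidableEq γ] (s : Finset α) (t : Finset γ) (f : α → ℝ)
    (g : γ → ℝ) (i : α → γ) (hi : ∀ a ∈ s, i a ∈ t) (hinj : Set.InjOn i (s : Set α))
    (hfg : ∀ a ∈ s, f a ≤ g (i a)) (hg : ∀ c ∈ t, 0 ≤ g c) :
    ∑ a ∈ s, f a ≤ ∑ c ∈ t, g c := by
  calc ∑ a ∈ s, f a ≤ ∑ a ∈ s, g (i a) := sum_le_sum hfg
    _ = ∑ c ∈ s.image i, g c := (sum_image hinj).symm
    _ ≤ ∑ c ∈ t, g c := by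
        refine sum_le_sum_of_subset_of_nonneg ?_ fun c hc _ => hg c hc
        intro c hc
        obtain ⟨a, ha, rfl⟩ := mem_image.1 hc
        exact hi a ha

theorem sw_nonneg {N : ℕ} (s : St N) (κ : ℕ) : 0 ≤ sw s κ := by
  rcases s with _ | ⟨_ | _, s⟩ <;> simp only [sw]
  · norm_num
  · split_ifs <;> norm_num
  · split_ifs <;> norm_num

theorem sw_le_one {N : ℕ} (s : St N) (κ : ℕ) : sw s κ ≤ 1 := by
  rcases s with _ | ⟨_ | _, s⟩ <;> simp only [sw]
  · norm_num
  · split_ifs <;> norm_num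
  · split_ifs <;> norm_num

variable {n N : ℕ} {R : Finset (Fin n)}

theorem om_nonneg (h : ↥R → Fin n → St N) (κ : ℕ) (z : Fin n) : 0 ≤ om h κ z :=
  prod_nonneg fun _ _ => sw_nonneg _ _

theorem om_le_one (h : ↥R → Fin n → St N) (κ : ℕ) (z : Fin n) : om h κ z ≤ 1 :=
  prod_le_one (fun _ _ => sw_nonneg _ _) fun _ _ => sw_le_one _ _

/-- valid sets for the option `o` -/
def VS {k : ℕ} (x0 : ℕ) (c : Fin n → Fin k) (R : Finset (Fin n)) (o : Option (↥R × Fin n))
    (S : Finset (Fin n)) : Prop :=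
  R ⊆ S ∧ S.card = k ∧ NearInj x0 c (S \ R) ∧ ∀ p : ↥R × Fin n, o = some p → p.2 ∈ S \ R

open Classical in
/-- the sum over the valid sets -/
noncomputable def GS {k : ℕ} (x0 : ℕ) (c : Fin n → Fin k) (R : Finset (Fin n))
    (h : ↥R → Fin n → St N) (o : Option (↥R × Fin n)) : ℝ :=
  ∑ S ∈ univ.filter (fun S => VS x0 c R o S), ∏ z ∈ S \ R, om h (kap h o) z

theorem nearInj_mono {k : ℕ} {x0 : ℕ} {c : Fin n → Fin k} {Y Z : Finset (Fin n)} (h : Y ⊆ Z)
    (hZ : NearInj x0 c Z) : NearInj x0 c Y := by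
  obtain ⟨X, h1, h2, h3⟩ := hZ
  refine ⟨X ∩ Y, inter_subset_right, le_trans (card_le_card inter_subset_left) h2, ?_⟩
  refine h3.mono ?_
  intro y hy
  simp only [coe_sdiff, coe_inter, Set.mem_sdiff, Set.mem_inter_iff, mem_coe, not_and] at hy ⊢
  exact ⟨h hy.1, fun hX => hy.2 hX hy.1⟩

theorem GS_none (c2 : NearTransversal) {k r : ℕ} (x0 : ℕ) (cap : ℝ) (c : Fin n → Fin k)
    (h : ↥R → Fin n → St N) (hR : R.card = r) (hr : r < k) (hcap : 0 < cap)
    (hC : Capped h cap) :
    GS x0 c R h none ≤ (x0 + 1) * (3 * (k : ℝ) ^ (r + 2 * x0)) * (cap / k) ^ (k - r) := by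
  classical
  have h1 := c2 n k (k - r) x0 (univ \ R) c (om h 0) cap (Nat.sub_le _ _) (by omega)
    (om_nonneg h 0) (hC 0) hcap
  have e : k - (k - r) + 2 * x0 = r + 2 * x0 := by omega
  rw [e] at h1
  refine le_trans ?_ h1
  rw [GS]
  refine sum_le_of_inj _ _ _ _ (fun S => S \ R) ?_ ?_ ?_ ?_
  · intro S hS
    obtain ⟨h2, h3, h4, _⟩ := (mem_filter.1 hS).2
    refine mem_filter.2 ⟨mem_powersetCard.2 ⟨sdiff_subset_sdiff (subset_univ _) (Subset.refl _),
      ?_⟩, h4⟩
    rw [card_sdiff_of_subset h2, h3, hR]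
  · intro S hS S' hS' hE
    have h2 := (mem_filter.1 (mem_coe.1 hS)).2.1
    have h2' := (mem_filter.1 (mem_coe.1 hS')).2.1
    have hE' : S \ R = S' \ R := hE
    rw [← sdiff_union_of_subset h2, hE', sdiff_union_of_subset h2']
  · intro S hS
    exact le_rfl
  · intro Y _
    exact prod_nonneg fun z _ => om_nonneg _ _ _

theorem GS_some (c2 : NearTransversal) {k r : ℕ} (x0 : ℕ) (cap : ℝ) (c : Fin n → Fin k)
    (h : ↥R → Fin n → St N) (hR : R.card = r) (hr : r < k) (hcap : 0 < cap)
    (hC : Capped h cap) (p : ↥R × Fin n) :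
    GS x0 c R h (some p) ≤ (x0 + 1) * (3 * (k : ℝ) ^ (r + 2 * x0)) * (cap / k) ^ (k - r) *
      ((k : ℝ) ^ 2 / cap) := by
  classical
  set κ := kap h (some p) with hκ
  have h1 := c2 n k (k - r - 1) x0 (univ \ R) c (om h κ) cap (by omega) (by omega)
    (om_nonneg h κ) (hC κ) hcap
  have e : k - (k - r - 1) + 2 * x0 = r + 2 * x0 + 1 := by omega
  have hk0 : (0 : ℝ) < k := by
    have : 0 < k := by omega
    exact_mod_cast this
  have e2 : (x0 + 1) * (3 * (k : ℝ) ^ (r + 2 * x0)) * (cap / k) ^ (k - r) *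
      ((k : ℝ) ^ 2 / cap) =
      (x0 + 1) * (3 * (k : ℝ) ^ (k - (k - r - 1) + 2 * x0)) * (cap / k) ^ (k - r - 1) := by
    have e3 : k - r = (k - r - 1) + 1 := by omega
    rw [e]
    have e4 : (cap / k) ^ (k - r) = (cap / k) ^ (k - r - 1) * (cap / k) := by
      conv_lhs => rw [e3]
      rw [pow_succ]
    rw [e4, pow_succ (k : ℝ) (r + 2 * x0)]
    field_simp
  rw [e2]
  refine le_trans ?_ h1
  rw [GS]
  refine sum_le_of_inj _ _ _ _ (fun S => (S \ R).erase p.2) ?_ ?_ ?_ ?_
  · intro S hS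
    obtain ⟨h2, h3, h4, h5⟩ := (mem_filter.1 hS).2
    refine mem_filter.2 ⟨mem_powersetCard.2 ⟨(erase_subset _ _).trans
      (sdiff_subset_sdiff (subset_univ _) (Subset.refl _)), ?_⟩,
      nearInj_mono (erase_subset _ _) h4⟩
    rw [card_erase_of_mem (h5 p rfl), card_sdiff_of_subset h2, h3, hR]
  · intro S hS S' hS' hE
    obtain ⟨h2, _, _, h5⟩ := (mem_filter.1 (mem_coe.1 hS)).2
    obtain ⟨h2', _, _, h5'⟩ := (mem_filter.1 (mem_coe.1 hS')).2
    have hE' : (S \ R).erase p.2 = (S' \ R).erase p.2 := hE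
    have h6 : S \ R = S' \ R := by
      rw [← insert_erase (h5 p rfl), hE', insert_erase (h5' p rfl)]
    rw [← sdiff_union_of_subset h2, h6, sdiff_union_of_subset h2']
  · intro S hS
    obtain ⟨_, _, _, h5⟩ := (mem_filter.1 hS).2
    show ∏ z ∈ S \ R, om h κ z ≤ ∏ z ∈ (S \ R).erase p.2, om h κ z
    rw [← mul_prod_erase (S \ R) (fun z => om h κ z) (h5 p rfl)]
    exact mul_le_of_le_one_left (prod_nonneg fun z _ => om_nonneg _ _ _) (om_le_one _ _ _)
  · intro Y _
    exact prod_nonneg fun z _ => om_nonneg _ _ _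

end ItemC3

theorem itemSum (c2 : NearTransversal) : ItemSum := by
  classical
  intro n k b x0 r N cap c R h hR hr hcap
  have hk0 : (0 : ℝ) < k := by
    have : 0 < k := by omega
    exact_mod_cast this
  by_cases hC : Capped h cap
  · set q : ℝ := (1 / 2 : ℝ) ^ ((k - r).choose 2) with hq
    have hq0 : 0 ≤ q := by positivity
    set A : ℝ := (x0 + 1) * (3 * (k : ℝ) ^ (r + 2 * x0)) * (cap / k) ^ (k - r) with hA
    have hA0 : 0 ≤ A := by positivity
    have h1 : ∀ (S : Finset (Fin n)) (o : Option (↥R × Fin n)) (b' : Fin (b + 1)),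
        gC b x0 cap c R h (S, o, b') * (1 / 2 : ℝ) ^ (Ed (S \ R)).card =
          (if ItemC3.VS x0 c R o S then ∏ z ∈ S \ R, om h (kap h o) z else 0) * q := by
      intro S o b'
      by_cases hv : ItemC3.VS x0 c R o S
      · have hv' : Capped h cap ∧ ValidC b x0 c R ((S, o, b') : DC b R) := ⟨hC, hv⟩
        rw [gC, if_pos hv', if_pos hv, card_Ed, card_sdiff_of_subset hv.1, hv.2.1, hR]
      · have hv' : ¬ (Capped h cap ∧ ValidC b x0 c R ((S, o, b') : DC b R)) :=
          fun hh => hv hh.2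
        rw [gC, if_neg hv', if_neg hv]
        simp
    have h2 : ∑ d : DC b R, gC b x0 cap c R h d * (1 / 2 : ℝ) ^ (Ed (d.1 \ R)).card =
        (b + 1) * q * ∑ o : Option (↥R × Fin n), ItemC3.GS x0 c R h o := by
      rw [Fintype.sum_prod_type]
      simp only [Fintype.sum_prod_type]
      rw [Finset.sum_comm]
      simp only [h1]
      rw [Finset.mul_sum]
      refine Finset.sum_congr rfl fun o _ => ?_
      rw [ItemC3.GS, Finset.sum_filter, Finset.mul_sum]
      refine Finset.sum_congr rfl fun S _ => ?_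
      rw [Finset.sum_const, Finset.card_univ, Fintype.card_fin, nsmul_eq_mul]
      push_cast
      ring
    rw [h2, Fintype.sum_option]
    have h3 := ItemC3.GS_none c2 x0 cap c h hR hr hcap hC
    have h4 : ∑ p : ↥R × Fin n, ItemC3.GS x0 c R h (some p) ≤
        ∑ p : ↥R × Fin n, A * ((k : ℝ) ^ 2 / cap) :=
      Finset.sum_le_sum fun p _ => ItemC3.GS_some c2 x0 cap c h hR hr hcap hC p
    rw [Finset.sum_const, Finset.card_univ, Fintype.card_prod, Fintype.card_coe, hR,
      Fintype.card_fin, nsmul_eq_mul] at h4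
    have h5 : stat n k b x0 r cap = (b + 1) * q * (A + ((r * n : ℕ) : ℝ) *
        (A * ((k : ℝ) ^ 2 / cap))) := by
      rw [stat, ← hq, ← hA]
      push_cast
      ring
    rw [h5]
    apply mul_le_mul_of_nonneg_left _ (by positivity)
    exact add_le_add h3 h4
  · have h0 : ∀ d : DC b R, gC b x0 cap c R h d * (1 / 2 : ℝ) ^ (Ed (d.1 \ R)).card = 0 := by
      intro d
      have hv' : ¬ (Capped h cap ∧ ValidC b x0 c R d) := fun hh => hC hh.1
      rw [gC, if_neg hv', zero_mul]
    rw [Finset.sum_congr rfl fun d _ => h0 d, Finset.sum_const_zero, stat]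
    positivity

end Pool.Agent.Work.MP_947296_co

end

section

set_option autoImplicit false

/-! MP_947296_co, item C4: time stamps. -/

namespace Pool.Agent.Work.MP_947296_co

open Finset Play

namespace ItemC4

variable {E : Type} [DecidableEq E]

/-- the number of claimed edges just after the claim of `x` -/
def tm : Play E → E → ℕ
  | .init _, _ => 1
  | .step H e f, x => if x ∈ H.cl then tm H x else (Play.step H e f).cl.card

theorem tm_le {H : Play E} {x : E} (hx : x ∈ H.cl) : 1 ≤ tm H x ∧ tm H x ≤ H.cl.card := by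
  induction H with
  | init f => simp [tm]
  | step H e f ih =>
    have hpos : 1 ≤ (Play.step H e f).cl.card := Finset.card_pos.2 ⟨x, hx⟩
    simp only [tm]
    split_ifs with h
    · exact ⟨(ih h).1, (ih h).2.trans (card_le_card (cl_sub_step H e f))⟩
    · exact ⟨hpos, le_rfl⟩

theorem card_lt {H : Play E} {e f x : E} (hx : x ∈ (Play.step H e f).cl) (h : x ∉ H.cl) :
    H.cl.card < (Play.step H e f).cl.card :=
  Finset.card_lt_card ⟨cl_sub_step H e f, fun hs => h (hs hx)⟩

theorem tm_pre {H H' : Play E} (hp : Pre H' H) {x : E} (hx : x ∈ H.cl) :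
    x ∈ H'.cl ↔ tm H x ≤ H'.cl.card := by
  induction H with
  | init f =>
    rw [pre_init hp]
    simp only [cl_init, Finset.mem_singleton] at hx
    simp [tm, hx]
  | step H e f ih =>
    rcases pre_step hp with hp | hp
    · rw [hp]
      exact ⟨fun _ => (tm_le hx).2, fun _ => hx⟩
    · simp only [tm]
      split_ifs with h
      · exact ih hp h
      · have h1 := card_lt hx h
        have h2 := card_le_card hp.cl_sub
        constructor
        · intro h3
          exact absurd (hp.cl_sub h3) h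
        · intro h3
          omega

theorem tm_cut (H : Play E) (κ : ℕ) (hκ : 1 ≤ κ) :
    ∃ H', Pre H' H ∧ ∀ x ∈ H.cl, (x ∈ H'.cl ↔ tm H x ≤ κ) := by
  induction H with
  | init f =>
    refine ⟨_, .refl _, fun x hx => ?_⟩
    simp only [cl_init, Finset.mem_singleton] at hx
    simp [tm, hx, hκ]
  | step H e f ih =>
    by_cases hc : (Play.step H e f).cl.card ≤ κ
    · refine ⟨_, .refl _, fun x hx => ?_⟩
      exact ⟨fun _ => (tm_le hx).2.trans hc, fun _ => hx⟩
    · obtain ⟨H', h1, h2⟩ := ih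
      refine ⟨H', .step e f h1, fun x hx => ?_⟩
      simp only [tm]
      split_ifs with h
      · exact h2 x h
      · constructor
        · intro h3
          exact absurd (h1.cl_sub h3) h
        · intro h3
          exact absurd h3 hc

end ItemC4

open Classical in
theorem stamps : Stamps := by
  intro E _ _ H
  have hlt : ∀ x, min (ItemC4.tm H x) (Fintype.card E) < Fintype.card E + 1 := fun x =>
    Nat.lt_succ_of_le (min_le_right _ _)
  have hval : ∀ x ∈ H.cl, min (ItemC4.tm H x) (Fintype.card E) = ItemC4.tm H x := fun x hx =>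
    min_eq_left ((ItemC4.tm_le hx).2.trans (Finset.card_le_univ _))
  refine ⟨fun x => if x ∈ H.cl then
    some (decide (x ∈ H.M), ⟨min (ItemC4.tm H x) (Fintype.card E), hlt x⟩) else none, ?_⟩
  have key : ∀ e o (s : Fin (Fintype.card E + 1)), (if e ∈ H.cl then
      some (decide (e ∈ H.M), (⟨min (ItemC4.tm H e) (Fintype.card E), hlt e⟩ :
        Fin (Fintype.card E + 1))) else none) = some (o, s) →
      e ∈ H.cl ∧ o = decide (e ∈ H.M) ∧ (s : ℕ) = ItemC4.tm H e := by
    intro e o s h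
    split_ifs at h with he
    simp only [Option.some.injEq, Prod.mk.injEq] at h
    refine ⟨he, h.1.symm, ?_⟩
    rw [← h.2]
    exact hval e he
  refine ⟨?_, ?_, ?_, ?_, ?_⟩
  · intro e
    by_cases he : e ∈ H.cl <;> simp [he]
  · intro e o s h
    obtain ⟨h1, h2, h3⟩ := key e o s h
    rw [h2]
    simp
  · intro e o s h
    obtain ⟨h1, h2, h3⟩ := key e o s h
    rw [h3]
    exact (ItemC4.tm_le h1).1
  · intro H' hp e o s h
    obtain ⟨h1, h2, h3⟩ := key e o s h
    rw [h3]
    exact ItemC4.tm_pre hp h1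
  · intro κ hκ
    obtain ⟨H', hp, hc⟩ := ItemC4.tm_cut H κ hκ
    refine ⟨H', hp, fun e o s h => ?_⟩
    obtain ⟨h1, h2, h3⟩ := key e o s h
    rw [h3]
    exact hc e h1

end Pool.Agent.Work.MP_947296_co

end

section

set_option autoImplicit false

/-! MP_947296_co, item C5: the weight of a vertex is its basic token at the time of the cut. -/

namespace Pool.Agent.Work.MP_947296_co

open Finset Play

namespace ItemC5

variable {n N : ℕ}

/-- the weight of one edge -/
theorem sw_eq {H H' : Play (Sym2 (Fin n))} {st : Sym2 (Fin n) → St N} (hst : IsStamp H st)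
    (hp : Pre H' H) {κ : ℕ} {e : Sym2 (Fin n)}
    (hc : ∀ o s, st e = some (o, s) → (e ∈ H'.cl ↔ (s : ℕ) ≤ κ)) :
    sw (st e) κ = if e ∈ H'.M then 1 else if e ∈ H'.B then 0 else 1 / 2 := by
  obtain ⟨h1, h2, h3, h4, h5⟩ := hst
  have hd := Finset.disjoint_left.1 (Play.disj H')
  rcases hs : st e with _ | ⟨o, s⟩
  · have h6 : e ∉ H.cl := (h1 e).1 hs
    have h7 : e ∉ H'.cl := fun h => h6 (hp.cl_sub h)
    rw [mem_cl, not_or] at h7
    simp [sw, h7.1, h7.2]
  · have hc' := hc o s hs
    have ho := h2 e o s hs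
    by_cases hk : (s : ℕ) ≤ κ
    · have h6 : e ∈ H'.cl := hc'.2 hk
      have h7 := hp.mem_M h6
      cases o with
      | true =>
        have h8 : e ∈ H'.M := h7.1 (ho.1 rfl)
        simp [sw, hk, h8]
      | false =>
        have h8 : e ∉ H'.M := fun h => by
          have := ho.2 (h7.2 h)
          simp at this
        have h9 : e ∈ H'.B := by
          rcases mem_cl.1 h6 with h | h
          · exact absurd h h8
          · exact h
        simp [sw, hk, h8, h9]
    · have h6 : e ∉ H'.cl := fun h => hk (hc'.1 h)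
      rw [mem_cl, not_or] at h6
      cases o <;> simp [sw, hk, h6.1, h6.2]

end ItemC5

theorem omEq : OmEq := by
  classical
  intro n N H H' st R z κ hst hp hc hz
  have h1 : om (fun (x : ↥R) z => st s((x : Fin n), z)) κ z =
      ∏ x ∈ R, (if s(x, z) ∈ H'.M then (1 : ℝ) else if s(x, z) ∈ H'.B then 0 else 1 / 2) := by
    unfold om
    rw [← Finset.prod_coe_sort R]
    refine Finset.prod_congr rfl fun x _ => ?_
    exact ItemC5.sw_eq hst hp (hc x x.2)
  have hinj : Set.InjOn (fun x => s(x, z)) (R : Set (Fin n)) := by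
    intro x hx y hy hxy
    simp only [Sym2.eq_iff] at hxy
    rcases hxy with ⟨h, _⟩ | ⟨h, h'⟩
    · exact h
    · exact h.trans h'
  have h2 : ∏ x ∈ R, (if s(x, z) ∈ H'.M then (1 : ℝ) else if s(x, z) ∈ H'.B then 0 else 1 / 2) =
      ∏ e ∈ star R z, (if e ∈ H'.M then (1 : ℝ) else if e ∈ H'.B then 0 else 1 / 2) := by
    unfold star
    rw [Finset.prod_image hinj]
  rw [h1, h2]
  unfold bv
  split_ifs with hd
  · have h3 : ∀ e ∈ star R z, (if e ∈ H'.M then (1 : ℝ) else if e ∈ H'.B then 0 else 1 / 2) =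
        if e ∈ H'.M then (1 : ℝ) else 1 / 2 := by
      intro e he
      have : e ∉ H'.B := fun h => Finset.disjoint_left.1 hd h he
      simp [this]
    rw [Finset.prod_congr rfl h3, Finset.prod_ite, Finset.prod_const_one, one_mul,
      Finset.prod_const]
    congr 2
    ext e
    simp [Finset.mem_sdiff]
  · rw [Finset.not_disjoint_iff] at hd
    obtain ⟨e, he, he'⟩ := hd
    refine Finset.prod_eq_zero he' ?_
    have : e ∉ H'.M := fun h => Finset.disjoint_left.1 (Play.disj H') h he
    simp [this, he]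

end Pool.Agent.Work.MP_947296_co

end

section

set_option autoImplicit false

/-! MP_947296_co, item C6: the actual root history satisfies the caps. -/

namespace Pool.Agent.Work.MP_947296_co

open Finset Play

theorem cappedAct (c5 : OmEq) : CappedAct := by
  classical
  intro n N r H st R cap hst hr hn hW κ
  rcases Nat.eq_zero_or_pos κ with hκ | hκ
  · subst hκ
    have h1 : ∀ z ∈ univ \ R, om (fun (x : ↥R) z => st s((x : Fin n), z)) 0 z =
        (1 / 2 : ℝ) ^ r := by
      intro z _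
      unfold om
      have h2 : ∀ x : ↥R, sw (st s((x : Fin n), z)) 0 = 1 / 2 := by
        intro x
        obtain ⟨_, _, h3, _, _⟩ := hst
        rcases hs : st s((x : Fin n), z) with _ | ⟨o, s⟩
        · simp [sw]
        · have h4 := h3 _ _ _ hs
          have h5 : ¬ (s : ℕ) ≤ 0 := by omega
          cases o <;> simp only [sw] <;> rw [if_neg h5]
      rw [Finset.prod_congr rfl fun x _ => h2 x, Finset.prod_const, Finset.card_univ,
        Fintype.card_coe, hr]
    rw [Finset.sum_congr rfl h1, Finset.sum_const, nsmul_eq_mul]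
    refine le_trans (mul_le_mul_of_nonneg_right ?_ (by positivity)) hn
    have h6 : (univ \ R).card ≤ n := (card_le_card (sdiff_subset)).trans (by simp)
    exact_mod_cast h6
  · obtain ⟨H', hp, hc⟩ := hst.2.2.2.2 κ hκ
    refine le_trans (le_of_eq ?_) (hW H' hp)
    unfold W
    refine Finset.sum_congr rfl fun z hz => ?_
    exact c5 n N H H' st R z κ hst hp (fun x _ o s hs => hc _ o s hs) (Finset.mem_sdiff.1 hz).2

end Pool.Agent.Work.MP_947296_co

end

section

set_option autoImplicit false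

namespace Pool.Agent.Work.MP_947296_co

open Finset Play

namespace ItemC7

variable {n : ℕ}

theorem star_sub {R S : Finset (Fin n)} (hR : R ⊆ S) {z : Fin n} (hz : z ∈ S \ R) :
    star R z ⊆ Ed S := by
  intro e he
  rw [mem_star] at he
  obtain ⟨x, hx, rfl⟩ := he
  rw [mem_sdiff] at hz
  rw [mem_Ed]
  refine ⟨hR hx, hz.1, ?_⟩
  rintro rfl
  exact hz.2 hx

theorem star_disj {R : Finset (Fin n)} {z z' : Fin n} (hz' : z' ∉ R)
    (hne : z ≠ z') : Disjoint (star R z) (star R z') := by
  rw [Finset.disjoint_left]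
  intro e he he'
  rw [mem_star] at he he'
  obtain ⟨x, hx, rfl⟩ := he
  obtain ⟨x', hx', h⟩ := he'
  rw [Sym2.eq_iff] at h
  rcases h with ⟨_, h2⟩ | ⟨_, h2⟩
  · exact hne h2.symm
  · rw [h2] at hz'
    exact hz' hx

theorem star_disj_Ed {R S : Finset (Fin n)} {z : Fin n} :
    Disjoint (star R z) (Ed (S \ R)) := by
  rw [Finset.disjoint_left]
  intro e he he'
  rw [mem_star] at he
  obtain ⟨x, hx, rfl⟩ := he
  rw [mem_Ed, mem_sdiff] at he'
  exact he'.1.2 hx

theorem count {R S : Finset (Fin n)} (hR : R ⊆ S) (C : Finset (Sym2 (Fin n))) :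
    ∑ z ∈ S \ R, (star R z \ C).card + (Ed (S \ R) \ C).card ≤ (Ed S \ C).card := by
  have h1 : ((S \ R).biUnion (fun z => star R z \ C)).card = ∑ z ∈ S \ R, (star R z \ C).card := by
    apply Finset.card_biUnion
    intro z _ z' hz' hne
    exact (star_disj (mem_sdiff.1 hz').2 hne).mono sdiff_subset sdiff_subset
  rw [← h1, ← Finset.card_union_of_disjoint]
  · apply Finset.card_le_card
    intro e he
    rw [mem_union, mem_biUnion] at he
    rcases he with ⟨z, hz, he⟩ | he
    · rw [mem_sdiff] at he ⊢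
      exact ⟨star_sub hR hz he.1, he.2⟩
    · rw [mem_sdiff] at he ⊢
      exact ⟨Ed_mono sdiff_subset he.1, he.2⟩
  · rw [Finset.disjoint_biUnion_left]
    intro z _
    exact star_disj_Ed.mono sdiff_subset sdiff_subset

theorem bv_eq {I : Finset (Sym2 (Fin n))} {H : Play (Sym2 (Fin n))} (h : Disjoint H.B I) :
    bv I H = (1 / 2 : ℝ) ^ (I \ H.cl).card := by
  unfold bv
  rw [if_pos h, sdiff_cl_eq h]

/-- the main step: a good time gives the bound -/
theorem finish (c5 : OmEq) {N k b x0 : ℕ} {H H' : Play (Sym2 (Fin n))}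
    {st : Sym2 (Fin n) → St N} {R S : Finset (Fin n)} {c : Fin n → Fin k}
    (hst : IsStamp H st) (hR : R ⊆ S) (hk : S.card = k) (hinj : NearInj x0 c (S \ R))
    (hpre : Pre H' H) (hd : Disjoint H'.B (Ed S)) (hb : (Ed S \ H'.cl).card ≤ b)
    (o : Option (↥R × Fin n)) (ho : ∀ p : ↥R × Fin n, o = some p → p.2 ∈ S \ R)
    (hκ : ∀ z ∈ S \ R, ∀ x ∈ R, ∀ o' s, st s(x, z) = some (o', s) →
      (s(x, z) ∈ H'.cl ↔ (s : ℕ) ≤ kap (fun (x : ↥R) z => st s((x : Fin n), z)) o)) :
    ∃ d : DC b R, d.1 = S ∧ ValidC b x0 c R d ∧ Closed (Ed (d.1 \ R)) (d.2.2 : ℕ) H ∧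
      (1 / 2 : ℝ) ^ b ≤ (∏ z ∈ d.1 \ R, om (fun (x : ↥R) z => st s((x : Fin n), z))
        (kap (fun (x : ↥R) z => st s((x : Fin n), z)) d.2.1) z) * (1 / 2 : ℝ) ^ (d.2.2 : ℕ) := by
  have hc := count hR H'.cl
  have hb' : (Ed (S \ R) \ H'.cl).card < b + 1 := by omega
  refine ⟨(S, o, ⟨_, hb'⟩), rfl, ⟨hR, hk, hinj, ho⟩, ⟨H', hpre, ?_, le_rfl⟩, ?_⟩
  · exact hd.mono_right (Ed_mono sdiff_subset)
  · have h1 : ∏ z ∈ S \ R, om (fun (x : ↥R) z => st s((x : Fin n), z))
        (kap (fun (x : ↥R) z => st s((x : Fin n), z)) o) z =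
        ∏ z ∈ S \ R, (1 / 2 : ℝ) ^ (star R z \ H'.cl).card := by
      apply Finset.prod_congr rfl
      intro z hz
      rw [c5 n N H H' st R z _ hst hpre (hκ z hz) (mem_sdiff.1 hz).2]
      exact bv_eq (hd.mono_right (star_sub hR hz))
    show (1 / 2 : ℝ) ^ b ≤ (∏ z ∈ S \ R, om (fun (x : ↥R) z => st s((x : Fin n), z))
        (kap (fun (x : ↥R) z => st s((x : Fin n), z)) o) z) *
          (1 / 2 : ℝ) ^ (Ed (S \ R) \ H'.cl).card
    rw [h1, Finset.prod_pow_eq_pow_sum, ← pow_add]
    apply pow_le_pow_of_le_one (by norm_num) (by norm_num)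
    omega

end ItemC7

theorem itemClosed (c5 : OmEq) : ItemClosed := by
  classical
  intro n N k b x0 H st R c hst S hS
  rw [QC, mem_filter, MS, mem_filter, mem_powersetCard] at hS
  obtain ⟨⟨⟨_, hk⟩, hR, H', hpre, hd, hb⟩, hinj⟩ := hS
  obtain ⟨s1, s2, s3, s4, s5⟩ := hst
  set P : Finset (↥R × Fin n) :=
    (univ ×ˢ (S \ R)).filter (fun p => s((p.1 : Fin n), p.2) ∈ H'.cl) with hP
  have memP : ∀ (x : Fin n) (hx : x ∈ R) (z : Fin n), z ∈ S \ R → s(x, z) ∈ H'.cl →
      ((⟨x, hx⟩ : ↥R), z) ∈ P := by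
    intro x hx z hz h
    rw [hP, mem_filter, mem_product]
    exact ⟨⟨mem_univ _, hz⟩, h⟩
  rcases P.eq_empty_or_nonempty with hE | hN
  · refine ItemC7.finish c5 ⟨s1, s2, s3, s4, s5⟩ hR hk hinj hpre hd hb none ?_ ?_
    · intro p hp
      cases hp
    · intro z hz x hx o' s hs
      constructor
      · intro h
        have := memP x hx z hz h
        rw [hE] at this
        simp at this
      · intro h
        have h3 := s3 _ _ _ hs
        have h0 : (s : ℕ) ≤ 0 := h
        omega
  · obtain ⟨p, hpP, hmax⟩ := Finset.exists_max_image P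
      (fun p => kap (fun (x : ↥R) z => st s((x : Fin n), z)) (some p)) hN
    have hp := hpP
    rw [hP, mem_filter, mem_product] at hp
    obtain ⟨⟨_, hp2⟩, hp3⟩ := hp
    have hkap : ∀ (q : ↥R × Fin n) (o : Bool) (s : Fin N), st s((q.1 : Fin n), q.2) = some (o, s) →
        kap (fun (x : ↥R) z => st s((x : Fin n), z)) (some q) = (s : ℕ) := by
      rintro ⟨x, z⟩ o s h
      simp only [kap]
      simp only at h
      rw [h]
    have hpst : ∃ (o : Bool) (s : Fin N), st s((p.1 : Fin n), p.2) = some (o, s) := by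
      rcases hh : st s((p.1 : Fin n), p.2) with _ | ⟨o, s⟩
      · exact absurd (hpre.cl_sub hp3) ((s1 _).1 hh)
      · exact ⟨o, s, rfl⟩
    obtain ⟨op, sp, hop⟩ := hpst
    refine ItemC7.finish c5 ⟨s1, s2, s3, s4, s5⟩ hR hk hinj hpre hd hb (some p) ?_ ?_
    · intro q hq
      cases hq
      exact hp2
    · intro z hz x hx o' s hs
      have e1 := hkap p op sp hop
      constructor
      · intro h
        have h1 := hmax _ (memP x hx z hz h)
        have e2 := hkap (⟨x, hx⟩, z) o' s hs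
        exact e2.symm.le.trans h1
      · intro h
        rw [e1] at h
        have h4 := (s4 H' hpre _ _ _ hop).1 hp3
        exact (s4 H' hpre _ _ _ hs).2 (h.trans h4)

end Pool.Agent.Work.MP_947296_co

end

section

set_option autoImplicit false

/-! MP_947296_co, item E1: the Erdos-Selfridge strategy with entries. -/

namespace Pool.Agent.Work.MP_947296_co

open Finset Play

namespace ItemE1

theorem bv_nonneg {E : Type} [DecidableEq E] (I : Finset E) (H : Play E) : 0 ≤ bv I H := by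
  unfold bv
  split_ifs <;> positivity

theorem bv_le {E : Type} [DecidableEq E] (I : Finset E) (H : Play E) (b : ℕ)
    (h : (I \ H.cl).card = b) : bv I H ≤ (1 / 2 : ℝ) ^ b := by
  unfold bv
  split_ifs with h1
  · rw [← sdiff_cl_eq h1, h]
  · positivity

theorem bv_one {E : Type} [DecidableEq E] (I : Finset E) (H : Play E) (h : I ⊆ H.M) :
    bv I H = 1 := by
  unfold bv
  have h1 : Disjoint H.B I := (Play.disj H).symm.mono_right h
  have h2 : I \ H.M = ∅ := Finset.sdiff_eq_empty_iff_subset.mpr h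
  rw [if_pos h1, h2]
  simp

variable {μ E X : Type} [DecidableEq E] (ed : μ → E) (F : X → Finset E) (Q : Play μ → Finset X)

/-- total basic value of the sets of `Q` -/
noncomputable def Th (H : Play μ) : ℝ := ∑ S ∈ Q H, bv (F S) (H.map ed)

/-- its loss function -/
noncomputable def th (H : Play μ) (x : μ) : ℝ :=
  ∑ S ∈ Q H, (if ed x ∈ F S \ (H.map ed).cl then bv (F S) (H.map ed) else 0)

theorem Th_nonneg (H : Play μ) : 0 ≤ Th ed F Q H := sum_nonneg fun _ _ => bv_nonneg _ _

theorem Th_step [DecidableEq X] (a1 : BvStep) (b : ℕ) (H : Play μ) (e f : μ)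
    (hQ : Q H ⊆ Q (.step H e f))
    (hb : ∀ S ∈ Q (.step H e f), S ∉ Q H → (F S \ ((Play.step H e f).map ed).cl).card = b) :
    Th ed F Q (.step H e f) ≤ Th ed F Q H - th ed F Q H e + th ed F Q H f +
      (((Q (.step H e f)).card : ℝ) - (Q H).card) * (1 / 2 : ℝ) ^ b := by
  have h1 : Th ed F Q (.step H e f) = ∑ S ∈ Q H, bv (F S) ((Play.step H e f).map ed) +
      ∑ S ∈ Q (.step H e f) \ Q H, bv (F S) ((Play.step H e f).map ed) := by
    unfold Th
    rw [add_comm, Finset.sum_sdiff hQ]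
  have h2 : ∑ S ∈ Q H, bv (F S) ((Play.step H e f).map ed) ≤
      Th ed F Q H - th ed F Q H e + th ed F Q H f := by
    unfold Th th
    rw [← sum_sub_distrib, ← sum_add_distrib]
    exact sum_le_sum fun S _ => a1 E (F S) (H.map ed) (ed e) (ed f)
  have h3 : ∑ S ∈ Q (.step H e f) \ Q H, bv (F S) ((Play.step H e f).map ed) ≤
      (((Q (.step H e f)).card : ℝ) - (Q H).card) * (1 / 2 : ℝ) ^ b := by
    have h4 : ∑ S ∈ Q (.step H e f) \ Q H, bv (F S) ((Play.step H e f).map ed) ≤
        ∑ _S ∈ Q (.step H e f) \ Q H, (1 / 2 : ℝ) ^ b := by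
      refine sum_le_sum fun S hS => ?_
      rw [mem_sdiff] at hS
      exact bv_le _ _ b (hb S hS.1 hS.2)
    rw [sum_const, nsmul_eq_mul, Finset.card_sdiff_of_subset hQ,
      Nat.cast_sub (card_le_card hQ)] at h4
    exact h4
  rw [h1]
  linarith

end ItemE1

open ItemE1 in
theorem esStage (a1 : BvStep) : ESStage := by
  intro μ E X _ _ _ _ ed F Q b Ψ h1 h2 h3 h4 h5
  have hmax : ∀ H : Play μ, ∃ y : μ, ∀ x, Ψ.loss H x + th ed F Q H x ≤
      Ψ.loss H y + th ed F Q H y := fun H =>
    Finite.exists_max (fun x => Ψ.loss H x + th ed F Q H x)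
  choose br hbr using hmax
  have inv : ∀ H, Follow br H → (∀ H', Pre H' H → Ψ.val H' ≤ 1) ∧
      Ψ.val H + Th ed F Q H ≤ 1 / 8 + ((Q H).card : ℝ) * (1 / 2 : ℝ) ^ b := by
    intro H
    induction H with
    | init f =>
      intro _
      constructor
      · intro H' hH'
        rw [pre_init hH']
        linarith [h1 f]
      · have : Th ed F Q (.init f) = 0 := by
          unfold Th
          rw [h2 f]
          simp
        rw [this, h2 f]
        simp only [card_empty, Nat.cast_zero, zero_mul, add_zero]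
        exact h1 f
    | step H e f ih =>
      intro hF
      obtain ⟨hF1, hF2⟩ := hF
      obtain ⟨hA, hB⟩ := ih hF1
      have h6 := h5 H hA
      have h7 := Th_nonneg ed F Q H
      have h8 := Ψ.step_le_two H e f
      constructor
      · intro H' hH'
        rcases pre_step hH' with rfl | hH'
        · linarith
        · exact hA H' hH'
      · have h9 := Th_step ed F Q a1 b H e f (h3 H e f) (h4 H e f)
        have h10 := Ψ.step H e f
        have h11 := hbr H f
        rw [← hF2] at h11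
        linarith
  refine ⟨br, fun H hF S hS hsub => ?_⟩
  obtain ⟨hA, hB⟩ := inv H hF
  have h6 := h5 H hA
  have h7 := Ψ.val_nonneg H
  have h8 : (1 : ℝ) ≤ Th ed F Q H := by
    have h9 := Finset.single_le_sum (f := fun S => bv (F S) (H.map ed)) (s := Q H)
      (fun S _ => bv_nonneg _ _) hS
    rw [bv_one _ _ hsub] at h9
    exact h9
  linarith

end Pool.Agent.Work.MP_947296_co

end

section

set_option autoImplicit false

/-! MP_947296_co, item E2: unrolling the two strategies. -/

namespace Pool.Agent.Work.MP_947296_co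

open Finset Play

namespace ItemE2

variable {μ : Type}

/-- the state at time `t`: the moves of Breaker and the play -/
def state (σ : (t : ℕ) → (Fin t → μ) → μ) (br : Play μ → μ) : (t : ℕ) → (Fin t → μ) × Play μ
  | 0 => (Fin.elim0, .init (σ 0 Fin.elim0))
  | t + 1 =>
    (Fin.snoc (α := fun _ => μ) (state σ br t).1 (br (state σ br t).2),
      .step (state σ br t).2 (br (state σ br t).2)
        (σ (t + 1) (Fin.snoc (α := fun _ => μ) (state σ br t).1 (br (state σ br t).2))))

theorem state_fst (σ : (t : ℕ) → (Fin t → μ) → μ) (br : Play μ → μ) (t : ℕ) :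
    (state σ br t).1 = fun s : Fin t => br (state σ br s.val).2 := by
  induction t with
  | zero => funext s; exact s.elim0
  | succ t ih =>
    funext s
    refine Fin.lastCases ?_ (fun i => ?_) s
    · simp [state]
    · simp only [state, Fin.snoc_castSucc]
      rw [ih]
      rfl

end ItemE2

theorem unroll : Unroll := by
  intro μ σ br
  refine ⟨fun t => br (ItemE2.state σ br t).2, fun t => (ItemE2.state σ br t).2, ?_, fun t => ?_⟩
  · have h := ItemE2.state_fst σ br 0
    simp only [ItemE2.state] at h ⊢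
    rw [h]
  · have h := ItemE2.state_fst σ br (t + 1)
    refine ⟨?_, rfl⟩
    simp only
    rw [← h]
    rfl

end Pool.Agent.Work.MP_947296_co

end

section

set_option autoImplicit false

/-! MP_947296_co, item E3: the sets of `QT` enter with exactly `b` unclaimed edges. -/

namespace Pool.Agent.Work.MP_947296_co

open Finset Play

theorem enterQT : EnterQT := by
  classical
  intro n k b T hb
  refine ⟨?_, ?_, ?_⟩
  · intro f
    unfold QT
    rw [Finset.filter_eq_empty_iff]
    rintro S _ ⟨H', hp, hF, g, hg, hS, _⟩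
    have h1 := pre_init hp
    subst h1
    have h2 : Ripe b S (und (.init f)) := hF.1
    have h3 : (Ed S \ (und (.init f)).cl).card ≤ b := h2.2
    have h4 : (Ed S).card = k.choose 2 := by
      rw [card_Ed, ← hS, card_image_of_injective _ hg]
      simp
    have h5 : (Ed S).card ≤ (Ed S \ (und (.init f)).cl).card + ((und (.init f)).cl).card := by
      have := Finset.le_card_sdiff ((und (.init f)).cl) (Ed S)
      omega
    have h6 : ((und (.init f)).cl).card = 1 := by simp
    omega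
  · intro H e f S hS
    unfold QT at hS ⊢
    simp only [Finset.mem_filter, Finset.mem_univ, true_and] at hS ⊢
    obtain ⟨H', hp, h⟩ := hS
    exact ⟨H', .step e f hp, h⟩
  · intro H e f S hS hS'
    unfold QT at hS hS'
    simp only [Finset.mem_filter, Finset.mem_univ, true_and] at hS hS'
    obtain ⟨H', hp, h⟩ := hS
    rcases pre_step hp with hp | hp
    swap
    · exact absurd ⟨H', hp, h⟩ hS'
    subst hp
    have hF := h.1
    have hR : Ripe b S (und (.step H e f)) := hF.1
    have hle : (Ed S \ (und (.step H e f)).cl).card ≤ b := hR.2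
    have hdis : Disjoint (und (.step H e f)).B (Ed S) := hR.1
    have hnot : ¬ Ripe b S (und H) := by
      intro hr
      have h1 := hF.2 H (.step e f (.refl _)) hr
      have h2 := congrArg Play.len h1
      simp only [Play.len] at h2
      omega
    rw [und_step] at hle hdis ⊢
    have hd' : Disjoint (und H).B (Ed S) :=
      Finset.disjoint_of_subset_left (B_sub_step _ _ _) hdis
    have hgt : b < (Ed S \ (und H).cl).card := by
      by_contra hcon
      exact hnot ⟨hd', not_lt.1 hcon⟩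
    have hsub : Ed S \ (und H).cl ⊆
        insert s(f.1, f.2) (Ed S \ (Play.step (und H) s(e.1, e.2) s(f.1, f.2)).cl) := by
      intro x hx
      rw [Finset.mem_sdiff] at hx
      rw [Finset.mem_insert, Finset.mem_sdiff, mem_cl_step]
      by_cases hxf : x = s(f.1, f.2)
      · exact Or.inl hxf
      · refine Or.inr ⟨hx.1, ?_⟩
        rintro (h1 | h1 | h1)
        · exact hx.2 h1
        · have h2 : x ∈ (Play.step (und H) s(e.1, e.2) s(f.1, f.2)).B := by
            rw [mem_B_step]
            refine Or.inr ⟨h1, ?_⟩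
            rw [← h1]
            exact fun h3 => hx.2 (mem_cl.2 (Or.inl h3))
          exact Finset.disjoint_left.1 hdis h2 hx.1
        · exact hxf h1
    have hcard := (card_le_card hsub).trans (card_insert_le _ _)
    omega

end Pool.Agent.Work.MP_947296_co

end

section

set_option autoImplicit false

/-! MP_947296_co: item E4, a copy of the tournament is a fully claimed set of `QT`. -/

namespace Pool.Agent.Work.MP_947296_co

open Finset Play

namespace E4

variable {n : ℕ}

theorem cl_cases {m bb : ℕ → Fin n × Fin n} {Hs : ℕ → Play (Fin n × Fin n)}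
    (h0 : Hs 0 = .init (m 0)) (hs : ∀ t, Hs (t + 1) = .step (Hs t) (bb t) (m (t + 1)))
    (t : ℕ) (e : Sym2 (Fin n)) (he : e ∈ (und (Hs t)).cl) :
    (∃ s, s ≤ t ∧ s((m s).1, (m s).2) = e) ∨ (∃ s, s < t ∧ s((bb s).1, (bb s).2) = e) := by
  induction t with
  | zero =>
    rw [h0, und_init, cl_init, mem_singleton] at he
    exact Or.inl ⟨0, le_rfl, he.symm⟩
  | succ t ih =>
    rw [hs t, und_step, mem_cl_step] at he
    rcases he with he | he | he
    · rcases ih he with ⟨s, h1, h2⟩ | ⟨s, h1, h2⟩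
      · exact Or.inl ⟨s, h1.trans (Nat.le_succ _), h2⟩
      · exact Or.inr ⟨s, h1.trans (Nat.lt_succ_self _), h2⟩
    · exact Or.inr ⟨t, Nat.lt_succ_self _, he.symm⟩
    · exact Or.inl ⟨t + 1, le_rfl, he.symm⟩

theorem pre_le {m bb : ℕ → Fin n × Fin n} {Hs : ℕ → Play (Fin n × Fin n)}
    (hs : ∀ t, Hs (t + 1) = .step (Hs t) (bb t) (m (t + 1))) {s t : ℕ} (hst : s ≤ t) :
    Pre (Hs s) (Hs t) := by
  induction t with
  | zero =>
    have : s = 0 := by omega
    rw [this]; exact .refl _
  | succ t ih =>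
    rcases Nat.lt_or_ge t s with h | h
    · have : s = t + 1 := by omega
      rw [this]; exact .refl _
    · rw [hs t]; exact .step _ _ (ih h)

theorem ne_of {p q : Fin n × Fin n} (h1 : p ≠ q) (h2 : p ≠ (q.2, q.1)) :
    s(p.1, p.2) ≠ s(q.1, q.2) := by
  intro h
  rw [Sym2.eq_iff] at h
  rcases h with ⟨h, h'⟩ | ⟨h, h'⟩
  · exact h1 (Prod.ext h h')
  · exact h2 (Prod.ext h h')

theorem arc_mem {m bb : ℕ → Fin n × Fin n} {Hs : ℕ → Play (Fin n × Fin n)}
    (h0 : Hs 0 = .init (m 0)) (hs : ∀ t, Hs (t + 1) = .step (Hs t) (bb t) (m (t + 1)))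
    {τ : ℕ} {x y : Fin n} (hm : m τ = (x, y))
    (hn : ∀ s, s < τ → (bb s ≠ (x, y) ∧ bb s ≠ (y, x) ∧ m s ≠ (x, y) ∧ m s ≠ (y, x))) :
    (x, y) ∈ arcs (Hs τ) := by
  cases τ with
  | zero =>
    rw [h0, hm]
    simp [arcs]
  | succ r =>
    rw [hs r, hm]
    have hnot : s(x, y) ∉ insert s((bb r).1, (bb r).2) (und (Hs r)).cl := by
      rw [mem_insert]
      rintro (h | h)
      · have h1 := hn r (Nat.lt_succ_self _)
        exact ne_of (q := (x, y)) h1.1 h1.2.1 h.symm
      · rcases cl_cases h0 hs r _ h with ⟨s, h1, h2⟩ | ⟨s, h1, h2⟩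
        · have h3 := hn s (by omega)
          exact ne_of (q := (x, y)) h3.2.2.1 h3.2.2.2 h2
        · have h3 := hn s (by omega)
          exact ne_of (q := (x, y)) h3.1 h3.2.1 h2
    simp only [arcs]
    rw [if_neg hnot]
    exact mem_insert_self _ _

end E4

theorem copyQT (f2 : ArcsFacts) : CopyQT := by
  classical
  intro n k b T σ bb Hs f hT h0 hs hf hcopy
  set m : ℕ → Fin n × Fin n := fun s => σ s (fun r : Fin s => bb r.val) with hm
  have h0' : Hs 0 = .init (m 0) := h0
  have hs' : ∀ t, Hs (t + 1) = .step (Hs t) (bb t) (m (t + 1)) := hs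
  have harc : ∀ i j : Fin k, ∃ τ : ℕ, T i j → (f i, f j) ∈ arcs (Hs τ) := by
    intro i j
    by_cases h : T i j
    · obtain ⟨τ, h1, h2⟩ := hcopy i j h
      exact ⟨τ, fun _ => E4.arc_mem h0' hs' h1 h2⟩
    · exact ⟨0, fun h' => absurd h' h⟩
  choose g hg using harc
  set t0 : ℕ := (univ : Finset (Fin k × Fin k)).sup (fun p => g p.1 p.2) with ht0
  have hall : ∀ i j : Fin k, T i j → (f i, f j) ∈ arcs (Hs t0) := by
    intro i j hij
    have hle : g i j ≤ t0 := le_sup (f := fun p : Fin k × Fin k => g p.1 p.2) (mem_univ (i, j))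
    exact (f2 n (Hs t0)).2.2.2.1 _ (E4.pre_le hs' hle) (hg i j hij)
  have hsub : Ed (univ.image f) ⊆ (und (Hs t0)).M := by
    intro e he
    induction e using Sym2.ind with
    | _ x y =>
      rw [mem_Ed, mem_image, mem_image] at he
      obtain ⟨⟨i, -, rfl⟩, ⟨j, -, rfl⟩, hne⟩ := he
      have hij : i ≠ j := fun h => hne (by rw [h])
      by_cases hT1 : T i j
      · exact (f2 n (Hs t0)).1 _ _ (hall i j hT1)
      · have hT2 : T j i := by
          by_contra h
          exact hT1 ((hT.2 i j hij).2 h)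
        rw [Sym2.eq_swap]
        exact (f2 n (Hs t0)).1 _ _ (hall j i hT2)
  have hripe : Ripe b (univ.image f) (und (Hs t0)) := by
    constructor
    · exact (disj (und (Hs t0))).symm.mono_right hsub
    · have : Ed (univ.image f) \ (und (Hs t0)).cl = ∅ := by
        rw [sdiff_eq_empty_iff_subset]
        exact fun e he => mem_cl.2 (Or.inl (hsub he))
      rw [this, card_empty]
      exact Nat.zero_le _
  obtain ⟨H', hH1, hH2⟩ := exists_first (P := fun K => Ripe b (univ.image f) (und K))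
    (H := Hs t0) ⟨Hs t0, .refl _, hripe⟩
  refine ⟨t0, ?_, hsub⟩
  unfold QT
  rw [mem_filter]
  refine ⟨mem_univ _, H', hH1, hH2, f, hf, rfl, ?_⟩
  intro i j hij hmem
  have h1 := (f2 n (Hs t0)).2.2.2.1 _ hH1 hmem
  have h2 := (f2 n (Hs t0)).2.2.1 _ _ (hall i j hij) h1
  have h3 : i = j := hf h2
  rw [h3] at hij
  exact hT.1 j hij

end Pool.Agent.Work.MP_947296_co

end
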