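import Pool.Agent.Work.MP_947296_co.Stmts
import Pool.Agent.Work.MP_947296_co.PotOps
import Pool.Agent.Work.MP_947296_co.Bd.B01
import Pool.Agent.Work.MP_947296_co.ItemNB3
import Pool.Agent.Work.MP_947296_co.Bd.B02

/-! Bundle of small proof modules (one section per former module). -/

section

set_option autoImplicit false

namespace Pool.Agent.Work.MP_947296_co

open Finset Play

namespace ItemNM2

theorem two_pow_ge {u : ℕ} (hu : 10 ≤ u) : 100 * u ≤ 2 ^ u := by
  induction u, hu using Nat.le_induction with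
  | base => norm_num
  | succ u hu ih => rw [pow_succ]; omega

theorem two_choose (k : ℕ) (hk : 1 ≤ k) : 2 * k.choose 2 = k * (k - 1) := by
  rw [Nat.choose_two_right]
  exact Nat.mul_div_cancel' (Nat.even_mul_pred_self k).two_dvd

theorem exp_le (U : ℕ) : Real.exp (32 * (U : ℝ)) ≤ 2 ^ (48 * U) := by
  have h1 : Real.exp 2 ≤ 8 := by
    have h := Real.exp_one_lt_d9
    have h2 : Real.exp 2 = Real.exp 1 * Real.exp 1 := by
      rw [← Real.exp_add]; norm_num
    have h0 := Real.exp_pos 1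
    rw [h2]
    nlinarith
  have h3 : (32 * (U : ℝ)) = ((16 * U : ℕ) : ℝ) * 2 := by push_cast; ring
  rw [h3, Real.exp_nat_mul]
  have h4 : (2 : ℝ) ^ (48 * U) = 8 ^ (16 * U) := by
    rw [show (8 : ℝ) = 2 ^ 3 by norm_num, ← pow_mul]
    congr 1
    ring
  rw [h4]
  exact pow_le_pow_left₀ (Real.exp_pos 2).le h1 _

/-- the large values of `s` -/
theorem large {u k s U m : ℕ} (hk : k = 40 * U - 2 * u - 9) (hU : 100 * u ≤ U) (hu : 10 ≤ u)
    (hkb : k ≤ 2 ^ (u + 6)) (hs : 4 * u + 40 ≤ s) (hsk : s < k) (hm : 2 * m ≤ k - 4 * u - 23)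
    (a : ℕ) :
    (k.choose s : ℝ) * (((2 ^ (20 * U) : ℕ) - k).choose (k - s) : ℕ) *
      (1 / 2 : ℝ) ^ (k.choose 2 - s.choose 2) ≤ (1 / 2) ^ m := by
  obtain ⟨i, hi⟩ : ∃ i, k = s + (i + 1) := ⟨k - s - 1, by omega⟩
  obtain ⟨j, hj⟩ : ∃ j, s = 4 * u + 22 + (j + 1) := ⟨s - (4 * u + 23), by omega⟩
  have e1 : k - s = i + 1 := by omega
  have h1 : (k.choose s : ℝ) ≤ 2 ^ ((u + 6) * (i + 1)) := by
    have h2 : k.choose s = k.choose (i + 1) := by
      rw [← e1, Nat.choose_symm hsk.le]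
    rw [h2]
    have h3 : k.choose (i + 1) ≤ k ^ (i + 1) := Nat.choose_le_pow k (i + 1)
    have h4 : k ^ (i + 1) ≤ (2 ^ (u + 6)) ^ (i + 1) := Nat.pow_le_pow_left hkb _
    rw [← pow_mul] at h4
    exact_mod_cast h3.trans h4
  have h2 : ((((2 ^ (20 * U) : ℕ) - k).choose (k - s) : ℕ) : ℝ) ≤ 2 ^ (20 * U * (i + 1)) := by
    rw [e1]
    have h3 : ((2 ^ (20 * U) : ℕ) - k).choose (i + 1) ≤ ((2 ^ (20 * U) : ℕ) - k) ^ (i + 1) :=
      Nat.choose_le_pow _ _
    have h4 : ((2 ^ (20 * U) : ℕ) - k) ^ (i + 1) ≤ (2 ^ (20 * U)) ^ (i + 1) :=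
      Nat.pow_le_pow_left (Nat.sub_le _ _) _
    rw [← pow_mul] at h4
    exact_mod_cast h3.trans h4
  set C := k.choose 2 - s.choose 2 with hC
  have h3 : 2 * C = (i + 1) * (k + s - 1) := by
    have h4 := two_choose k (by omega)
    have h5 := two_choose s (by omega)
    rw [hC, Nat.mul_sub, h4, h5]
    obtain ⟨s', hs'⟩ : ∃ s', s = s' + 1 := ⟨s - 1, by omega⟩
    have e2 : k - 1 = s' + (i + 1) := by omega
    have e3 : s - 1 = s' := by omega
    have e4 : k + s - 1 = s' + (i + 1) + s' + 1 := by omega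
    rw [e2, e3, e4, hi, hs']
    apply Nat.sub_eq_of_eq_add
    ring
  have h4 : 2 * ((u + 6) * (i + 1) + 20 * U * (i + 1)) + 2 * m ≤ 2 * C := by
    rw [h3]
    have e5 : k + s - 1 = 2 * (u + 6 + 20 * U) + (j + 1) := by omega
    have e6 : 2 * m ≤ i + j + 1 := by omega
    rw [e5]
    nlinarith [Nat.zero_le (i * j)]
  have h5 : (k.choose s : ℝ) * (((2 ^ (20 * U) : ℕ) - k).choose (k - s) : ℕ) *
      (1 / 2 : ℝ) ^ C ≤ 2 ^ ((u + 6) * (i + 1)) * 2 ^ (20 * U * (i + 1)) * (1 / 2 : ℝ) ^ C := by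
    gcongr
  refine h5.trans ?_
  have h6 : (2 : ℝ) ^ ((u + 6) * (i + 1)) * 2 ^ (20 * U * (i + 1)) * (1 / 2 : ℝ) ^ C =
      (1 / 2 : ℝ) ^ (C - ((u + 6) * (i + 1) + 20 * U * (i + 1))) := by
    have h7 : C = (C - ((u + 6) * (i + 1) + 20 * U * (i + 1))) +
      ((u + 6) * (i + 1) + 20 * U * (i + 1)) := by omega
    conv_lhs => rw [h7]
    rw [pow_add (1 / 2 : ℝ), ← pow_add (2 : ℝ)]
    have h8 : (2 : ℝ) ^ ((u + 6) * (i + 1) + 20 * U * (i + 1)) *
        (1 / 2 : ℝ) ^ ((u + 6) * (i + 1) + 20 * U * (i + 1)) = 1 := by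
      rw [← mul_pow]; norm_num
    calc _ = (1 / 2 : ℝ) ^ (C - ((u + 6) * (i + 1) + 20 * U * (i + 1))) *
          ((2 : ℝ) ^ ((u + 6) * (i + 1) + 20 * U * (i + 1)) *
        (1 / 2 : ℝ) ^ ((u + 6) * (i + 1) + 20 * U * (i + 1))) := by ring
      _ = _ := by rw [h8, mul_one]
  rw [h6]
  exact pow_le_pow_of_le_one (by norm_num) (by norm_num) (by omega)

/-- the small values of `s` -/
theorem small {u k s U : ℕ} (hk : k = 40 * U - 2 * u - 9) (hU : 100 * u ≤ U) (hu : 10 ≤ u)
    (hU2 : U = 2 ^ u)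
    (hkb : k ≤ 2 ^ (u + 6)) (hs : 3 ≤ s) (hsk : s < k) (hs2 : s < 4 * u + 40) :
    (k.choose s : ℝ) * (((2 ^ (20 * U) : ℕ) - k).choose (k - s) : ℕ) *
      (1 / 2 : ℝ) ^ (k.choose 2 - s.choose 2) ≤ (1 / 2) ^ (12 * U - 12 * u - 96) := by
  set n : ℕ := 2 ^ (20 * U) with hn
  have hn0 : (0 : ℝ) < n := by rw [hn]; positivity
  have h1 : (k.choose s : ℝ) ≤ (k : ℝ) ^ s := by exact_mod_cast Nat.choose_le_pow k s
  have h2 : (((n - k).choose (k - s) : ℕ) : ℝ) ≤ (n : ℝ) ^ (k - s) / (k - s).factorial := by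
    have h3 : (n - k).choose (k - s) ≤ n.choose (k - s) :=
      Nat.choose_le_choose _ (Nat.sub_le _ _)
    have h4 : ((n.choose (k - s) : ℕ) : ℝ) ≤ (n : ℝ) ^ (k - s) / (k - s).factorial :=
      Nat.choose_le_pow_div (k - s) n
    exact le_trans (by exact_mod_cast h3) h4
  have h3 : (1 : ℝ) / (k - s).factorial ≤ (k : ℝ) ^ s / k.factorial := by
    have h4 : (k - s).factorial * k.descFactorial s = k.factorial :=
      Nat.factorial_mul_descFactorial hsk.le
    have h5 : k.descFactorial s ≤ k ^ s := Nat.descFactorial_le_pow k s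
    have h6 : k.factorial ≤ k ^ s * (k - s).factorial := by
      rw [← h4, mul_comm]
      exact Nat.mul_le_mul_right _ h5
    rw [div_le_div_iff₀ (by positivity) (by positivity), one_mul]
    exact_mod_cast h6
  have hch : s.choose 2 ≤ k.choose 2 := Nat.choose_le_choose 2 hsk.le
  have h4 : (1 / 2 : ℝ) ^ (k.choose 2 - s.choose 2) = 2 ^ (s.choose 2) / 2 ^ (k.choose 2) := by
    rw [one_div, inv_pow, eq_div_iff (by positivity), inv_mul_eq_iff_eq_mul₀ (by positivity),
      ← pow_add]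
    congr 1
    omega
  have h5 : 20 * U * k = k * (u + 5) + k.choose 2 := by
    have h6 := two_choose k (by omega)
    have h7 : 2 * (20 * U * k) = 2 * (k * (u + 5) + k.choose 2) := by
      rw [Nat.mul_add, h6]
      have h8 : 40 * U = 2 * (u + 5) + (k - 1) := by omega
      calc 2 * (20 * U * k) = (40 * U) * k := by ring
        _ = (2 * (u + 5) + (k - 1)) * k := by rw [h8]
        _ = _ := by ring
    omega
  have h6 : (n : ℝ) ^ k / 2 ^ (k.choose 2) = (32 * (U : ℝ)) ^ k := by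
    rw [div_eq_iff (by positivity), hn, hU2]
    push_cast
    rw [← hU2, ← pow_mul, h5, pow_add]
    congr 1
    rw [mul_comm k, pow_mul]
    congr 1
    rw [pow_add]
    ring
  have h7 : (32 * (U : ℝ)) ^ k / k.factorial ≤ 2 ^ (48 * U) :=
    le_trans (Real.pow_div_factorial_le_exp _ (by positivity) _) (exp_le U)
  -- the main bound
  have h8 : (k.choose s : ℝ) * ((n - k).choose (k - s) : ℕ) *
      (1 / 2 : ℝ) ^ (k.choose 2 - s.choose 2) * (n : ℝ) ^ s ≤
      (k : ℝ) ^ s * (k : ℝ) ^ s * 2 ^ (s.choose 2) * 2 ^ (48 * U) := by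
    have e1 : (n : ℝ) ^ k = (n : ℝ) ^ (k - s) * (n : ℝ) ^ s := by
      rw [← pow_add]; congr 1; omega
    calc (k.choose s : ℝ) * ((n - k).choose (k - s) : ℕ) *
      (1 / 2 : ℝ) ^ (k.choose 2 - s.choose 2) * (n : ℝ) ^ s
        ≤ (k : ℝ) ^ s * ((n : ℝ) ^ (k - s) / (k - s).factorial) *
          (2 ^ (s.choose 2) / 2 ^ (k.choose 2)) * (n : ℝ) ^ s := by
          rw [h4]; gcongr
      _ = (k : ℝ) ^ s * 2 ^ (s.choose 2) * ((n : ℝ) ^ k / 2 ^ (k.choose 2)) *
          (1 / (k - s).factorial) := by rw [e1]; field_simp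
      _ ≤ (k : ℝ) ^ s * 2 ^ (s.choose 2) * ((n : ℝ) ^ k / 2 ^ (k.choose 2)) *
          ((k : ℝ) ^ s / k.factorial) := by gcongr
      _ = (k : ℝ) ^ s * (k : ℝ) ^ s * 2 ^ (s.choose 2) *
          ((32 * (U : ℝ)) ^ k / k.factorial) := by rw [h6]; field_simp
      _ ≤ _ := by gcongr
  have h9 : (k : ℝ) ^ s ≤ 2 ^ ((u + 6) * s) := by
    have h10 : k ^ s ≤ (2 ^ (u + 6)) ^ s := Nat.pow_le_pow_left hkb _
    rw [← pow_mul] at h10
    exact_mod_cast h10
  have h10 : s.choose 2 ≤ (2 * u + 20) * s := by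
    have h11 := two_choose s (by omega)
    have h12 : s * (s - 1) ≤ s * (4 * u + 40) := Nat.mul_le_mul_left _ (by omega)
    nlinarith
  have h11 : (k.choose s : ℝ) * ((n - k).choose (k - s) : ℕ) *
      (1 / 2 : ℝ) ^ (k.choose 2 - s.choose 2) * (n : ℝ) ^ s ≤
      2 ^ ((4 * u + 32) * s + 48 * U) := by
    refine h8.trans ?_
    calc (k : ℝ) ^ s * (k : ℝ) ^ s * 2 ^ (s.choose 2) * 2 ^ (48 * U)
        ≤ 2 ^ ((u + 6) * s) * 2 ^ ((u + 6) * s) * 2 ^ ((2 * u + 20) * s) * 2 ^ (48 * U) := by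
          gcongr
          norm_num
      _ = _ := by
          rw [← pow_add, ← pow_add, ← pow_add]
          congr 1
          ring
  have h12 : (2 : ℝ) ^ ((4 * u + 32) * s + 48 * U) * 2 ^ (12 * U - 12 * u - 96) ≤
      (n : ℝ) ^ s := by
    rw [hn]
    push_cast
    rw [← pow_add, ← pow_mul]
    apply pow_le_pow_right₀ (by norm_num)
    obtain ⟨v, hv⟩ : ∃ v, 20 * U = 4 * u + 32 + v := ⟨20 * U - (4 * u + 32), by omega⟩
    obtain ⟨s', hs'⟩ : ∃ s', s = 3 + s' := ⟨s - 3, by omega⟩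
    rw [hv, hs']
    have e2 : 48 * U + (12 * U - 12 * u - 96) = 3 * v := by omega
    nlinarith [Nat.zero_le (v * s')]
  set t := (k.choose s : ℝ) * ((n - k).choose (k - s) : ℕ) *
      (1 / 2 : ℝ) ^ (k.choose 2 - s.choose 2) with ht
  have ht0 : 0 ≤ t := by positivity
  have h13 : t * (n : ℝ) ^ s * 2 ^ (12 * U - 12 * u - 96) ≤ (n : ℝ) ^ s :=
    le_trans (mul_le_mul_of_nonneg_right h11 (by positivity)) h12
  have h14 : t * 2 ^ (12 * U - 12 * u - 96) ≤ 1 := by
    have h15 : (0 : ℝ) < (n : ℝ) ^ s := by positivity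
    by_contra hcon
    push Not at hcon
    have : (n : ℝ) ^ s < t * (n : ℝ) ^ s * 2 ^ (12 * U - 12 * u - 96) := by
      calc (n : ℝ) ^ s = (n : ℝ) ^ s * 1 := by ring
        _ < (n : ℝ) ^ s * (t * 2 ^ (12 * U - 12 * u - 96)) := by gcongr
        _ = _ := by ring
    exact absurd h13 (not_le.2 this)
  rw [one_div, inv_pow, ← one_div, le_div_iff₀ (by positivity)]
  exact h14

end ItemNM2

theorem numM2 : NumM2 := by
  rw [NumM2, Filter.eventually_atTop]
  refine ⟨10, fun u hu => ?_⟩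
  have hU := ItemNM2.two_pow_ge hu
  have hk : pk u = 40 * 2 ^ u - 2 * u - 9 := rfl
  have hn : pn u = 2 ^ (20 * 2 ^ u) := rfl
  have hkb : pk u ≤ 2 ^ (u + 6) := by
    rw [pow_add]; omega
  have hterm : ∀ s ∈ Ico 3 (pk u), (((pk u).choose s : ℝ) * ((pn u - pk u).choose (pk u - s)) *
    (1 / 2 : ℝ) ^ ((pk u).choose 2 - s.choose 2)) ≤ (1 / 2) ^ (12 * 2 ^ u - 12 * u - 96) := by
    intro s hs
    rw [mem_Ico] at hs
    by_cases h : s < 4 * u + 40
    · exact ItemNM2.small hk hU hu rfl hkb hs.1 hs.2 h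
    · exact ItemNM2.large (m := 12 * 2 ^ u - 12 * u - 96) hk hU hu hkb (by omega) hs.2
        (by omega) 0
  refine le_trans (Finset.sum_le_sum hterm) ?_
  rw [Finset.sum_const, Nat.card_Ico, nsmul_eq_mul]
  have h1 : ((pk u - 3 : ℕ) : ℝ) ≤ 2 ^ (u + 6) := by
    have : pk u - 3 ≤ 2 ^ (u + 6) := (Nat.sub_le _ _).trans hkb
    exact_mod_cast this
  have h2 : (1 / 2 : ℝ) ^ (12 * 2 ^ u - 12 * u - 96) ≤ (1 / 2) ^ (u + 7) :=
    pow_le_pow_of_le_one (by norm_num) (by norm_num) (by omega)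
  calc ((pk u - 3 : ℕ) : ℝ) * (1 / 2 : ℝ) ^ (12 * 2 ^ u - 12 * u - 96)
      ≤ 2 ^ (u + 6) * (1 / 2) ^ (u + 7) := by gcongr
    _ = 1 / 2 := by
        rw [pow_succ (1 / 2 : ℝ) (u + 6), ← mul_assoc, ← mul_pow]
        norm_num

end Pool.Agent.Work.MP_947296_co

end

section

set_option autoImplicit false

namespace Pool.Agent.Work.MP_947296_co

open Finset Play

namespace ItemT1

lemma tv_nonneg {E : Type} [DecidableEq E] {ι : Type} [Fintype ι] (I : ι → Finset E) (β : ι → ℕ)
    (H : Play E) : 0 ≤ tv I β H := by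
  unfold tv
  split_ifs
  · exact le_rfl
  · positivity

end ItemT1

open ItemT1 in
theorem tokStep : TokStep := by
  intro E _ ι _ I β H e f
  classical
  have h0 := tv_nonneg I β H
  by_cases hd : dead I β H
  · have h1 : dead I β (.step H e f) := Or.inl hd
    have h2 : tv I β H = 0 := by unfold tv; rw [if_pos hd]
    have h3 : tv I β (.step H e f) = 0 := by unfold tv; rw [if_pos h1]
    rw [h2, h3]
    simp
  by_cases he : e ∈ op I β H
  · have h1 : dead I β (.step H e f) := Or.inr he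
    have h3 : tv I β (.step H e f) = 0 := by unfold tv; rw [if_pos h1]
    rw [h3, if_pos he]
    split_ifs <;> linarith
  have h1 : ¬ dead I β (.step H e f) := by
    rintro (h | h)
    · exact hd h
    · exact he h
  rw [if_neg he, sub_zero]
  have h2 : tv I β H = (1 / 2 : ℝ) ^ (uni I \ got I β H).card := by unfold tv; rw [if_neg hd]
  have h3 : tv I β (.step H e f) = (1 / 2 : ℝ) ^ (uni I \ got I β (.step H e f)).card := by
    unfold tv; rw [if_neg h1]
  have h4 : got I β (.step H e f) = got I β H ∪ (op I β H ∩ {f}) := rfl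
  by_cases hf : f ∈ op I β H
  · rw [if_pos hf, h3, h4, h2]
    have h5 : op I β H ∩ {f} = {f} := by
      ext x
      simp only [mem_inter, mem_singleton]
      exact ⟨fun h => h.2, fun h => ⟨h ▸ hf, h⟩⟩
    rw [h5]
    have h6 : (uni I \ got I β H).card ≤ (uni I \ (got I β H ∪ {f})).card + 1 := by
      have h7 : uni I \ got I β H ⊆ insert f (uni I \ (got I β H ∪ {f})) := by
        intro x hx
        rw [mem_sdiff] at hx
        rw [mem_insert, mem_sdiff, mem_union, mem_singleton]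
        by_cases hxf : x = f
        · exact Or.inl hxf
        · exact Or.inr ⟨hx.1, fun h => h.elim hx.2 hxf⟩
      exact le_trans (card_le_card h7) (card_insert_le _ _)
    have h8 : (1 / 2 : ℝ) ^ ((uni I \ (got I β H ∪ {f})).card + 1) ≤
        (1 / 2 : ℝ) ^ (uni I \ got I β H).card :=
      pow_le_pow_of_le_one (by norm_num) (by norm_num) h6
    rw [pow_succ] at h8
    linarith
  · rw [if_neg hf, add_zero, h3, h4, h2]
    have h5 : op I β H ∩ {f} = ∅ := by
      ext x
      simp only [mem_inter, mem_singleton, notMem_empty, iff_false, not_and]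
      rintro hx rfl
      exact hf hx
    rw [h5, union_empty]

end Pool.Agent.Work.MP_947296_co

end

section

set_option autoImplicit false

namespace Pool.Agent.Work.MP_947296_co

open Finset Play

theorem tokInit : TokInit := by
  intro E _ ι _ I β f
  classical
  have h1 : ¬ dead I β (.init f) := fun h => h
  have h3 : tv I β (.init f) = (1 / 2 : ℝ) ^ (uni I \ got I β (.init f)).card := by
    unfold tv; rw [if_neg h1]
  have h4 : got I β (.init f) = uni I ∩ {f} := rfl
  rw [h3, h4]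
  have h6 : (uni I).card ≤ (uni I \ (uni I ∩ {f})).card + 1 := by
    have h7 : uni I ⊆ insert f (uni I \ (uni I ∩ {f})) := by
      intro x hx
      rw [mem_insert, mem_sdiff, mem_inter, mem_singleton]
      by_cases hxf : x = f
      · exact Or.inl hxf
      · exact Or.inr ⟨hx, fun h => hxf h.2⟩
    exact le_trans (card_le_card h7) (card_insert_le _ _)
  have h8 : (1 / 2 : ℝ) ^ ((uni I \ (uni I ∩ {f})).card + 1) ≤ (1 / 2 : ℝ) ^ (uni I).card :=
    pow_le_pow_of_le_one (by norm_num) (by norm_num) h6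
  rw [pow_succ] at h8
  linarith

end Pool.Agent.Work.MP_947296_co

end

section

set_option autoImplicit false

namespace Pool.Agent.Work.MP_947296_co

open Finset Play

namespace ItemT3

variable {E : Type} [DecidableEq E] {ι : Type} [Fintype ι]

theorem mem_op {I : ι → Finset E} {β : ι → ℕ} {H : Play E} {x : E} :
    x ∈ op I β H ↔ (∃ i, ¬ Closed (I i) (β i) H ∧ x ∈ I i) ∧ x ∉ H.cl := by
  classical
  simp [op]

theorem got_mono (I : ι → Finset E) (β : ι → ℕ) (H : Play E) (e f : E) :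
    got I β H ⊆ got I β (.step H e f) := by
  classical
  intro x hx
  show x ∈ got I β H ∪ (op I β H ∩ {f})
  exact mem_union_left _ hx

theorem mem_got_step {I : ι → Finset E} {β : ι → ℕ} {H : Play E} {e f : E}
    (h : f ∈ op I β H) : f ∈ got I β (.step H e f) := by
  classical
  show f ∈ got I β H ∪ (op I β H ∩ {f})
  exact mem_union_right _ (mem_inter.2 ⟨h, mem_singleton_self _⟩)

/-- the step of the invariant -/
theorem key {I : ι → Finset E} {β : ι → ℕ} {H : Play E} {e f : E}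
    (hd : e ∉ op I β H) {i : ι} (hi : ¬ Closed (I i) (β i) H)
    (h1 : Disjoint H.B (I i)) (h2 : I i ∩ H.M ⊆ got I β H) :
    Disjoint (Play.step H e f).B (I i) ∧ I i ∩ (Play.step H e f).M ⊆ got I β (.step H e f) := by
  classical
  have hB : Disjoint (Play.step H e f).B (I i) := by
    rw [Finset.disjoint_left]
    intro x hx hxi
    rw [mem_B_step] at hx
    rcases hx with hx | ⟨rfl, hx⟩
    · exact Finset.disjoint_left.1 h1 hx hxi
    · refine hd (mem_op.2 ⟨⟨i, hi, hxi⟩, ?_⟩)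
      rw [mem_cl, not_or]
      exact ⟨hx, fun h => Finset.disjoint_left.1 h1 h hxi⟩
  refine ⟨hB, ?_⟩
  intro x hx
  rw [mem_inter] at hx
  obtain ⟨hxi, hxM⟩ := hx
  rw [mem_M_step] at hxM
  rcases hxM with hxM | ⟨rfl, hxB⟩
  · exact got_mono I β H e f (h2 (mem_inter.2 ⟨hxi, hxM⟩))
  · by_cases hM : x ∈ H.M
    · exact got_mono I β H e x (h2 (mem_inter.2 ⟨hxi, hM⟩))
    · apply mem_got_step
      refine mem_op.2 ⟨⟨i, hi, hxi⟩, ?_⟩
      rw [mem_cl, not_or]
      exact ⟨hM, fun h => Finset.disjoint_left.1 h1 h hxi⟩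

theorem inv (I : ι → Finset E) (β : ι → ℕ) (H : Play E) (hd : ¬ dead I β H) :
    (∀ i, ¬ Closed (I i) (β i) H → Disjoint H.B (I i) ∧ I i ∩ H.M ⊆ got I β H) ∧
    (∀ i, Closed (I i) (β i) H → (I i \ got I β H).card ≤ β i) := by
  classical
  induction H with
  | init f =>
    have hg : got I β (.init f) = uni I ∩ {f} := rfl
    refine ⟨fun i _ => ⟨by simp, ?_⟩, fun i hc => ?_⟩
    · intro x hx
      rw [mem_inter, M_init] at hx
      rw [hg, mem_inter]
      exact ⟨mem_biUnion.2 ⟨i, mem_univ _, hx.1⟩, hx.2⟩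
    · obtain ⟨H', h1, h2⟩ := hc
      rw [pre_init h1] at h2
      refine le_trans (card_le_card ?_) h2.2
      intro x hx
      rw [mem_sdiff, hg, mem_inter, not_and] at hx
      rw [mem_sdiff, cl_init]
      exact ⟨hx.1, hx.2 (mem_biUnion.2 ⟨i, mem_univ _, hx.1⟩)⟩
  | step H e f ih =>
    have hd1 : ¬ dead I β H := fun h => hd (Or.inl h)
    have hd2 : e ∉ op I β H := fun h => hd (Or.inr h)
    obtain ⟨iha, ihb⟩ := ih hd1
    have hk : ∀ i, ¬ Closed (I i) (β i) H → Disjoint (Play.step H e f).B (I i) ∧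
        I i ∩ (Play.step H e f).M ⊆ got I β (.step H e f) := fun i hi =>
      key hd2 hi (iha i hi).1 (iha i hi).2
    refine ⟨fun i hi => hk i (fun h => hi (closed_step.2 (Or.inl h))), fun i hc => ?_⟩
    by_cases hi : Closed (I i) (β i) H
    · exact le_trans (card_le_card (sdiff_subset_sdiff (Subset.refl _) (got_mono I β H e f)))
        (ihb i hi)
    · rcases closed_step.1 hc with h | h
      · exact absurd h hi
      · obtain ⟨h1, h2⟩ := hk i hi
        refine le_trans (card_le_card ?_) h.2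
        intro x hx
        rw [mem_sdiff] at hx ⊢
        refine ⟨hx.1, fun hcl => ?_⟩
        rcases mem_cl.1 hcl with hM | hB
        · exact hx.2 (h2 (mem_inter.2 ⟨hx.1, hM⟩))
        · exact Finset.disjoint_left.1 h1 hB hx.1

theorem dead_inv (I : ι → Finset E) (β : ι → ℕ) (H : Play E) (hd : dead I β H) :
    ∃ i, ¬ Closed (I i) (β i) H ∧ ¬ Disjoint H.B (I i) := by
  classical
  induction H with
  | init f => exact absurd hd (fun h => h)
  | step H e f ih =>
    have aux : ∀ i, ¬ Closed (I i) (β i) H → ¬ Disjoint (Play.step H e f).B (I i) →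
        ¬ Closed (I i) (β i) (.step H e f) := by
      intro i h1 h2 h3
      rcases closed_step.1 h3 with h | h
      · exact h1 h
      · exact h2 h.1
    rcases hd with hd | hd
    · obtain ⟨i, h1, h2⟩ := ih hd
      have h3 : ¬ Disjoint (Play.step H e f).B (I i) := fun h =>
        h2 (Disjoint.mono_left (B_sub_step H e f) h)
      exact ⟨i, aux i h1 h3, h3⟩
    · obtain ⟨⟨i, hi, hei⟩, hcl⟩ := mem_op.1 hd
      have h3 : ¬ Disjoint (Play.step H e f).B (I i) := by
        intro h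
        refine Finset.disjoint_left.1 h (mem_B_step.2 (Or.inr ⟨rfl, fun hM => ?_⟩)) hei
        exact hcl (mem_cl.2 (Or.inl hM))
      exact ⟨i, aux i hi h3, h3⟩

end ItemT3

theorem tokClosed : TokClosed := by
  intro E _ ι _ I β H hc
  classical
  have hd : ¬ dead I β H := by
    intro h
    obtain ⟨i, h1, _⟩ := ItemT3.dead_inv I β H h
    exact h1 (hc i)
  have hb := (ItemT3.inv I β H hd).2
  rw [tv, if_neg hd]
  apply pow_le_pow_of_le_one (by norm_num) (by norm_num)
  have hsub : uni I \ got I β H ⊆ univ.biUnion (fun i => I i \ got I β H) := by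
    intro x hx
    rw [mem_sdiff, uni, mem_biUnion] at hx
    obtain ⟨⟨i, _, hi⟩, hx⟩ := hx
    exact mem_biUnion.2 ⟨i, mem_univ _, mem_sdiff.2 ⟨hi, hx⟩⟩
  refine le_trans (card_le_card hsub) (le_trans card_biUnion_le ?_)
  exact Finset.sum_le_sum fun i _ => hb i (hc i)

end Pool.Agent.Work.MP_947296_co

end

section

set_option autoImplicit false

/-! MP_947296_co, item T4: the static sum over the allowed tuples. -/

namespace Pool.Agent.Work.MP_947296_co

open Finset Play

namespace ItemT4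

variable {E : Type} [DecidableEq E]

/-- Bonferroni inequality -/
theorem bonf {p : ℕ} (J : Fin p → Finset E) (s : Finset (Fin p)) :
    ∑ i ∈ s, (J i).card ≤ (s.biUnion J).card +
      ∑ i ∈ s, ∑ j ∈ univ.filter (· < i), (J i ∩ J j).card := by
  induction s using Finset.induction_on_max with
  | empty => simp
  | insert a s hmax ih =>
    have ha : a ∉ s := fun h => lt_irrefl a (hmax a h)
    rw [Finset.sum_insert ha, Finset.sum_insert ha, Finset.biUnion_insert]
    have h1 := Finset.card_union_add_card_inter (J a) (s.biUnion J)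
    have h2 : (J a ∩ s.biUnion J).card ≤ ∑ j ∈ univ.filter (· < a), (J a ∩ J j).card := by
      rw [Finset.inter_biUnion]
      refine (Finset.card_biUnion_le).trans ?_
      refine Finset.sum_le_sum_of_subset ?_
      intro j hj
      simp [hmax j hj]
    omega

end ItemT4

theorem tupSum : TupSum := by
  classical
  intro E _ D _ I g p Lam hg
  have key : ∀ t : Fin p → D, ov I t ≤ Lam →
      (1 / 2 : ℝ) ^ (uni (fun i => I (t i))).card ≤
        2 ^ Lam * ∏ i, (1 / 2 : ℝ) ^ (I (t i)).card := by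
    intro t ht
    have h1 := ItemT4.bonf (fun i => I (t i)) univ
    have h2 : ∑ i, (I (t i)).card ≤ (uni (fun i => I (t i))).card + Lam := by
      unfold uni
      unfold ov at ht
      exact h1.trans (Nat.add_le_add_left ht _)
    rw [Finset.prod_pow_eq_pow_sum]
    have h3 : (1 / 2 : ℝ) ^ ((uni (fun i => I (t i))).card + Lam) ≤
        (1 / 2 : ℝ) ^ (∑ i, (I (t i)).card) :=
      pow_le_pow_of_le_one (by norm_num) (by norm_num) h2
    have h4 : (2 : ℝ) ^ Lam * (1 / 2 : ℝ) ^ ((uni (fun i => I (t i))).card + Lam) =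
        (1 / 2 : ℝ) ^ (uni (fun i => I (t i))).card := by
      rw [pow_add, mul_comm ((1 / 2 : ℝ) ^ (uni (fun i => I (t i))).card), ← mul_assoc,
        ← mul_pow]
      norm_num
    rw [← h4]
    exact mul_le_mul_of_nonneg_left h3 (by positivity)
  have hterm : ∀ t : Fin p → D, 0 ≤ ∏ i, (g (t i) * (1 / 2 : ℝ) ^ (I (t i)).card) := fun t =>
    Finset.prod_nonneg fun i _ => mul_nonneg (hg _) (by positivity)
  calc ∑ t ∈ univ.filter (fun t : Fin p → D => ov I t ≤ Lam),
      (∏ i, g (t i)) * (1 / 2 : ℝ) ^ (uni (fun i => I (t i))).card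
      ≤ ∑ t ∈ univ.filter (fun t : Fin p → D => ov I t ≤ Lam),
        2 ^ Lam * ∏ i, (g (t i) * (1 / 2 : ℝ) ^ (I (t i)).card) := by
        refine Finset.sum_le_sum fun t ht => ?_
        have h := key t (Finset.mem_filter.1 ht).2
        rw [Finset.prod_mul_distrib]
        calc (∏ i, g (t i)) * (1 / 2 : ℝ) ^ (uni (fun i => I (t i))).card
            ≤ (∏ i, g (t i)) * (2 ^ Lam * ∏ i, (1 / 2 : ℝ) ^ (I (t i)).card) :=
              mul_le_mul_of_nonneg_left h (Finset.prod_nonneg fun i _ => hg _)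
          _ = 2 ^ Lam * ((∏ i, g (t i)) * ∏ i, (1 / 2 : ℝ) ^ (I (t i)).card) := by ring
    _ ≤ ∑ t : Fin p → D, 2 ^ Lam * ∏ i, (g (t i) * (1 / 2 : ℝ) ^ (I (t i)).card) := by
        refine Finset.sum_le_sum_of_subset_of_nonneg (Finset.filter_subset _ _) ?_
        intro t _ _
        exact mul_nonneg (by positivity) (hterm t)
    _ = 2 ^ Lam * (∑ d, g d * (1 / 2 : ℝ) ^ (I d).card) ^ p := by
        rw [← Finset.mul_sum, Fintype.sum_pow]

end Pool.Agent.Work.MP_947296_co

end

section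

set_option autoImplicit false

/-! MP_947296_co: item T5, Markov for tuples. -/

namespace Pool.Agent.Work.MP_947296_co

open Finset Play

namespace ItemT5

variable {E D : Type} [DecidableEq E] {p : ℕ}

/-- Resampling one coordinate. -/
theorem resample (Q : Finset D) (j : Fin p) (F : (Fin p → D) → ℝ) :
    ∑ t ∈ Fintype.piFinset (fun _ : Fin p => Q), ∑ d ∈ Q, F (Function.update t j d) =
      Q.card * ∑ t ∈ Fintype.piFinset (fun _ : Fin p => Q), F t := by
  have h1 : (Q.card : ℝ) * ∑ t ∈ Fintype.piFinset (fun _ : Fin p => Q), F t =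
      ∑ t ∈ Fintype.piFinset (fun _ : Fin p => Q), ∑ _d ∈ Q, F t := by
    rw [mul_sum]
    apply sum_congr rfl
    intro t _
    rw [sum_const, nsmul_eq_mul]
  rw [h1, ← sum_product', ← sum_product']
  refine sum_nbij' (fun q : (Fin p → D) × D => (Function.update q.1 j q.2, q.1 j))
    (fun q : (Fin p → D) × D => (Function.update q.1 j q.2, q.1 j)) ?_ ?_ ?_ ?_ ?_
  · rintro ⟨t, d⟩ h
    rw [mem_product, Fintype.mem_piFinset] at h ⊢
    refine ⟨?_, h.1 j⟩
    intro i
    by_cases hij : i = j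
    · rw [hij]; simpa using h.2
    · simpa [Function.update_of_ne hij] using h.1 i
  · rintro ⟨t, d⟩ h
    rw [mem_product, Fintype.mem_piFinset] at h ⊢
    refine ⟨?_, h.1 j⟩
    intro i
    by_cases hij : i = j
    · rw [hij]; simpa using h.2
    · simpa [Function.update_of_ne hij] using h.1 i
  · rintro ⟨t, d⟩ _
    simp
  · rintro ⟨t, d⟩ _
    simp
  · rintro ⟨t, d⟩ _
    simp

/-- The overlap with a fixed small set is small on average. -/
theorem inter_sum (I : D → Finset E) (m : ℕ) (σ : ℝ) (Q : Finset D) (A : Finset E)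
    (hA : A.card ≤ m) (hs : 0 ≤ σ)
    (h : ∀ e, ((Q.filter (fun d => e ∈ I d)).card : ℝ) ≤ σ * Q.card) :
    ∑ d ∈ Q, ((A ∩ I d).card : ℝ) ≤ m * σ * Q.card := by
  have h1 : ∀ d ∈ Q, ((A ∩ I d).card : ℝ) = ∑ e ∈ A, if e ∈ I d then (1 : ℝ) else 0 := by
    intro d _
    rw [← filter_mem_eq_inter, card_filter]
    push_cast
    rfl
  rw [sum_congr rfl h1, sum_comm]
  calc ∑ e ∈ A, ∑ d ∈ Q, (if e ∈ I d then (1 : ℝ) else 0)
      = ∑ e ∈ A, ((Q.filter (fun d => e ∈ I d)).card : ℝ) := by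
        apply sum_congr rfl
        intro e _
        rw [card_filter]
        push_cast
        rfl
    _ ≤ ∑ _e ∈ A, σ * Q.card := sum_le_sum (fun e _ => h e)
    _ = A.card * (σ * Q.card) := by rw [sum_const, nsmul_eq_mul]
    _ ≤ m * (σ * Q.card) := by
        apply mul_le_mul_of_nonneg_right (by exact_mod_cast hA)
        exact mul_nonneg hs (Nat.cast_nonneg _)
    _ = m * σ * Q.card := by ring

/-- One pair of coordinates. -/
theorem pair_sum (I : D → Finset E) (m : ℕ) (σ : ℝ) (Q : Finset D) (hQ : Q.Nonempty)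
    (hI : ∀ d ∈ Q, (I d).card ≤ m) (hs : 0 ≤ σ)
    (h : ∀ e, ((Q.filter (fun d => e ∈ I d)).card : ℝ) ≤ σ * Q.card) (i j : Fin p)
    (hij : i ≠ j) :
    ∑ t ∈ Fintype.piFinset (fun _ : Fin p => Q), ((I (t i) ∩ I (t j)).card : ℝ) ≤
      m * σ * (Q.card : ℝ) ^ p := by
  have hQ0 : (0 : ℝ) < Q.card := by exact_mod_cast hQ.card_pos
  have h1 := resample Q j (fun t : Fin p → D => ((I (t i) ∩ I (t j)).card : ℝ))
  have h2 : ∑ t ∈ Fintype.piFinset (fun _ : Fin p => Q), ∑ d ∈ Q,
      ((I (Function.update t j d i) ∩ I (Function.update t j d j)).card : ℝ) ≤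
      ∑ _t ∈ Fintype.piFinset (fun _ : Fin p => Q), m * σ * Q.card := by
    apply sum_le_sum
    intro t ht
    rw [Fintype.mem_piFinset] at ht
    have := inter_sum I m σ Q (I (t i)) (hI _ (ht i)) hs h
    simpa [Function.update_of_ne hij] using this
  rw [sum_const, nsmul_eq_mul, Fintype.card_piFinset_const] at h2
  have h3 : (Q.card : ℝ) * ∑ t ∈ Fintype.piFinset (fun _ : Fin p => Q),
      ((I (t i) ∩ I (t j)).card : ℝ) ≤ Q.card * (m * σ * (Q.card : ℝ) ^ p) := by
    rw [← h1]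
    refine h2.trans (le_of_eq ?_)
    push_cast
    ring
  exact le_of_mul_le_mul_left h3 hQ0

/-- The total overlap. -/
theorem ov_sum (I : D → Finset E) (m : ℕ) (σ : ℝ) (Q : Finset D) (hQ : Q.Nonempty)
    (hI : ∀ d ∈ Q, (I d).card ≤ m) (hs : 0 ≤ σ)
    (h : ∀ e, ((Q.filter (fun d => e ∈ I d)).card : ℝ) ≤ σ * Q.card) :
    ∑ t ∈ Fintype.piFinset (fun _ : Fin p => Q), (ov I t : ℝ) ≤
      (p : ℝ) ^ 2 / 2 * (m * σ * (Q.card : ℝ) ^ p) := by
  have hx : 0 ≤ m * σ * (Q.card : ℝ) ^ p := by positivity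
  have h0 : ∀ t : Fin p → D, (ov I t : ℝ) =
      ∑ i, ∑ j ∈ univ.filter (· < i), ((I (t i) ∩ I (t j)).card : ℝ) := by
    intro t; unfold ov; push_cast; rfl
  simp_rw [h0]
  rw [sum_comm]
  calc ∑ i : Fin p, ∑ t ∈ Fintype.piFinset (fun _ : Fin p => Q),
        ∑ j ∈ univ.filter (· < i), ((I (t i) ∩ I (t j)).card : ℝ)
      ≤ ∑ i : Fin p, ((i : ℕ) : ℝ) * (m * σ * (Q.card : ℝ) ^ p) := by
        apply sum_le_sum
        intro i _
        rw [sum_comm]
        calc ∑ j ∈ univ.filter (· < i), ∑ t ∈ Fintype.piFinset (fun _ : Fin p => Q),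
              ((I (t i) ∩ I (t j)).card : ℝ)
            ≤ ∑ _j ∈ univ.filter (· < i), (m * σ * (Q.card : ℝ) ^ p) := by
              apply sum_le_sum
              intro j hj
              rw [mem_filter] at hj
              exact pair_sum I m σ Q hQ hI hs h i j hj.2.ne'
          _ = ((i : ℕ) : ℝ) * (m * σ * (Q.card : ℝ) ^ p) := by
              rw [sum_const, nsmul_eq_mul]
              congr 2
              have : univ.filter (· < i) = Iio i := by
                ext x; simp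
              rw [this, Fin.card_Iio]
    _ = (∑ i : Fin p, ((i : ℕ) : ℝ)) * (m * σ * (Q.card : ℝ) ^ p) := by rw [sum_mul]
    _ ≤ (p : ℝ) ^ 2 / 2 * (m * σ * (Q.card : ℝ) ^ p) := by
        apply mul_le_mul_of_nonneg_right _ hx
        rw [Fin.sum_univ_eq_sum_range (fun i => (i : ℝ)) p]
        have h3 := Finset.sum_range_id_mul_two p
        have h4 : (∑ i ∈ range p, (i : ℝ)) * 2 = (p : ℝ) * ((p - 1 : ℕ) : ℝ) := by
          have := congrArg (Nat.cast : ℕ → ℝ) h3
          rw [Nat.cast_mul, Nat.cast_mul, Nat.cast_sum] at this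
          simpa using this
        have h5 : ((p - 1 : ℕ) : ℝ) ≤ p := by exact_mod_cast Nat.sub_le p 1
        nlinarith [Nat.cast_nonneg (α := ℝ) p]

end ItemT5

open ItemT5 in
theorem tupMany : TupMany := by
  classical
  intro E _ D _ I p Lam m σ Q hI hQ hp
  set T := Fintype.piFinset (fun _ : Fin p => Q) with hT
  have hTc : T.card = Q.card ^ p := by
    rw [hT, Fintype.card_piFinset_const]
  have hfil : (univ.filter (fun t : Fin p → D => (∀ i, t i ∈ Q) ∧ ov I t ≤ Lam)) =
      T.filter (fun t => ov I t ≤ Lam) := by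
    ext t
    rw [mem_filter, mem_filter, hT, Fintype.mem_piFinset]
    simp
  have key : ∑ t ∈ T, (ov I t : ℝ) ≤ (Lam : ℝ) / 2 * (Q.card : ℝ) ^ p := by
    by_cases hne : Q.Nonempty
    · by_cases hE : Nonempty E
      · obtain ⟨e⟩ := hE
        have hQ0 : (0 : ℝ) < Q.card := by exact_mod_cast hne.card_pos
        have hs : 0 ≤ σ := by
          have h1 : 0 ≤ σ * Q.card := le_trans (Nat.cast_nonneg _) (hQ e)
          by_contra hn
          push Not at hn
          nlinarith
        refine (ov_sum I m σ Q hne hI hs (fun e => ?_)).trans ?_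
        · convert hQ e
        · have h2 : 0 ≤ (Q.card : ℝ) ^ p := by positivity
          have h3 : (p : ℝ) ^ 2 / 2 * (m * σ * (Q.card : ℝ) ^ p) =
              ((p : ℝ) ^ 2 * σ * m) / 2 * (Q.card : ℝ) ^ p := by ring
          rw [h3]
          apply mul_le_mul_of_nonneg_right _ h2
          linarith
      · have h0 : ∀ t ∈ T, (ov I t : ℝ) = 0 := by
          intro t _
          unfold ov
          have : ∀ d d' : D, (I d ∩ I d').card = 0 := by
            intro d d'
            rw [card_eq_zero, eq_empty_iff_forall_notMem]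
            intro e _
            exact hE ⟨e⟩
          simp [this]
        rw [sum_congr rfl h0]
        simp only [sum_const_zero]
        positivity
    · rw [not_nonempty_iff_eq_empty] at hne
      rcases Nat.eq_zero_or_pos p with hp0 | hp0
      · subst hp0
        have h0 : ∀ t ∈ T, (ov I t : ℝ) = 0 := by
          intro t _
          unfold ov
          simp
        rw [sum_congr rfl h0]
        simp only [sum_const_zero]
        positivity
      · have hT0 : T = ∅ := by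
          rw [← card_eq_zero, hTc, hne, card_empty, zero_pow hp0.ne']
        rw [hT0, sum_empty]
        positivity
  -- Markov
  rw [hfil]
  have h1 := card_filter_add_card_filter_not (s := T) (fun t => ov I t ≤ Lam)
  have h2 : ((T.filter (fun t => ¬ ov I t ≤ Lam)).card : ℝ) * (Lam + 1) ≤ ∑ t ∈ T, (ov I t : ℝ) := by
    calc ((T.filter (fun t => ¬ ov I t ≤ Lam)).card : ℝ) * (Lam + 1)
        = ∑ _t ∈ T.filter (fun t => ¬ ov I t ≤ Lam), ((Lam : ℝ) + 1) := by
          rw [sum_const, nsmul_eq_mul]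
      _ ≤ ∑ t ∈ T.filter (fun t => ¬ ov I t ≤ Lam), (ov I t : ℝ) := by
          apply sum_le_sum
          intro t ht
          rw [mem_filter] at ht
          have : Lam + 1 ≤ ov I t := by omega
          exact_mod_cast this
      _ ≤ ∑ t ∈ T, (ov I t : ℝ) := by
          apply sum_le_sum_of_subset_of_nonneg (filter_subset _ _)
          intro t _ _
          exact Nat.cast_nonneg _
  have h3 : ((T.filter (fun t => ov I t ≤ Lam)).card : ℝ) +
      ((T.filter (fun t => ¬ ov I t ≤ Lam)).card : ℝ) = (Q.card : ℝ) ^ p := by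
    rw [hTc] at h1
    exact_mod_cast h1
  have h4 : (0 : ℝ) ≤ (Q.card : ℝ) ^ p := by positivity
  have h5 : (0 : ℝ) ≤ Lam := Nat.cast_nonneg _
  have h6 : (0 : ℝ) ≤ ((T.filter (fun t => ¬ ov I t ≤ Lam)).card : ℝ) := Nat.cast_nonneg _
  have h7 : ((T.filter (fun t => ¬ ov I t ≤ Lam)).card : ℝ) * (Lam + 1) ≤
      ((Q.card : ℝ) ^ p / 2) * (Lam + 1) := by
    refine (h2.trans key).trans ?_
    nlinarith
  have h8 : ((T.filter (fun t => ¬ ov I t ≤ Lam)).card : ℝ) ≤ (Q.card : ℝ) ^ p / 2 :=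
    le_of_mul_le_mul_right h7 (by linarith)
  linarith

end Pool.Agent.Work.MP_947296_co

end

section

set_option autoImplicit false

/-! MP_947296_co, item T6: the potential of a family of items. -/

namespace Pool.Agent.Work.MP_947296_co

open Finset Play

namespace ItemT6

variable {E : Type} [DecidableEq E] {ι : Type} [Fintype ι]

theorem tv_nonneg (I : ι → Finset E) (β : ι → ℕ) (H : Play E) : 0 ≤ tv I β H := by
  unfold tv
  split_ifs
  · exact le_rfl
  · positivity

/-- the potential of one tuple -/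
noncomputable def tokPot (t1 : TokStep) (I : ι → Finset E) (β : ι → ℕ) : Pot E where
  val H := tv I β H
  loss H x := if x ∈ op I β H then tv I β H else 0
  val_nonneg H := tv_nonneg I β H
  loss_nonneg H x := by
    show 0 ≤ if x ∈ op I β H then tv I β H else 0
    split_ifs
    · exact tv_nonneg I β H
    · exact le_rfl
  loss_le H x := by
    show (if x ∈ op I β H then tv I β H else 0) ≤ tv I β H
    split_ifs
    · exact le_rfl
    · exact tv_nonneg I β H
  step H e f := t1 E ι I β H e f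

end ItemT6

open ItemT6 in
theorem famPot (t1 : TokStep) (t2 : TokInit) (t3 : TokClosed) (t4 : TupSum) (t5 : TupMany) :
    FamPot := by
  intro E _ D _ _ I β g p Lam hg
  have hc : ∀ t : Fin p → D, 0 ≤ (if ov I t ≤ Lam then ∏ i, g (t i) else 0 : ℝ) := by
    intro t
    split_ifs
    · exact prod_nonneg fun i _ => hg _
    · exact le_rfl
  refine ⟨Pot.sum (fun t : Fin p → D => (if ov I t ≤ Lam then ∏ i, g (t i) else 0 : ℝ)) hc
    (fun t => tokPot t1 (fun i => I (t i)) (fun i => β (t i))), ?_, ?_⟩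
  · intro f
    rw [Pot.sum_val]
    have h1 : ∀ t : Fin p → D, (if ov I t ≤ Lam then ∏ i, g (t i) else 0 : ℝ) *
        (tokPot t1 (fun i => I (t i)) (fun i => β (t i))).val (.init f) ≤
        2 * (if ov I t ≤ Lam then (∏ i, g (t i)) *
          (1 / 2 : ℝ) ^ (uni (fun i => I (t i))).card else 0) := by
      intro t
      have h2 : (tokPot t1 (fun i => I (t i)) (fun i => β (t i))).val (.init f) ≤
          2 * (1 / 2 : ℝ) ^ (uni (fun i => I (t i))).card :=
        t2 E (Fin p) (fun i => I (t i)) (fun i => β (t i)) f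
      have h3 := mul_le_mul_of_nonneg_left h2 (hc t)
      refine h3.trans (le_of_eq ?_)
      split_ifs
      · ring
      · ring
    refine (sum_le_sum fun t _ => h1 t).trans ?_
    rw [← mul_sum, ← sum_filter]
    have h4 := t4 E D I g p Lam hg
    calc _ ≤ 2 * (2 ^ Lam * (∑ d, g d * (1 / 2 : ℝ) ^ (I d).card) ^ p) :=
          mul_le_mul_of_nonneg_left h4 (by norm_num)
      _ = _ := by ring
  · intro H Q γ σ m hγ hcl hgQ hm hσ hLam
    have key : ∀ S : Finset (Fin p → D), (∀ t ∈ S, (∀ i, t i ∈ Q) ∧ ov I t ≤ Lam) →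
        γ ^ p * (S.card : ℝ) ≤
          ∑ t : Fin p → D, (if ov I t ≤ Lam then ∏ i, g (t i) else 0 : ℝ) *
            (tokPot t1 (fun i => I (t i)) (fun i => β (t i))).val H := by
      intro S hS
      have h1 : γ ^ p * (S.card : ℝ) = ∑ t ∈ S, γ ^ p := by
        rw [sum_const, nsmul_eq_mul, mul_comm]
      rw [h1]
      refine le_trans (sum_le_sum fun t ht => ?_)
        (sum_le_sum_of_subset_of_nonneg (subset_univ S) fun t _ _ => ?_)
      · obtain ⟨h2, h3⟩ := hS t ht
        rw [if_pos h3]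
        have h4 : (1 / 2 : ℝ) ^ (∑ i, β (t i)) ≤ tv (fun i => I (t i)) (fun i => β (t i)) H :=
          t3 E (Fin p) (fun i => I (t i)) (fun i => β (t i)) H fun i => hcl _ (h2 i)
        have h5 : γ ^ p ≤ ∏ i : Fin p, (g (t i) * (1 / 2 : ℝ) ^ β (t i)) := by
          calc γ ^ p = ∏ _i : Fin p, γ := by rw [prod_const, card_univ, Fintype.card_fin]
            _ ≤ _ := prod_le_prod (fun _ _ => hγ) fun i _ => hgQ _ (h2 i)
        refine h5.trans ?_
        rw [prod_mul_distrib, prod_pow_eq_pow_sum]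
        exact mul_le_mul_of_nonneg_left h4 (prod_nonneg fun i _ => hg _)
      · exact mul_nonneg (hc t) (tv_nonneg _ _ _)
    have h6 := t5 E D I p Lam m σ Q hm hσ hLam
    rw [Pot.sum_val]
    have h7 := mul_le_mul_of_nonneg_left h6 (pow_nonneg hγ p)
    rw [mul_div_assoc]
    refine h7.trans (key _ fun t ht => ?_)
    simpa only [mem_filter, mem_univ, true_and] using ht

end Pool.Agent.Work.MP_947296_co

end

section

set_option autoImplicit false

/-! [C2] nearly injective sets. -/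

namespace Pool.Agent.Work.MP_947296_co

open Finset

namespace ItemC2

theorem esym_le {n : ℕ} (ω : Fin n → ℝ) (hω : ∀ z, 0 ≤ ω z) (V : Finset (Fin n)) :
    ∀ x : ℕ, ∑ X ∈ powersetCard x V, ∏ z ∈ X, ω z ≤ (∑ z ∈ V, ω z) ^ x := by
  classical
  induction V using Finset.induction_on with
  | empty =>
    intro x
    rcases Nat.eq_zero_or_pos x with h | h
    · subst h; simp
    · rw [Finset.powersetCard_eq_empty.2 (by simpa using h)]
      simp only [Finset.sum_empty]
      positivity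
  | insert z V hz ih =>
    intro x
    rcases x with _ | x
    · simp
    · rw [Finset.powersetCard_succ_insert hz, Finset.sum_union, Finset.sum_image,
        Finset.sum_insert hz]
      · have h1 : ∑ X ∈ powersetCard x V, ∏ i ∈ insert z X, ω i =
            ω z * ∑ X ∈ powersetCard x V, ∏ i ∈ X, ω i := by
          rw [Finset.mul_sum]
          refine Finset.sum_congr rfl fun X hX => ?_
          rw [Finset.prod_insert fun h => hz ((Finset.mem_powersetCard.1 hX).1 h)]
        rw [h1]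
        have h2 := ih (x + 1)
        have h3 := mul_le_mul_of_nonneg_left (ih x) (hω z)
        have hs : 0 ≤ ∑ z ∈ V, ω z := Finset.sum_nonneg fun z _ => hω z
        have h4 : (∑ z ∈ V, ω z) ^ x ≤ (ω z + ∑ z ∈ V, ω z) ^ x :=
          pow_le_pow_left₀ hs (by linarith [hω z]) x
        calc _ ≤ (∑ z ∈ V, ω z) ^ (x + 1) + ω z * (∑ z ∈ V, ω z) ^ x := add_le_add h2 h3
          _ = (ω z + ∑ z ∈ V, ω z) * (∑ z ∈ V, ω z) ^ x := by ring
          _ ≤ (ω z + ∑ z ∈ V, ω z) * (ω z + ∑ z ∈ V, ω z) ^ x :=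
              mul_le_mul_of_nonneg_left h4 (by linarith [hω z])
          _ = _ := by ring
      · intro X hX Y hY h
        have h1 : z ∉ X := fun h => hz ((Finset.mem_powersetCard.1 hX).1 h)
        have h2 : z ∉ Y := fun h => hz ((Finset.mem_powersetCard.1 hY).1 h)
        have h3 := congrArg (fun S => Finset.erase S z) h
        simpa [Finset.erase_insert h1, Finset.erase_insert h2] using h3
      · rw [Finset.disjoint_left]
        intro X hX hX'
        obtain ⟨Y, -, rfl⟩ := Finset.mem_image.1 hX'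
        exact hz ((Finset.mem_powersetCard.1 hX).1 (Finset.mem_insert_self z Y))

end ItemC2

open ItemC2 in
theorem nearTransversal (_c1 : Transversal) : NearTransversal := by
  classical
  intro n k K x0 V c ω w hK hk hω hw hw0
  have hk' : (1 : ℝ) ≤ k := by exact_mod_cast hk
  have hk0 : (0 : ℝ) < k := by linarith
  set F := (powersetCard K V).filter (fun Y => NearInj x0 c Y) with hF
  have hex : ∀ Y : Finset (Fin n), ∃ X : Finset (Fin n), Y ∈ F →
      X ⊆ Y ∧ X.card ≤ x0 ∧ Set.InjOn c (Y \ X : Finset (Fin n)) := by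
    intro Y
    by_cases h : Y ∈ F
    · obtain ⟨X, hX⟩ := (Finset.mem_filter.1 h).2
      exact ⟨X, fun _ => hX⟩
    · exact ⟨∅, fun h' => absurd h' h⟩
  choose X hX using hex
  have hmaps : ∀ Y ∈ F, (X Y).card ∈ range (x0 + 1) := fun Y hY =>
    Finset.mem_range.2 (Nat.lt_succ_of_le (hX Y hY).2.1)
  rw [← Finset.sum_fiberwise_of_maps_to hmaps]
  have hfib : ∀ x ∈ range (x0 + 1), ∑ Y ∈ F.filter (fun Y => (X Y).card = x), ∏ z ∈ Y, ω z ≤
      (3 * (k : ℝ) ^ (k - K + 2 * x0)) * (w / k) ^ K := by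
    intro x hx
    have hx0 : x ≤ x0 := Nat.le_of_lt_succ (Finset.mem_range.1 hx)
    by_cases hxK : x ≤ K
    · set T := (powersetCard (K - x) V).filter
        (fun Y : Finset (Fin n) => Set.InjOn c (Y : Set (Fin n))) with hT
      have h1 : ∑ Y ∈ F.filter (fun Y => (X Y).card = x), ∏ z ∈ Y, ω z ≤
          ∑ p ∈ powersetCard x V ×ˢ T, (∏ z ∈ p.1, ω z) * ∏ z ∈ p.2, ω z := by
        have h2 : ∑ Y ∈ F.filter (fun Y => (X Y).card = x), ∏ z ∈ Y, ω z =
            ∑ p ∈ (F.filter (fun Y => (X Y).card = x)).image (fun Y => (X Y, Y \ X Y)),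
              (∏ z ∈ p.1, ω z) * ∏ z ∈ p.2, ω z := by
          rw [Finset.sum_image]
          · refine Finset.sum_congr rfl fun Y hY => ?_
            have hY' := (Finset.mem_filter.1 hY).1
            rw [mul_comm, Finset.prod_sdiff (hX Y hY').1]
          · intro Y hY Z hZ h
            have hY' := (hX Y (Finset.mem_filter.1 hY).1).1
            have hZ' := (hX Z (Finset.mem_filter.1 hZ).1).1
            obtain ⟨ha, hb⟩ := Prod.mk.inj h
            rw [← Finset.union_sdiff_of_subset hY', ← Finset.union_sdiff_of_subset hZ', hb, ha]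
        rw [h2]
        refine Finset.sum_le_sum_of_subset_of_nonneg ?_ ?_
        · intro p hp
          obtain ⟨Y, hY, rfl⟩ := Finset.mem_image.1 hp
          obtain ⟨hY1, hY2⟩ := Finset.mem_filter.1 hY
          obtain ⟨hX1, hX2, hX3⟩ := hX Y hY1
          obtain ⟨hV, hcard⟩ := Finset.mem_powersetCard.1 (Finset.mem_filter.1 hY1).1
          simp only [Finset.mem_product, hT, Finset.mem_filter, Finset.mem_powersetCard]
          refine ⟨⟨hX1.trans hV, hY2⟩, ⟨Finset.sdiff_subset.trans hV, ?_⟩, hX3⟩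
          rw [Finset.card_sdiff_of_subset hX1, hcard, hY2]
        · intro p _ _
          exact mul_nonneg (Finset.prod_nonneg fun z _ => hω z) (Finset.prod_nonneg fun z _ => hω z)
      refine h1.trans ?_
      rw [Finset.sum_product]
      simp only [← Finset.mul_sum]
      rw [← Finset.sum_mul]
      have h2 := ItemC1.main V c ω w (by omega : K - x ≤ k) hk hω hw hw0 T
        (fun Y => Finset.mem_filter)
      have h3 := esym_le ω hω V x
      have h4 : (∑ z ∈ V, ω z) ^ x ≤ w ^ x :=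
        pow_le_pow_left₀ (Finset.sum_nonneg fun z _ => hω z) hw x
      have h5 : (0 : ℝ) ≤ ∑ Y ∈ T, ∏ z ∈ Y, ω z :=
        Finset.sum_nonneg fun Y _ => Finset.prod_nonneg fun z _ => hω z
      calc (∑ X ∈ powersetCard x V, ∏ z ∈ X, ω z) * ∑ Y ∈ T, ∏ z ∈ Y, ω z
          ≤ w ^ x * (3 * (k : ℝ) ^ (k - (K - x)) * (w / k) ^ (K - x)) :=
            mul_le_mul (h3.trans h4) h2 h5 (by positivity)
        _ = 3 * (k : ℝ) ^ (k - K + 2 * x) * (w / k) ^ K := by
            have e1 : k - (K - x) = k - K + x := by omega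
            have e2 : (w / k) ^ K = (w / k) ^ (K - x) * (w / k) ^ x := by
              rw [← pow_add]; congr 1; omega
            have e3 : (k : ℝ) ^ (k - K + 2 * x) = (k : ℝ) ^ (k - K + x) * (k : ℝ) ^ x := by
              rw [← pow_add]; congr 1; omega
            have e4 : (k : ℝ) ^ x * (w / k) ^ x = w ^ x := by
              rw [← mul_pow]; congr 1; field_simp
            rw [e1, e2, e3, ← e4]; ring
        _ ≤ (3 * (k : ℝ) ^ (k - K + 2 * x0)) * (w / k) ^ K := by
            have h6 : (k : ℝ) ^ (k - K + 2 * x) ≤ (k : ℝ) ^ (k - K + 2 * x0) :=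
              pow_le_pow_right₀ hk' (by omega)
            have h7 : (0 : ℝ) ≤ (w / k) ^ K := by positivity
            nlinarith
    · have hemp : F.filter (fun Y => (X Y).card = x) = ∅ := by
        rw [Finset.filter_eq_empty_iff]
        intro Y hY h
        have h1 := Finset.card_le_card (hX Y hY).1
        rw [h, (Finset.mem_powersetCard.1 (Finset.mem_filter.1 hY).1).2] at h1
        exact hxK h1
      rw [hemp, Finset.sum_empty]
      positivity
  refine (Finset.sum_le_sum hfib).trans ?_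
  rw [Finset.sum_const, Finset.card_range, nsmul_eq_mul]
  push_cast
  exact le_of_eq (by ring)

end Pool.Agent.Work.MP_947296_co

end

section

set_option autoImplicit false

/-! MP_947296_co, item C8: one level of the chain with roles. -/

namespace Pool.Agent.Work.MP_947296_co

open Finset Play

namespace C8

variable {n : ℕ}

theorem sw_nonneg {N : ℕ} (s : St N) (κ : ℕ) : 0 ≤ sw s κ := by
  unfold sw
  split
  · norm_num
  · split_ifs <;> norm_num
  · split_ifs <;> norm_num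

theorem om_nonneg {N : ℕ} {R : Finset (Fin n)} (h : ↥R → Fin n → St N) (κ : ℕ) (z : Fin n) :
    0 ≤ om h κ z := prod_nonneg fun _ _ => sw_nonneg _ _

theorem gC_nonneg {k N : ℕ} (b x0 : ℕ) (cap : ℝ) (c : Fin n → Fin k) (R : Finset (Fin n))
    (h : ↥R → Fin n → St N) (d : DC b R) : 0 ≤ gC b x0 cap c R h d := by
  unfold gC
  split_ifs
  · exact prod_nonneg fun _ _ => om_nonneg _ _ _
  · exact le_rfl

/-- The number of root histories. -/
theorem card_hist (k N r : ℕ) (R : Finset (Fin n)) (hR : R.card = r) :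
    (Fintype.card ((Fin n → Fin k) × (↥R → Fin n → St N)) : ℝ) =
      (k : ℝ) ^ n * (2 * N + 1 : ℝ) ^ (r * n) := by
  have h1 : Fintype.card (St N) = 2 * N + 1 := by
    rw [Fintype.card_option, Fintype.card_prod, Fintype.card_bool, Fintype.card_fin]
  rw [Fintype.card_prod, Fintype.card_fun, Fintype.card_fun, Fintype.card_fun, h1,
    Fintype.card_fin, Fintype.card_fin, Fintype.card_coe, hR, ← pow_mul]
  push_cast
  rw [mul_comm n r]

end C8

open C8 B1 in
theorem levelC (t6 : FamPot) (c3 : ItemSum) (c4 : Stamps) (c6 : CappedAct) (c7 : ItemClosed) :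
    LevelC := by
  classical
  intro n k b x0 r p Lam cap thr eps S0 hp hrk hcap ht hn hS0 hE
  set N := Fintype.card (Sym2 (Fin n)) + 1 with hN
  have hfam : ∀ (R : {R : Finset (Fin n) // R.card = r})
      (ch : (Fin n → Fin k) × (↥R.1 → Fin n → St N)), ∃ Φ : Pot (Sym2 (Fin n)),
      (∀ f, Φ.val (.init f) ≤ 2 * 2 ^ Lam * S0 ^ p) ∧
      ∀ (H : Play (Sym2 (Fin n))) (Q : Finset (DC b R.1)) (γ σ : ℝ) (m : ℕ), 0 ≤ γ →
        (∀ d ∈ Q, Closed (Ed (d.1 \ R.1)) (d.2.2 : ℕ) H) →
        (∀ d ∈ Q, γ ≤ gC b x0 cap ch.1 R.1 ch.2 d * (1 / 2 : ℝ) ^ (d.2.2 : ℕ)) →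
        (∀ d ∈ Q, (Ed (d.1 \ R.1)).card ≤ m) →
        (∀ e, ((Q.filter (fun d => e ∈ Ed (d.1 \ R.1))).card : ℝ) ≤ σ * Q.card) →
        (p : ℝ) ^ 2 * σ * m ≤ Lam →
        γ ^ p * (Q.card : ℝ) ^ p / 2 ≤ Φ.val H := by
    intro R ch
    obtain ⟨Φ, h1, h2⟩ := t6 (Sym2 (Fin n)) (DC b R.1) (fun d => Ed (d.1 \ R.1))
      (fun d => (d.2.2 : ℕ)) (gC b x0 cap ch.1 R.1 ch.2) p Lam (gC_nonneg _ _ _ _ _ _)
    refine ⟨Φ, fun f => (h1 f).trans ?_, ?_⟩
    · refine mul_le_mul_of_nonneg_left ?_ (by positivity)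
      refine pow_le_pow_left₀ (sum_nonneg fun S _ => mul_nonneg (gC_nonneg _ _ _ _ _ _ _)
        (by positivity)) ?_ p
      exact (c3 n k b x0 r N cap ch.1 R.1 ch.2 R.2 hrk hcap).trans hS0
    · intro H Q γ σ m a1 a2 a3 a4 a5 a6
      refine h2 H Q γ σ m a1 a2 a3 a4 (fun e => ?_) a6
      convert a5 e
  choose Φ hΦ1 hΦ2 using hfam
  have hc : (0 : ℝ) ≤ 2 / thr ^ p := by positivity
  refine ⟨Pot.sum (fun _ : {R : Finset (Fin n) // R.card = r} => 1) (fun _ => zero_le_one)
    (fun R => Pot.sum (fun _ : (Fin n → Fin k) × (↥R.1 → Fin n → St N) => 2 / thr ^ p)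
      (fun _ => hc) (Φ R)), fun f => ?_, ?_⟩
  · rw [Pot.sum_val]
    have h1 : ∀ R : {R : Finset (Fin n) // R.card = r}, (1 : ℝ) *
        (Pot.sum (fun _ : (Fin n → Fin k) × (↥R.1 → Fin n → St N) => 2 / thr ^ p)
          (fun _ => hc) (Φ R)).val (.init f) ≤
        ((k : ℝ) ^ n * (2 * N + 1 : ℝ) ^ (r * n)) * (2 / thr ^ p * (2 * 2 ^ Lam * S0 ^ p)) := by
      intro R
      rw [one_mul, Pot.sum_val]
      refine le_trans (sum_le_sum fun ch _ => mul_le_mul_of_nonneg_left (hΦ1 R ch f) hc) ?_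
      rw [sum_const, card_univ, nsmul_eq_mul, card_hist k N r R.1 R.2]
    refine le_trans (sum_le_sum fun R _ => h1 R) ?_
    rw [sum_const, card_univ, Fintype.card_finset_len, Fintype.card_fin, nsmul_eq_mul]
    refine le_trans (le_of_eq ?_) hE
    rw [hN]
    push_cast
    ring
  · intro H hW hH c R hR θ hθ hLam
    obtain ⟨st, hst⟩ := c4 (Sym2 (Fin n)) H
    set h : ↥R → Fin n → St N := fun x z => st s((x : Fin n), z) with hh
    have hcapd : Capped h cap := c6 n N r H st R cap hst hR hn (fun H' hH' => hW H' hH' R hR)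
    rw [Pot.sum_val] at hH
    have h1 : 2 / thr ^ p * (Φ ⟨R, hR⟩ (c, h)).val H ≤ 1 := by
      refine le_trans ?_ hH
      refine le_trans ?_ (single_le_sum (f := fun R : {R : Finset (Fin n) // R.card = r} =>
        (1 : ℝ) * (Pot.sum (fun _ : (Fin n → Fin k) × (↥R.1 → Fin n → St N) => 2 / thr ^ p)
          (fun _ => hc) (Φ R)).val H)
        (fun d _ => mul_nonneg zero_le_one (Pot.val_nonneg _ _))
        (mem_univ (⟨R, hR⟩ : {R : Finset (Fin n) // R.card = r})))
      simp only [one_mul, Pot.sum_val]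
      exact single_le_sum (f := fun d => 2 / thr ^ p * (Φ ⟨R, hR⟩ d).val H)
        (fun d _ => mul_nonneg hc ((Φ _ d).val_nonneg H)) (mem_univ (c, h))
    by_contra hcon
    rw [not_le] at hcon
    have hit := c7 n N k b x0 H st R c hst
    choose dS hd1 hd2 hd3 hd4 using hit
    set Q : Finset (DC b R) := (QC k b x0 c R H).attach.image (fun S => dS S.1 S.2) with hQ
    have hQcard : Q.card = (QC k b x0 c R H).card := by
      rw [hQ, card_image_of_injective, card_attach]
      intro S T hST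
      have h2 : (dS S.1 S.2).1 = (dS T.1 T.2).1 := congrArg Prod.fst hST
      rw [hd1, hd1] at h2
      exact Subtype.ext h2
    have hmem : ∀ d ∈ Q, ∃ S, ∃ hS : S ∈ QC k b x0 c R H, d = dS S hS := by
      intro d hd
      rw [hQ, mem_image] at hd
      obtain ⟨S, _, rfl⟩ := hd
      exact ⟨S.1, S.2, rfl⟩
    have hkey := hΦ2 ⟨R, hR⟩ (c, h) H Q ((1 / 2 : ℝ) ^ b) (max θ 0 / thr) (k.choose 2)
      (by positivity) ?_ ?_ ?_ ?_ (overlap ht hLam)
    · rw [hQcard] at hkey
      exact absurd (fin_arg hp (by positivity) ht hkey (le_half ht h1)) (not_le.2 hcon)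
    · intro d hd
      obtain ⟨S, hS, rfl⟩ := hmem d hd
      exact hd3 S hS
    · intro d hd
      obtain ⟨S, hS, rfl⟩ := hmem d hd
      refine (hd4 S hS).trans (le_of_eq ?_)
      congr 1
      rw [gC, if_pos ⟨hcapd, hd2 S hS⟩]
    · intro d hd
      obtain ⟨S, hS, rfl⟩ := hmem d hd
      rw [card_Ed]
      refine Nat.choose_le_choose 2 ?_
      refine (card_le_card sdiff_subset).trans ?_
      exact (hd2 S hS).2.1.le
    · intro e
      induction e using Sym2.ind with
      | _ x y =>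
        rw [hQcard]
        by_cases hxy : x ∉ R ∧ y ∉ R ∧ x ≠ y
        · refine spread ht hcon (le_trans ?_ (hθ x y hxy.1 hxy.2.1 hxy.2.2))
          refine mul_le_mul_of_nonneg_right ?_ (by positivity)
          refine Nat.cast_le.2 ?_
          refine card_le_card_of_injOn (fun d => d.1) ?_ ?_
          · intro d hd
            rw [mem_coe, mem_filter] at hd
            obtain ⟨S, hS, rfl⟩ := hmem d hd.1
            have h3 := mem_Ed.1 hd.2
            rw [hd1] at h3
            change (dS S hS).1 ∈ _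
            rw [hd1, mem_coe, mem_filter]
            exact ⟨hS, (mem_sdiff.1 h3.1).1, (mem_sdiff.1 h3.2.1).1⟩
          · intro d hd d' hd' hdd
            rw [mem_coe, mem_filter] at hd hd'
            obtain ⟨S, hS, rfl⟩ := hmem d hd.1
            obtain ⟨S', hS', rfl⟩ := hmem d' hd'.1
            have h3 : (dS S hS).1 = (dS S' hS').1 := hdd
            rw [hd1, hd1] at h3
            subst h3
            rfl
        · have h2 : Q.filter (fun d => s(x, y) ∈ Ed (d.1 \ R)) = ∅ := by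
            rw [filter_eq_empty_iff]
            intro d _ h3
            rw [mem_Ed] at h3
            exact hxy ⟨(mem_sdiff.1 h3.1).2, (mem_sdiff.1 h3.2.1).2, h3.2.2⟩
          rw [h2, card_empty, Nat.cast_zero]
          exact spread0 ht (by positivity)

end Pool.Agent.Work.MP_947296_co

end

section

set_option autoImplicit false

/-! MP_947296_co, item NB1: the trivial start of the chain B. -/

namespace Pool.Agent.Work.MP_947296_co

open Finset Play

namespace ItemNB1

/-- exponent inequality -/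
theorem expo {u U k : ℕ} (hu : 30 ≤ u) (hU : u ^ 2 ≤ U) (hk : k + 2 * u + 9 = 40 * U) :
    20 * U * (10 * u) + (u + 6) * (k - (3 * u + 24)) + k.choose 2
      + 3 * u * (k - 10 * u - (3 * u + 24))
      ≤ 20 * U * (k - (3 * u + 24)) + (3 * u + 24).choose 2 + 400 * u * U := by
  have hk1 : 20 * u ^ 2 ≤ k := by nlinarith
  have hk2 : 13 * u + 24 ≤ k := by nlinarith
  obtain ⟨c, hc⟩ : ∃ c, k = c + (13 * u + 24) := ⟨k - (13 * u + 24), by omega⟩
  have e1 : k - 10 * u - (3 * u + 24) = c := by omega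
  have e3 : k - (3 * u + 24) = c + 10 * u := by omega
  rw [e1, e3]
  have hb1 : k.choose 2 * 2 = k * (k - 1) := by
    rw [Nat.choose_two_right]
    exact Nat.div_mul_cancel (Nat.even_mul_pred_self k).two_dvd
  have ha1 : (3 * u + 24).choose 2 * 2 = (3 * u + 24) * (3 * u + 24 - 1) := by
    rw [Nat.choose_two_right]
    exact Nat.div_mul_cancel (Nat.even_mul_pred_self _).two_dvd
  have hb2 : k - 1 = c + 13 * u + 23 := by omega
  have ha2 : 3 * u + 24 - 1 = 3 * u + 23 := by omega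
  rw [hb2] at hb1
  rw [ha2] at ha1
  have hUc : 40 * U = c + 15 * u + 33 := by omega
  subst hc
  zify at *
  nlinarith

theorem main {u U k n : ℕ} (hu : 30 ≤ u) (hU : U = 2 ^ u) (hk : k + 2 * u + 9 = 40 * U)
    (hn : n = 2 ^ (20 * U)) :
    (n.choose (10 * u) : ℝ) * (1 / 2 : ℝ) ^ (400 * u * U) ≤
      2 ^ U * ((n : ℝ) ^ (k - (3 * u + 24)) / (k - (3 * u + 24)).factorial *
        (1 / 2 : ℝ) ^ (k.choose 2 - (3 * u + 24).choose 2)) *
          (1 / 2 : ℝ) ^ (3 * u * (k - 10 * u - (3 * u + 24))) := by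
  have hU2 : u ^ 2 ≤ U := by rw [hU]; exact ItemNB3.sq_le_two_pow hu
  have hk2 : 13 * u + 24 ≤ k := by nlinarith
  have h0 := expo hu hU2 hk
  have hcw : (3 * u + 24).choose 2 ≤ k.choose 2 := Nat.choose_le_choose 2 (by omega)
  have hKf : ((k - (3 * u + 24)).factorial : ℝ) ≤ 2 ^ ((u + 6) * (k - (3 * u + 24))) := by
    have h1 : (k - (3 * u + 24)).factorial ≤ (k - (3 * u + 24)) ^ (k - (3 * u + 24)) :=
      Nat.factorial_le_pow _
    have h2 : k - (3 * u + 24) ≤ 2 ^ (u + 6) := by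
      rw [pow_add, ← hU]
      omega
    have h3 : (k - (3 * u + 24)).factorial ≤ (2 ^ (u + 6)) ^ (k - (3 * u + 24)) :=
      h1.trans (Nat.pow_le_pow_left h2 _)
    rw [← pow_mul] at h3
    exact_mod_cast h3
  have hKpos : (0 : ℝ) < ((k - (3 * u + 24)).factorial : ℝ) := by positivity
  have hnr : (n : ℝ) = 2 ^ (20 * U) := by rw [hn]; push_cast; rfl
  have hch : (n.choose (10 * u) : ℝ) ≤ 2 ^ (20 * U * (10 * u)) := by
    have : n.choose (10 * u) ≤ n ^ (10 * u) := Nat.choose_le_pow _ _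
    have h' : (n.choose (10 * u) : ℝ) ≤ (n : ℝ) ^ (10 * u) := by exact_mod_cast this
    rw [hnr, ← pow_mul] at h'
    exact h'
  rw [ItemNB3.half_pow_sub hcw]
  have hL : (n.choose (10 * u) : ℝ) * (1 / 2 : ℝ) ^ (400 * u * U)
      ≤ 2 ^ (20 * U * (10 * u)) * (1 / 2 : ℝ) ^ (400 * u * U) := by gcongr
  refine hL.trans ?_
  have hR : (2 : ℝ) ^ (20 * U * (k - (3 * u + 24)) + (3 * u + 24).choose 2)
      / 2 ^ ((u + 6) * (k - (3 * u + 24)))
      ≤ (n : ℝ) ^ (k - (3 * u + 24)) / ((k - (3 * u + 24)).factorial : ℝ)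
        * 2 ^ ((3 * u + 24).choose 2) := by
    rw [hnr, ← pow_mul, pow_add, div_mul_eq_mul_div]
    gcongr
  have hone : (1 : ℝ) ≤ 2 ^ U := one_le_pow₀ (by norm_num)
  have hX : (0 : ℝ) ≤ (n : ℝ) ^ (k - (3 * u + 24)) / ((k - (3 * u + 24)).factorial : ℝ)
        * 2 ^ ((3 * u + 24).choose 2) := by positivity
  generalize (n : ℝ) ^ (k - (3 * u + 24)) / ((k - (3 * u + 24)).factorial : ℝ) = Y at *
  have hR2 : (2 : ℝ) ^ (20 * U * (k - (3 * u + 24)) + (3 * u + 24).choose 2)
      / 2 ^ ((u + 6) * (k - (3 * u + 24)))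
      ≤ 2 ^ U * (Y * 2 ^ ((3 * u + 24).choose 2)) := by
    refine hR.trans ?_
    have := mul_le_mul_of_nonneg_right hone hX
    rwa [one_mul] at this
  have hP : (0 : ℝ) ≤ (1 / 2 : ℝ) ^ (k.choose 2) * (1 / 2 : ℝ) ^ (3 * u * (k - 10 * u - (3 * u + 24))) := by
    positivity
  have h3 := mul_le_mul_of_nonneg_right hR2 hP
  refine le_trans (le_trans ?_ h3) (le_of_eq (by ring))
  rw [one_div, inv_pow, inv_pow, inv_pow, ← div_eq_mul_inv, ← mul_inv, ← div_eq_mul_inv,
    div_div, div_le_div_iff₀ (by positivity) (by positivity),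
    ← pow_add, ← pow_add, ← pow_add, ← pow_add]
  apply pow_le_pow_right₀ (by norm_num)
  omega

end ItemNB1

theorem numB1 : NumB1 := by
  unfold NumB1
  filter_upwards [Filter.eventually_ge_atTop 30] with u hu
  have hw : pw u + 6 = 3 * u + 24 := by unfold pw; omega
  have hU2 : u ^ 2 ≤ 2 ^ u := ItemNB3.sq_le_two_pow hu
  have hk : pk u + 2 * u + 9 = 40 * 2 ^ u := by
    unfold pk
    have : u ≤ u ^ 2 := by nlinarith
    omega
  unfold thrB
  rw [hw]
  exact ItemNB1.main hu rfl hk rfl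

end Pool.Agent.Work.MP_947296_co

end

section

/-!
# ItemNB4: the total cost of the levels of the chain B
-/

set_option autoImplicit false

namespace Pool.Agent.Work.MP_947296_co

open Finset

namespace NB4

theorem pb_bound {u : ℕ} (hu : 30 ≤ u) :
    ((pb u : ℝ) + 1) ^ (100 * pk u) ≤ (2 : ℝ) ^ (10 * pk u * 2 ^ u) := by
  have hbig := NM1.pow_big hu
  have h1 : pb u + 1 ≤ 2 ^ (9 + 2 * u) := by
    unfold pb
    have e1 : u ≤ 2 ^ u := by omega
    have e2 : 400 * u * 2 ^ u ≤ 400 * 2 ^ u * 2 ^ u :=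
      Nat.mul_le_mul_right _ (Nat.mul_le_mul_left _ e1)
    have e3 : 2 ^ (9 + 2 * u) = 512 * 2 ^ u * 2 ^ u := by
      rw [pow_add, mul_comm 2 u, pow_mul]
      ring
    have e4 : 1 ≤ 112 * 2 ^ u * 2 ^ u := by
      have : 0 < 112 * 2 ^ u * 2 ^ u := by positivity
      omega
    have e5 : 512 * 2 ^ u * 2 ^ u = 400 * 2 ^ u * 2 ^ u + 112 * 2 ^ u * 2 ^ u := by ring
    omega
  have h2 : (pb u : ℝ) + 1 ≤ (2 : ℝ) ^ (9 + 2 * u) := by exact_mod_cast h1
  calc ((pb u : ℝ) + 1) ^ (100 * pk u) ≤ ((2 : ℝ) ^ (9 + 2 * u)) ^ (100 * pk u) :=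
        pow_le_pow_left₀ (by positivity) h2 _
    _ = (2 : ℝ) ^ ((9 + 2 * u) * (100 * pk u)) := by rw [← pow_mul]
    _ ≤ (2 : ℝ) ^ (10 * pk u * 2 ^ u) := by
        refine pow_le_pow_right₀ (by norm_num) ?_
        have e6 : (9 + 2 * u) * 10 ≤ 2 ^ u := by omega
        calc (9 + 2 * u) * (100 * pk u) = 10 * pk u * ((9 + 2 * u) * 10) := by ring
          _ ≤ 10 * pk u * 2 ^ u := Nat.mul_le_mul_left _ e6

end NB4

open NB4 in
theorem numB4 (b3 : NumB3) : NumB4 := by
  filter_upwards [b3, Filter.eventually_ge_atTop 30] with u h3 hu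
  obtain ⟨-, hk20, hk40, hk1⟩ := NM1.pk_eq hu
  have hbig := NM1.pow_big hu
  have hb := pb_bound hu
  set k := pk u with hk
  set n := pn u with hn
  set b := pb u with hbdef
  have hn1 : 1 ≤ n := by rw [hn, pn]; exact Nat.one_le_two_pow
  have hterm : ∀ j ∈ Ico (pw u + 6) (k - 10 * u), ((n.choose j : ℕ) : ℝ) *
      (2 * (2 * 2 ^ (50 * k * 2 ^ u) * (((b : ℝ) + 1) * (n.choose (k - j)) *
        (1 / 2 : ℝ) ^ (k.choose 2 - j.choose 2)) ^ (100 * k)) / thrB u j ^ (100 * k)) ≤
      1 / (256 * (k : ℝ)) * 4 := by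
    intro j hj
    have hx := h3 j hj
    rw [mem_Ico] at hj
    set X : ℝ := ((n.choose (k - j) : ℕ) : ℝ) * (1 / 2 : ℝ) ^ (k.choose 2 - j.choose 2) with hX
    have hX0 : 0 < X := by
      rw [hX]
      have hkn : k - j ≤ n := by
        have : k ≤ n := by
          refine hk40.trans ?_
          rw [hn, pn]
          have e1 : 40 * 2 ^ u ≤ 2 ^ (6 + u) := by
            rw [pow_add]
            exact Nat.mul_le_mul_right _ (by norm_num)
          refine e1.trans (Nat.pow_le_pow_right (by norm_num) ?_)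
          omega
        omega
      have : 0 < n.choose (k - j) := Nat.choose_pos hkn
      have : (0 : ℝ) < ((n.choose (k - j) : ℕ) : ℝ) := by exact_mod_cast this
      positivity
    set Th := thrB u j with hTh
    have hTh0 : 0 < Th := lt_of_lt_of_le (by positivity) hx
    have hre : ((b : ℝ) + 1) * (n.choose (k - j)) * (1 / 2 : ℝ) ^ (k.choose 2 - j.choose 2) =
        ((b : ℝ) + 1) * X := by rw [hX]; ring
    rw [hre, mul_pow]
    have hq : X ^ (100 * k) * (2 : ℝ) ^ (100 * k * 2 ^ u) ≤ Th ^ (100 * k) := by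
      have e1 : (2 : ℝ) ^ (100 * k * 2 ^ u) = ((2 : ℝ) ^ (2 ^ u)) ^ (100 * k) := by
        rw [← pow_mul]
        congr 1
        ring
      rw [e1, ← mul_pow, mul_comm X]
      exact pow_le_pow_left₀ (by positivity) hx _
    have hq' : X ^ (100 * k) / Th ^ (100 * k) ≤ 1 / (2 : ℝ) ^ (100 * k * 2 ^ u) := by
      rw [div_le_div_iff₀ (by positivity) (by positivity), one_mul]
      exact hq
    have hnj : ((n.choose j : ℕ) : ℝ) ≤ (2 : ℝ) ^ (20 * k * 2 ^ u) := by
      have e1 : n.choose j ≤ n ^ j := Nat.choose_le_pow n j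
      have e2 : n ^ j ≤ n ^ k := Nat.pow_le_pow_right hn1 (by omega)
      have e3 : n ^ k = 2 ^ (20 * k * 2 ^ u) := by
        rw [hn, pn, ← pow_mul]
        congr 1
        ring
      have e4 : n.choose j ≤ 2 ^ (20 * k * 2 ^ u) := by rw [← e3]; exact e1.trans e2
      exact_mod_cast e4
    have hfin : 4 * ((2 : ℝ) ^ (20 * k * 2 ^ u) * (2 : ℝ) ^ (50 * k * 2 ^ u) *
        (2 : ℝ) ^ (10 * k * 2 ^ u) * (1 / (2 : ℝ) ^ (100 * k * 2 ^ u))) ≤
        1 / (256 * (k : ℝ)) * 4 := by
      have e1 : (2 : ℝ) ^ (100 * k * 2 ^ u) = (2 : ℝ) ^ (20 * k * 2 ^ u) *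
          (2 : ℝ) ^ (50 * k * 2 ^ u) * (2 : ℝ) ^ (10 * k * 2 ^ u) * (2 : ℝ) ^ (20 * k * 2 ^ u) := by
        rw [← pow_add, ← pow_add, ← pow_add]
        congr 1
        ring
      have e2 : (2 : ℝ) ^ (20 * k * 2 ^ u) * (2 : ℝ) ^ (50 * k * 2 ^ u) *
          (2 : ℝ) ^ (10 * k * 2 ^ u) * (1 / (2 : ℝ) ^ (100 * k * 2 ^ u)) =
          1 / (2 : ℝ) ^ (20 * k * 2 ^ u) := by
        rw [e1]
        field_simp
      rw [e2]
      have hk0 : (0 : ℝ) < k := by exact_mod_cast hk1
      have e3 : 256 * (k : ℝ) ≤ (2 : ℝ) ^ (20 * k * 2 ^ u) := by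
        have e4 : 256 * k ≤ 2 ^ (20 * k * 2 ^ u) := by
          have e5 : k ≤ 2 ^ k := Nat.lt_two_pow_self.le
          have e6 : 256 * 2 ^ k = 2 ^ (8 + k) := by rw [pow_add]; norm_num
          calc 256 * k ≤ 256 * 2 ^ k := Nat.mul_le_mul_left _ e5
            _ = 2 ^ (8 + k) := e6
            _ ≤ 2 ^ (20 * k * 2 ^ u) := by
                refine Nat.pow_le_pow_right (by norm_num) ?_
                have e7 : 20 * k * 1 ≤ 20 * k * 2 ^ u :=
                  Nat.mul_le_mul_left _ Nat.one_le_two_pow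
                omega
        exact_mod_cast e4
      have e8 : 1 / (2 : ℝ) ^ (20 * k * 2 ^ u) ≤ 1 / (256 * (k : ℝ)) :=
        one_div_le_one_div_of_le (by positivity) e3
      linarith
    refine le_trans ?_ hfin
    calc ((n.choose j : ℕ) : ℝ) * (2 * (2 * 2 ^ (50 * k * 2 ^ u) *
          (((b : ℝ) + 1) ^ (100 * k) * X ^ (100 * k))) / Th ^ (100 * k))
        = 4 * (((n.choose j : ℕ) : ℝ) * 2 ^ (50 * k * 2 ^ u) * ((b : ℝ) + 1) ^ (100 * k) *
          (X ^ (100 * k) / Th ^ (100 * k))) := by ring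
      _ ≤ 4 * ((2 : ℝ) ^ (20 * k * 2 ^ u) * (2 : ℝ) ^ (50 * k * 2 ^ u) *
        (2 : ℝ) ^ (10 * k * 2 ^ u) * (1 / (2 : ℝ) ^ (100 * k * 2 ^ u))) := by
          gcongr
  have hsum := Finset.sum_le_sum hterm
  refine hsum.trans ?_
  rw [Finset.sum_const, Nat.card_Ico, nsmul_eq_mul]
  have hk0 : (0 : ℝ) < k := by exact_mod_cast hk1
  have hc : ((k - 10 * u - (pw u + 6) : ℕ) : ℝ) ≤ k := by
    have : k - 10 * u - (pw u + 6) ≤ k := by omega
    exact_mod_cast this
  calc ((k - 10 * u - (pw u + 6) : ℕ) : ℝ) * (1 / (256 * (k : ℝ)) * 4)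
      ≤ k * (1 / (256 * (k : ℝ)) * 4) := mul_le_mul_of_nonneg_right hc (by positivity)
    _ = 1 / 64 := by field_simp; norm_num

end Pool.Agent.Work.MP_947296_co

end

section

set_option autoImplicit false

/-! MP_947296_co, item NC4: the base of the chain C. -/

namespace Pool.Agent.Work.MP_947296_co

open Finset

namespace NC4

theorem choose_add (a j : ℕ) : (a + j).choose 2 = a.choose 2 + j.choose 2 + a * j := by
  induction j with
  | zero => simp
  | succ j ih =>
    have h1 : (a + (j + 1)).choose 2 = (a + j).choose 1 + (a + j).choose 2 :=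
      Nat.choose_succ_succ' _ _
    have h2 : (j + 1).choose 2 = j.choose 1 + j.choose 2 := Nat.choose_succ_succ' _ _
    rw [h1, h2, ih, Nat.choose_one_right, Nat.choose_one_right]
    ring

theorem exp_pk_le (u : ℕ) : Real.exp (pk u) ≤ 2 ^ (58 * 2 ^ u) := by
  have h1 : (pk u : ℝ) ≤ 40 * 2 ^ u := by
    have : pk u ≤ 40 * 2 ^ u := by unfold pk; omega
    exact_mod_cast this
  have h2 : Real.exp 1 ^ 20 ≤ 2 ^ 29 := by
    calc Real.exp 1 ^ 20 ≤ (2.7182818286 : ℝ) ^ 20 :=
          pow_le_pow_left₀ (Real.exp_pos 1).le Real.exp_one_lt_d9.le 20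
      _ ≤ 2 ^ 29 := by norm_num
  calc Real.exp (pk u) ≤ Real.exp (((20 * (2 * 2 ^ u) : ℕ) : ℝ) * 1) := by
        apply Real.exp_le_exp.2
        push_cast
        linarith
    _ = (Real.exp 1 ^ 20) ^ (2 * 2 ^ u) := by rw [Real.exp_nat_mul, pow_mul]
    _ ≤ (2 ^ 29) ^ (2 * 2 ^ u) := pow_le_pow_left₀ (by positivity) h2 _
    _ = 2 ^ (58 * 2 ^ u) := by rw [← pow_mul]; congr 1; ring

theorem alg (n k : ℝ) (hk : 0 < k) (K j F C : ℕ) (hF : 0 < F) :
    n ^ K / (F : ℝ) * (1 / 2 : ℝ) ^ (C + K * j) =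
      (k ^ K / F) * ((n * (1 / 2 : ℝ) ^ j / k) ^ K * (1 / 2 : ℝ) ^ C) := by
  have hF' : (0 : ℝ) < F := by exact_mod_cast hF
  have e : (n * (1 / 2 : ℝ) ^ j / k) ^ K = n ^ K * (1 / 2 : ℝ) ^ (K * j) / k ^ K := by
    rw [div_pow, mul_pow, ← pow_mul, mul_comm j K]
  rw [e, pow_add]
  have hkK : (0 : ℝ) < k ^ K := by positivity
  generalize (1 / 2 : ℝ) ^ C = c
  generalize (1 / 2 : ℝ) ^ (K * j) = d
  generalize n ^ K = m
  generalize k ^ K = q at *
  field_simp

theorem fin (U : ℕ) (y z : ℝ) (hz : 0 ≤ z) (hy : y ≤ 2 ^ (58 * U)) :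
    (2 : ℝ) ^ U * (y * z) ≤ 2 ^ (59 * U) * z := by
  have e : (2 : ℝ) ^ (59 * U) = 2 ^ U * 2 ^ (58 * U) := by
    rw [← pow_add]; congr 1; ring
  rw [e, mul_assoc]
  exact mul_le_mul_of_nonneg_left (mul_le_mul_of_nonneg_right hy hz) (by positivity)

theorem thrB_le (u : ℕ) (hu : 7 ≤ u) : thrB u (pw u + 6) ≤ thrC u (pw u + 6) 59 := by
  have hk : pw u + 6 ≤ pk u := by
    have := NC3.pk_ge u hu
    unfold pw
    omega
  obtain ⟨K, hK⟩ : ∃ K, pk u = K + (pw u + 6) := ⟨pk u - (pw u + 6), by omega⟩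
  have hk0 : (0 : ℝ) < pk u := by
    have : 0 < pk u := by omega
    exact_mod_cast this
  have h1 : pk u - (pw u + 6) = K := by omega
  have h2 : (pk u).choose 2 - (pw u + 6).choose 2 = K.choose 2 + K * (pw u + 6) := by
    rw [hK, choose_add]; omega
  have h3 : (pk u : ℝ) ^ K / K.factorial ≤ 2 ^ (58 * 2 ^ u) :=
    (Real.pow_div_factorial_le_exp _ hk0.le K).trans (exp_pk_le u)
  have hB : thrB u (pw u + 6) = 2 ^ (2 ^ u) * (((pk u : ℝ) ^ K / K.factorial) *
      Cc u (pw u + 6)) := by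
    unfold thrB Cc
    rw [h1, h2, Nat.sub_self, mul_zero, pow_zero, mul_one,
      alg (pn u) (pk u) hk0 K (pw u + 6) K.factorial (K.choose 2) (Nat.factorial_pos K)]
  rw [hB]
  unfold thrC
  exact fin (2 ^ u) _ _ (NC3.Cc_nonneg _ _) h3

end NC4

theorem numC4 : NumC4 := by
  unfold NumC4
  filter_upwards [Filter.eventually_ge_atTop 7] with u hu
  refine le_trans ?_ (NC3.step u (pw u + 4) 41 hu le_rfl (by norm_num))
  exact mul_le_mul_of_nonneg_left (NC4.thrB_le u hu) (by positivity)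

end Pool.Agent.Work.MP_947296_co

end
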